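import Pool.Agent.GE63.UpLo
import Pool.Agent.NL25.Stein

set_option autoImplicit false

/-!
# GE63/Abs0: the mean absolute deviation of the number of comparable neighbours, height `≤ c N`
-/

namespace Pool.GE63

open Pool.HB45 Pool.SC45

/-- (I1') at tilt 0, for all heights `≤ c N`. -/
theorem adj_abs0 (ε : ℝ) (hε : 0 < ε) : ∃ c : ℝ, 0 < c ∧ ∃ N0 : ℕ, ∀ N ≥ N0, ∀ h : ℕ,
    (h : ℝ) ≤ c * N → ∀ (Q : Rel (N + 1)) (κ lab : Fin (N + 1) → ℕ),
    Lev h Q κ → Nat' Q lab →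
    ∑ g ∈ LE Q, |(adj Q g : ℝ) - NL25.GG Q| ≤ ε * Real.sqrt N * (LE Q).card := by
  obtain ⟨c, hc⟩ : ∃ c : ℝ, c = (ε / 32) ^ 2 := ⟨_, rfl⟩
  have hc0 : 0 < c := by rw [hc]; positivity
  obtain ⟨N0, hN0⟩ := exists_nat_ge (4 / c)
  refine ⟨c, hc0, N0 + 1, ?_⟩
  intro N hN h hh Q κ lab hκ hn
  have hNR : 4 / c ≤ (N : ℝ) := hN0.trans (by exact_mod_cast (by omega : N0 ≤ N))
  have hNpos : (0 : ℝ) < N := by
    have : 0 < 4 / c := by positivity
    linarith
  have hcard := NL25.card_pos hn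
  -- q = 1 / (2 sqrt (c N))
  obtain ⟨R, hR⟩ : ∃ R : ℝ, R = Real.sqrt (c * N) := ⟨_, rfl⟩
  have hcN : 4 ≤ c * N := by
    rw [div_le_iff₀ hc0] at hNR
    linarith
  have hR2 : 2 ≤ R := by
    rw [hR]
    apply Real.le_sqrt_of_sq_le
    linarith
  have hRR : R ^ 2 = c * N := by
    rw [hR]
    exact Real.sq_sqrt (by linarith)
  obtain ⟨q, hq⟩ : ∃ q : ℝ, q = 1 / (2 * R) := ⟨_, rfl⟩
  have hR0 : 0 < R := by linarith
  have hq0 : 0 < q := by rw [hq]; positivity
  have hqR : q * R = 1 / 2 := by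
    rw [hq]
    field_simp
  have hq4 : q ≤ 1 / 4 := by
    rw [hq]
    apply one_div_le_one_div_of_le (by norm_num)
    linarith
  obtain ⟨lam, hlam⟩ : ∃ lam : ℝ, lam = q - 2 * q ^ 2 := ⟨_, rfl⟩
  have hlam2 : q / 2 ≤ lam := by
    rw [hlam]
    nlinarith
  have hlam0 : 0 < lam := by linarith
  have hGle : NL25.GG Q ≤ c * N := (NL25.GG_le hκ hn).trans hh
  have hG0 : 0 ≤ NL25.GG Q := NL25.GG_nonneg Q
  have hup := UP hn q hq0.le hq4
  rw [← hlam] at hup
  have hGG : GG Q = NL25.GG Q := rfl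
  rw [hGG] at hup
  -- the sum of the differences is zero
  have hsum0 : ∑ g ∈ LE Q, ((adj Q g : ℝ) - NL25.GG Q) = 0 := by
    rw [Finset.sum_sub_distrib, Finset.sum_const, nsmul_eq_mul]
    unfold NL25.GG
    rw [mul_div_cancel₀ _ hcard.ne', sub_self]
  -- pointwise
  have hpt : ∀ g ∈ LE Q, |(adj Q g : ℝ) - NL25.GG Q| ≤
      2 / lam * Real.exp (-(lam * NL25.GG Q)) * Real.exp (lam * adj Q g) -
        ((adj Q g : ℝ) - NL25.GG Q) := by
    intro g _
    have e1 : Real.exp (-(lam * NL25.GG Q)) * Real.exp (lam * adj Q g) =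
        Real.exp (lam * ((adj Q g : ℝ) - NL25.GG Q)) := by
      rw [← Real.exp_add]
      congr 1
      ring
    rw [mul_assoc, e1]
    have h1 : lam * ((adj Q g : ℝ) - NL25.GG Q) ≤
        Real.exp (lam * ((adj Q g : ℝ) - NL25.GG Q)) := by
      have := Real.add_one_le_exp (lam * ((adj Q g : ℝ) - NL25.GG Q))
      linarith
    have h2 : 2 / lam * (lam * ((adj Q g : ℝ) - NL25.GG Q)) ≤
        2 / lam * Real.exp (lam * ((adj Q g : ℝ) - NL25.GG Q)) :=
      mul_le_mul_of_nonneg_left h1 (by positivity)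
    have h3 : 2 / lam * (lam * ((adj Q g : ℝ) - NL25.GG Q)) =
        2 * ((adj Q g : ℝ) - NL25.GG Q) := by
      field_simp
    have h4 : 0 < 2 / lam * Real.exp (lam * ((adj Q g : ℝ) - NL25.GG Q)) := by positivity
    rcases le_total 0 ((adj Q g : ℝ) - NL25.GG Q) with hx | hx
    · rw [abs_of_nonneg hx]
      linarith
    · rw [abs_of_nonpos hx]
      linarith
  refine (Finset.sum_le_sum hpt).trans ?_
  rw [Finset.sum_sub_distrib, hsum0, sub_zero, ← Finset.mul_sum]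
  have h5 : 2 / lam * Real.exp (-(lam * NL25.GG Q)) * ∑ g ∈ LE Q, Real.exp (lam * adj Q g) ≤
      2 / lam * Real.exp (-(lam * NL25.GG Q)) *
        ((LE Q).card * Real.exp ((q + q ^ 2) * NL25.GG Q)) :=
    mul_le_mul_of_nonneg_left hup (by positivity)
  refine h5.trans ?_
  have h6 : Real.exp (-(lam * NL25.GG Q)) * Real.exp ((q + q ^ 2) * NL25.GG Q) =
      Real.exp (3 * q ^ 2 * NL25.GG Q) := by
    rw [← Real.exp_add]
    congr 1
    rw [hlam]
    ring
  have h7 : 3 * q ^ 2 * NL25.GG Q ≤ 1 := by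
    have h8 : q ^ 2 * NL25.GG Q ≤ q ^ 2 * (c * N) := mul_le_mul_of_nonneg_left hGle (by positivity)
    have h9 : q ^ 2 * (c * N) = 1 / 4 := by
      rw [← hRR]
      calc q ^ 2 * R ^ 2 = (q * R) ^ 2 := by ring
        _ = 1 / 4 := by rw [hqR]; norm_num
    linarith
  have h10 : Real.exp (3 * q ^ 2 * NL25.GG Q) ≤ 3 := by
    refine (Real.exp_le_exp.2 h7).trans ?_
    have := Real.exp_one_lt_d9
    linarith
  have h11 : 2 / lam ≤ 8 * R := by
    have h12 : 2 / lam ≤ 2 / (q / 2) := div_le_div_of_nonneg_left (by norm_num) (by linarith) hlam2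
    have h13 : 2 / (q / 2) = 8 * R := by
      rw [hq]
      field_simp
      norm_num
    linarith
  have h14 : R = ε / 32 * Real.sqrt N := by
    rw [hR, hc, Real.sqrt_mul (by positivity), Real.sqrt_sq (by positivity)]
  have e2 : 2 / lam * Real.exp (-(lam * NL25.GG Q)) *
      ((LE Q).card * Real.exp ((q + q ^ 2) * NL25.GG Q)) =
      2 / lam * Real.exp (3 * q ^ 2 * NL25.GG Q) * (LE Q).card := by
    rw [← h6]
    ring
  rw [e2]
  apply mul_le_mul_of_nonneg_right _ hcard.le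
  have h15 : 2 / lam * Real.exp (3 * q ^ 2 * NL25.GG Q) ≤ 8 * R * 3 :=
    mul_le_mul h11 h10 (Real.exp_pos _).le (by linarith)
  refine h15.trans ?_
  rw [h14]
  have h16 : 0 ≤ ε * Real.sqrt N := by positivity
  linarith

end Pool.GE63
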