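import Pool.Agent.NL25.Ent

set_option autoImplicit false

/-!
# GE63/AbsS: the mean of `|adj - GG|` in a tilt (for GE63/Ent.adj_abs)
-/

namespace Pool.GE63

open Pool.HB45 Pool.SC45

theorem log_le_sqrtS (K : ℝ) : ∃ N0 : ℕ, ∀ N ≥ N0, K * Real.log (N : ℝ) ≤ Real.sqrt N := by
  rcases le_or_gt K 0 with hK | hK
  · refine ⟨1, fun N hN => ?_⟩
    have h1 : (1 : ℝ) ≤ N := by exact_mod_cast hN
    exact (mul_nonpos_of_nonpos_of_nonneg hK (Real.log_nonneg h1)).trans (Real.sqrt_nonneg _)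
  · have h := (isLittleO_log_rpow_atTop (by norm_num : (0 : ℝ) < 1 / 2)).bound
      (by positivity : (0 : ℝ) < 1 / K)
    obtain ⟨x0, hx0⟩ := Filter.eventually_atTop.1 h
    refine ⟨max 1 ⌈x0⌉₊, fun N hN => ?_⟩
    have h1 : (1 : ℝ) ≤ N := by exact_mod_cast (le_max_left _ _).trans hN
    have h2 : x0 ≤ N := (Nat.le_ceil x0).trans (by exact_mod_cast (le_max_right _ _).trans hN)
    have h3 := hx0 N h2
    rw [Real.norm_of_nonneg (Real.log_nonneg h1),
      Real.norm_of_nonneg (Real.rpow_nonneg (by linarith) _), ← Real.sqrt_eq_rpow] at h3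
    calc K * Real.log N ≤ K * (1 / K * Real.sqrt N) := mul_le_mul_of_nonneg_left h3 hK.le
      _ = Real.sqrt N := by field_simp

/-- the finite sums -/
theorem abs_coreS {N : ℕ} {Q : Rel (N + 1)} {lab : Fin (N + 1) → ℕ} (hn : Nat' Q lab)
    (s t m E : ℝ) (ht : 0 ≤ t) (Hm : |NL25.mA Q lab s - NL25.GG Q| ≤ m)
    (Ht : ∑ g ∈ (LE Q).filter (fun g => NL25.GG Q + t ≤ adj Q g), Real.exp (s * NL25.Xf lab g / 2) ≤
      NL25.MG Q lab s * E) :
    ∑ g ∈ LE Q, |(adj Q g : ℝ) - NL25.GG Q| * Real.exp (s * NL25.Xf lab g / 2) ≤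
      (2 * t + 2 * N * E + m) * NL25.MG Q lab s := by
  classical
  have hM := NL25.MG_pos hn s
  set G := NL25.GG Q with hG
  have hG0 : 0 ≤ G := NL25.GG_nonneg Q
  set w : Equiv.Perm (Fin (N + 1)) → ℝ := fun g => Real.exp (s * NL25.Xf lab g / 2) with hw
  have hw0 : ∀ g, 0 < w g := fun g => Real.exp_pos _
  have hadjN : ∀ g : Equiv.Perm (Fin (N + 1)), (adj Q g : ℝ) ≤ N := by
    intro g
    have : adj Q g ≤ N := by
      unfold adj
      exact (Finset.card_le_univ _).trans (by rw [Fintype.card_fin])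
    exact_mod_cast this
  have h1 : ∀ g ∈ LE Q, |(adj Q g : ℝ) - G| * w g ≤
      2 * (t * w g + (if G + t ≤ adj Q g then (N : ℝ) * w g else 0)) - ((adj Q g : ℝ) - G) * w g := by
    intro g _
    have k1 := hadjN g
    have k2 := hw0 g
    have k3 : 0 ≤ t * w g := mul_nonneg ht k2.le
    have k4 : (0 : ℝ) ≤ N * w g := mul_nonneg (Nat.cast_nonneg _) k2.le
    rcases le_or_gt ((adj Q g : ℝ) - G) 0 with h | h
    · rw [abs_of_nonpos h]
      split_ifs
      · linarith
      · linarith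
    · rw [abs_of_pos h]
      split_ifs with h'
      · have k5 : ((adj Q g : ℝ) - G) * w g ≤ N * w g :=
          mul_le_mul_of_nonneg_right (by linarith) k2.le
        linarith
      · have k5 : ((adj Q g : ℝ) - G) * w g ≤ t * w g :=
          mul_le_mul_of_nonneg_right (by linarith) k2.le
        linarith
  have h2 := Finset.sum_le_sum h1
  rw [Finset.sum_sub_distrib, ← Finset.mul_sum, Finset.sum_add_distrib, ← Finset.mul_sum,
    ← Finset.sum_filter, ← Finset.mul_sum] at h2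
  have e1 : ∑ g ∈ LE Q, w g = NL25.MG Q lab s := rfl
  have e2 : ∑ g ∈ LE Q, ((adj Q g : ℝ) - G) * w g = (NL25.mA Q lab s - G) * NL25.MG Q lab s := by
    have e3 : ∑ g ∈ LE Q, ((adj Q g : ℝ) - G) * w g =
        ∑ g ∈ LE Q, (adj Q g : ℝ) * w g - G * ∑ g ∈ LE Q, w g := by
      rw [Finset.mul_sum, ← Finset.sum_sub_distrib]
      exact Finset.sum_congr rfl fun g _ => by ring
    rw [e3, e1, sub_mul]
    congr 1
    unfold NL25.mA
    rw [div_mul_cancel₀ _ hM.ne']
  rw [e1, e2] at h2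
  have h3 : -((NL25.mA Q lab s - G) * NL25.MG Q lab s) ≤ m * NL25.MG Q lab s := by
    have := (abs_le.1 Hm).1
    have h4 := mul_le_mul_of_nonneg_right (by linarith : -(NL25.mA Q lab s - G) ≤ m) hM.le
    linarith
  have h5 : (N : ℝ) * ∑ g ∈ (LE Q).filter (fun g => G + t ≤ adj Q g), w g ≤
      N * (NL25.MG Q lab s * E) := mul_le_mul_of_nonneg_left Ht (Nat.cast_nonneg _)
  calc ∑ g ∈ LE Q, |(adj Q g : ℝ) - G| * w g ≤ _ := h2
    _ ≤ 2 * (t * NL25.MG Q lab s + N * (NL25.MG Q lab s * E)) + m * NL25.MG Q lab s := by linarith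
    _ = (2 * t + 2 * N * E + m) * NL25.MG Q lab s := by ring

theorem adj_absS (A ε : ℝ) (hA : 0 < A) (hε : 0 < ε) : ∃ c : ℝ, 0 < c ∧ ∃ N0 : ℕ, ∀ N ≥ N0, ∀ h : ℕ,
    1 ≤ h → (h : ℝ) * Real.log N ≤ c * N → ∀ (Q : Rel (N + 1)) (κ lab : Fin (N + 1) → ℕ),
    Lev h Q κ → Nat' Q lab →
    (∀ k s : ℝ, 0 < k → k ≤ 1 / 4 → NL25.GG Q ≤ k ^ 2 * N → |s| ≤ k / 24 →
      |NL25.mA Q lab s - NL25.GG Q| ≤ 14 * k * |s| * N) →
    (∀ k s q t : ℝ, 0 < k → k ≤ 1 / 4 → NL25.GG Q ≤ k ^ 2 * N → 2 * |s| ≤ k / 24 → 0 ≤ q →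
      q ≤ 1 / 4 → 0 ≤ t →
      ∑ g ∈ (LE Q).filter (fun g => NL25.GG Q + t ≤ adj Q g), Real.exp (s * NL25.Xf lab g / 2) ≤
      NL25.MG Q lab s * Real.exp ((3 * q ^ 2 * NL25.GG Q - q * t / 2) / 2 + 9 / 2 * s ^ 2 * N)) →
    ∀ s : ℝ, |s| ≤ A * Real.sqrt (Real.log N / N) →
    ∑ g ∈ LE Q, |(adj Q g : ℝ) - NL25.GG Q| * Real.exp (s * NL25.Xf lab g / 2) ≤
      ε * Real.sqrt N * NL25.MG Q lab s := by
  set B : ℝ := 2 + 9 / 2 * A ^ 2 with hB
  have hB0 : 0 < B := by positivity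
  -- the constant
  set c : ℝ := min (1 / 16) (min ((ε / (56 * A)) ^ 2) (ε ^ 2 / (6144 * B))) with hc
  have hc0 : 0 < c := lt_min (by norm_num) (lt_min (by positivity) (by positivity))
  have hc1 : c ≤ 1 / 16 := min_le_left _ _
  have hc2 : c ≤ (ε / (56 * A)) ^ 2 := (min_le_right _ _).trans (min_le_left _ _)
  have hc3 : c ≤ ε ^ 2 / (6144 * B) := (min_le_right _ _).trans (min_le_right _ _)
  obtain ⟨N1, hN1⟩ := log_le_sqrtS (48 * A / Real.sqrt c)
  obtain ⟨N2, hN2⟩ := log_le_sqrtS (256 * B / ε)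
  refine ⟨c, hc0, max (max N1 N2) (max 3 ⌈8 / ε⌉₊), ?_⟩
  intro N hN h h1 hh Q κ lab hκ hn Hmean Htail s hs
  have hN1' := hN1 N ((le_max_left _ _).trans ((le_max_left _ _).trans hN))
  have hN2' := hN2 N ((le_max_right _ _).trans ((le_max_left _ _).trans hN))
  have hN3 : 3 ≤ N := (le_max_left _ _).trans ((le_max_right _ _).trans hN)
  have hN4 : 8 / ε ≤ N := by
    have h2 : ⌈8 / ε⌉₊ ≤ N := (le_max_right _ _).trans ((le_max_right _ _).trans hN)
    exact (Nat.le_ceil _).trans (by exact_mod_cast h2)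
  have hN3r : (3 : ℝ) ≤ N := by exact_mod_cast hN3
  have hN0 : (0 : ℝ) < N := by linarith
  have hL1 : 1 ≤ Real.log N := by
    rw [Real.le_log_iff_exp_le hN0]
    have := Real.exp_one_lt_d9
    linarith
  have hL0 : 0 < Real.log N := by linarith
  have hsqN : 0 < Real.sqrt N := Real.sqrt_pos.2 hN0
  have hsqN2 : Real.sqrt N * Real.sqrt N = N := Real.mul_self_sqrt hN0.le
  have hsqc : 0 < Real.sqrt c := Real.sqrt_pos.2 hc0
  have hsqc2 : Real.sqrt c * Real.sqrt c = c := Real.mul_self_sqrt hc0.le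
  have hG0 := NL25.GG_nonneg Q
  have hGh := NL25.GG_le hκ hn
  have hhr : (1 : ℝ) ≤ h := by exact_mod_cast h1
  -- the square of the logarithm
  set l : ℝ := Real.sqrt (Real.log N) with hl
  have hl0 : 0 < l := Real.sqrt_pos.2 hL0
  have hl2 : l * l = Real.log N := Real.mul_self_sqrt hL0.le
  have hs' : |s| ≤ A * (l / Real.sqrt N) := by
    rw [Real.sqrt_div hL0.le] at hs
    exact hs
  have hs2 : s ^ 2 * N ≤ A ^ 2 * Real.log N := by
    have h3 : |s| * |s| ≤ (A * (l / Real.sqrt N)) * (A * (l / Real.sqrt N)) :=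
      mul_le_mul hs' hs' (abs_nonneg s) (by positivity)
    have h4 : |s| * |s| = s ^ 2 := by rw [← sq, sq_abs]
    have h5 : (A * (l / Real.sqrt N)) * (A * (l / Real.sqrt N)) = A ^ 2 * Real.log N / N := by
      have h6 : (A * (l / Real.sqrt N)) * (A * (l / Real.sqrt N)) =
          A ^ 2 * (l * l) / (Real.sqrt N * Real.sqrt N) := by
        rw [div_eq_mul_inv, div_eq_mul_inv, mul_inv]
        ring
      rw [h6, hl2, hsqN2]
    rw [h4, h5, le_div_iff₀ hN0] at h3
    exact h3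
  -- `k`
  set k : ℝ := Real.sqrt c / l with hk
  have hk0 : 0 < k := div_pos hsqc hl0
  have hk2 : k ^ 2 = c / Real.log N := by
    rw [hk, div_pow, sq, sq, hsqc2, hl2]
  have hk1 : k ≤ 1 / 4 := by
    have h3 : k ^ 2 ≤ (1 / 4) ^ 2 := by
      rw [hk2]
      calc c / Real.log N ≤ c / 1 := div_le_div_of_nonneg_left hc0.le one_pos hL1
        _ ≤ (1 / 4) ^ 2 := by rw [div_one]; linarith
    exact (sq_le_sq₀ hk0.le (by norm_num)).1 h3
  have hGk : NL25.GG Q ≤ k ^ 2 * N := by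
    rw [hk2, div_mul_eq_mul_div, le_div_iff₀ hL0]
    exact (mul_le_mul_of_nonneg_right hGh hL0.le).trans hh
  have hsk : 2 * |s| ≤ k / 24 := by
    have h3 : 48 * A * Real.log N ≤ Real.sqrt c * Real.sqrt N := by
      rw [div_mul_eq_mul_div, div_le_iff₀ hsqc] at hN1'
      linarith
    have h4 : 48 * (A * (l / Real.sqrt N)) ≤ k := by
      rw [hk, le_div_iff₀ hl0]
      have e : 48 * (A * (l / Real.sqrt N)) * l = 48 * A * Real.log N / Real.sqrt N := by
        rw [← hl2]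
        ring
      rw [e, div_le_iff₀ hsqN]
      exact h3
    linarith
  have hksN : 14 * k * |s| * N ≤ ε / 4 * Real.sqrt N := by
    have h3 : Real.sqrt c ≤ ε / (56 * A) := by
      have := Real.sqrt_le_sqrt hc2
      rwa [Real.sqrt_sq (by positivity)] at this
    have h4 : k * |s| ≤ Real.sqrt c * A / Real.sqrt N := by
      have h5 : k * |s| ≤ k * (A * (l / Real.sqrt N)) := mul_le_mul_of_nonneg_left hs' hk0.le
      have h6 : k * (A * (l / Real.sqrt N)) = Real.sqrt c * A / Real.sqrt N := by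
        rw [hk]
        field_simp
      linarith
    have h7 : Real.sqrt c * A / Real.sqrt N * N = Real.sqrt c * A * Real.sqrt N := by
      rw [div_mul_eq_mul_div, div_eq_iff hsqN.ne', mul_assoc _ (Real.sqrt N), hsqN2]
    have h8 : k * |s| * N ≤ Real.sqrt c * A * Real.sqrt N := by
      rw [← h7]
      exact mul_le_mul_of_nonneg_right h4 hN0.le
    have h9 : Real.sqrt c * A ≤ ε / 56 := by
      rw [le_div_iff₀ (by positivity)] at h3 ⊢
      linarith
    have h10 : Real.sqrt c * A * Real.sqrt N ≤ ε / 56 * Real.sqrt N :=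
      mul_le_mul_of_nonneg_right h9 hsqN.le
    have e : 14 * k * |s| * N = 14 * (k * |s| * N) := by ring
    rw [e]
    linarith
  -- the tail
  set t : ℝ := ε * Real.sqrt N / 8 with ht
  have ht0 : 0 < t := by positivity
  have htail : ∃ q : ℝ, 0 ≤ q ∧ q ≤ 1 / 4 ∧
      (3 * q ^ 2 * NL25.GG Q - q * t / 2) / 2 + 9 / 2 * s ^ 2 * N ≤ -(2 * Real.log N) := by
    have hsum : 9 / 2 * s ^ 2 * N ≤ 9 / 2 * A ^ 2 * Real.log N := by
      have : 9 / 2 * (s ^ 2 * N) ≤ 9 / 2 * (A ^ 2 * Real.log N) := by linarith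
      linarith
    rcases le_or_gt t (3 * h) with h3 | h3
    · refine ⟨t / (12 * h), by positivity, ?_, ?_⟩
      · rw [div_le_iff₀ (by positivity)]
        linarith
      · have h4 : 3 * (t / (12 * h)) ^ 2 * NL25.GG Q ≤ 3 * (t / (12 * h)) ^ 2 * h :=
          mul_le_mul_of_nonneg_left hGh (by positivity)
        have h5 : 3 * (t / (12 * h)) ^ 2 * (h : ℝ) = t ^ 2 / (48 * h) := by
          field_simp
          ring
        have h6 : t / (12 * h) * t / 2 = t ^ 2 / (24 * h) := by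
          field_simp
          ring
        have h7 : t ^ 2 / (24 * h) = 2 * (t ^ 2 / (48 * h)) := by
          field_simp
          ring
        have h8 : 2 * (B * Real.log N) ≤ t ^ 2 / (48 * h) := by
          rw [le_div_iff₀ (by positivity)]
          have h9 : t ^ 2 = ε ^ 2 * N / 64 := by
            rw [ht, div_pow, mul_pow, sq (Real.sqrt N), hsqN2]
            norm_num
          have h10 : 2 * (B * Real.log N) * (48 * h) = 96 * B * (h * Real.log N) := by ring
          rw [h9, h10]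
          have h11 : c * (6144 * B) ≤ ε ^ 2 := by
            rw [le_div_iff₀ (by positivity)] at hc3
            exact hc3
          have h12 : 96 * B * (h * Real.log N) ≤ 96 * B * (c * N) :=
            mul_le_mul_of_nonneg_left hh (by positivity)
          have h13 : c * (6144 * B) * N ≤ ε ^ 2 * N := mul_le_mul_of_nonneg_right h11 hN0.le
          have h14 : 96 * B * (c * N) = c * (6144 * B) * N / 64 := by ring
          rw [h14] at h12
          linarith
        rw [h6, h7]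
        have h15 : B * Real.log N = 2 * Real.log N + 9 / 2 * A ^ 2 * Real.log N := by
          rw [hB]
          ring
        linarith
    · refine ⟨1 / 4, by norm_num, le_refl _, ?_⟩
      have h4 : B * Real.log N ≤ t / 32 := by
        rw [div_mul_eq_mul_div, div_le_iff₀ hε] at hN2'
        rw [ht]
        linarith
      have h15 : B * Real.log N = 2 * Real.log N + 9 / 2 * A ^ 2 * Real.log N := by
        rw [hB]
        ring
      have h16 : 3 * (1 / 4 : ℝ) ^ 2 * NL25.GG Q ≤ t / 16 := by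
        have : NL25.GG Q ≤ t / 3 := by linarith
        linarith
      linarith
  obtain ⟨q, hq0, hq1, hq⟩ := htail
  have hcore := abs_coreS hn s t _ _ ht0.le (Hmean k s hk0 hk1 hGk (by linarith [abs_nonneg s]))
    (Htail k s q t hk0 hk1 hGk hsk hq0 hq1 ht0.le)
  refine hcore.trans (mul_le_mul_of_nonneg_right ?_ (NL25.MG_pos hn s).le)
  have hE : Real.exp ((3 * q ^ 2 * NL25.GG Q - q * t / 2) / 2 + 9 / 2 * s ^ 2 * N) ≤ 1 / (N * N) := by
    refine (Real.exp_le_exp.2 hq).trans ?_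
    have e : Real.exp (-(2 * Real.log N)) = 1 / (N * N) := by
      rw [Real.exp_neg, two_mul, Real.exp_add, Real.exp_log hN0, one_div]
    exact e.le
  have h17 : 2 * (N : ℝ) * Real.exp ((3 * q ^ 2 * NL25.GG Q - q * t / 2) / 2 + 9 / 2 * s ^ 2 * N) ≤
      ε / 4 * Real.sqrt N := by
    have h18 : 2 * (N : ℝ) * Real.exp ((3 * q ^ 2 * NL25.GG Q - q * t / 2) / 2 + 9 / 2 * s ^ 2 * N) ≤
        2 * N * (1 / (N * N)) := mul_le_mul_of_nonneg_left hE (by positivity)
    have h19 : 2 * (N : ℝ) * (1 / (N * N)) = 2 / N := by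
      field_simp
    have h20 : 2 / (N : ℝ) ≤ ε / 4 := by
      rw [div_le_iff₀ hε] at hN4
      rw [div_le_iff₀ hN0]
      linarith
    have h21 : (1 : ℝ) ≤ Real.sqrt N := by
      rw [Real.one_le_sqrt]
      linarith
    have h22 : ε / 4 ≤ ε / 4 * Real.sqrt N := by
      have := mul_le_mul_of_nonneg_left h21 (by positivity : 0 ≤ ε / 4)
      linarith
    linarith
  have e5 : 2 * t = ε / 4 * Real.sqrt N := by rw [ht]; ring
  linarith [mul_nonneg hε.le hsqN.le]

end Pool.GE63
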