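import Pool.Agent.GE63.Defs
import Pool.Agent.NL25.Ent

set_option autoImplicit false

/-!
# GE63/AdjAbs43: the mean of `|adj - GG|` in a small tilt, from `adj_mean` and `tail_tilt`
-/

namespace Pool.GE63

open Pool.HB45 Pool.SC45

theorem GG_nonneg43 {N : ℕ} (Q : Rel (N + 1)) : 0 ≤ NL25.GG Q := by
  unfold NL25.GG
  exact div_nonneg (Finset.sum_nonneg fun g _ => Nat.cast_nonneg _) (Nat.cast_nonneg _)

theorem GG_le43 {N h : ℕ} {Q : Rel (N + 1)} {κ lab : Fin (N + 1) → ℕ} (hκ : Lev h Q κ)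
    (hn : Nat' Q lab) : NL25.GG Q ≤ h := by
  unfold NL25.GG
  rw [div_le_iff₀ (NL25.card_pos hn)]
  exact sum_adj_le hκ

theorem adj_le43 {N : ℕ} (Q : Rel (N + 1)) (g : Equiv.Perm (Fin (N + 1))) : (adj Q g : ℝ) ≤ N := by
  have : adj Q g ≤ N := by
    unfold adj
    exact (Finset.card_le_univ _).trans (by rw [Fintype.card_fin])
  exact_mod_cast this

/-- `log N ≤ δ √N` for large `N` -/
theorem log_le_sqrt43 (δ : ℝ) (hδ : 0 < δ) : ∃ N0 : ℕ, ∀ N : ℕ, N0 ≤ N →
    Real.log N ≤ δ * Real.sqrt N := by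
  have h1 := (isLittleO_log_rpow_atTop (show (0 : ℝ) < 1 / 2 by norm_num)).bound hδ
  have h2 := tendsto_natCast_atTop_atTop (R := ℝ)
  have h3 := h2.eventually h1
  obtain ⟨N0, hN0⟩ := Filter.eventually_atTop.1 h3
  refine ⟨max N0 1, fun N hN => ?_⟩
  have h4 := hN0 N ((le_max_left _ _).trans hN)
  have h5 : (1 : ℝ) ≤ N := by exact_mod_cast (le_max_right _ _).trans hN
  rw [Real.norm_of_nonneg (Real.log_nonneg h5), Real.norm_of_nonneg (by positivity),
    ← Real.sqrt_eq_rpow] at h4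
  exact h4

/-- numbers: the exponent of the tail -/
theorem num_exp43 {A ε c N L h G s : ℝ} (hA : 0 < A) (hε : 0 < ε) (hc : 0 < c)
    (hc1 : c * (6144 * (9 / 2 * A ^ 2 + 1)) ≤ ε ^ 2) (hN : 1 ≤ N) (hL : 1 ≤ L) (hh : 0 < h)
    (hhL : h * L ≤ c * N) (hG0 : 0 ≤ G) (hG : G ≤ h) (hs : s ^ 2 * N ≤ A ^ 2 * L)
    (hLN : (9 / 2 * A ^ 2 + 1) * L ≤ ε * Real.sqrt N / 256) :
    ∃ q : ℝ, 0 ≤ q ∧ q ≤ 1 / 4 ∧
      (3 * q ^ 2 * G - q * (ε * Real.sqrt N / 8) / 2) / 2 + 9 / 2 * s ^ 2 * N ≤ -L := by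
  set t := ε * Real.sqrt N / 8 with ht
  have hsq : Real.sqrt N ^ 2 = N := Real.sq_sqrt (by linarith)
  have hsp : 0 < Real.sqrt N := Real.sqrt_pos.2 (by linarith)
  have ht0 : 0 < t := by positivity
  have ht2 : t ^ 2 = ε ^ 2 * N / 64 := by
    rw [ht, div_pow, mul_pow, hsq]
    norm_num
  rcases le_or_gt t (3 * h) with h1 | h1
  · refine ⟨t / (12 * h), by positivity, ?_, ?_⟩
    · rw [div_le_iff₀ (by positivity)]
      linarith
    · have e1 : 3 * (t / (12 * h)) ^ 2 * G ≤ 3 * (t / (12 * h)) ^ 2 * h :=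
        mul_le_mul_of_nonneg_left hG (by positivity)
      have e2 : 3 * (t / (12 * h)) ^ 2 * h = t ^ 2 / (48 * h) := by
        field_simp
        ring
      have e3 : t / (12 * h) * t / 2 = 2 * (t ^ 2 / (48 * h)) := by
        field_simp
        ring
      have e4 : (9 / 2 * A ^ 2 + 1) * L ≤ t ^ 2 / (96 * h) := by
        rw [le_div_iff₀ (by positivity), ht2]
        have e5 : (9 / 2 * A ^ 2 + 1) * L * (96 * h) = 96 * (9 / 2 * A ^ 2 + 1) * (h * L) := by
          ring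
        have e6 : 96 * (9 / 2 * A ^ 2 + 1) * (h * L) ≤ 96 * (9 / 2 * A ^ 2 + 1) * (c * N) :=
          mul_le_mul_of_nonneg_left hhL (by positivity)
        have e7 : c * (6144 * (9 / 2 * A ^ 2 + 1)) * N ≤ ε ^ 2 * N :=
          mul_le_mul_of_nonneg_right hc1 (by linarith)
        rw [e5]
        linarith
      have e8 : t ^ 2 / (48 * h) = 2 * (t ^ 2 / (96 * h)) := by
        field_simp
        ring
      rw [e3]
      nlinarith
  · refine ⟨1 / 4, by norm_num, le_rfl, ?_⟩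
    have e1 : 3 * (1 / 4 : ℝ) ^ 2 * G ≤ 3 * (1 / 4 : ℝ) ^ 2 * h :=
      mul_le_mul_of_nonneg_left hG (by positivity)
    have e2 : ε * Real.sqrt N / 256 = t / 32 := by
      rw [ht]
      ring
    rw [e2] at hLN
    nlinarith

open Classical in
theorem adj_abs43
    (hmean : ∀ {N : ℕ} {Q : Rel (N + 1)} {lab : Fin (N + 1) → ℕ} (_ : Nat' Q lab) (k s : ℝ)
      (_ : 0 < k) (_ : k ≤ 1 / 4) (_ : NL25.GG Q ≤ k ^ 2 * N) (_ : |s| ≤ k / 24),
      |NL25.mA Q lab s - NL25.GG Q| ≤ 14 * k * |s| * N)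
    (htail : ∀ {N : ℕ} {Q : Rel (N + 1)} {lab : Fin (N + 1) → ℕ} (_ : Nat' Q lab) (k s q t : ℝ)
      (_ : 0 < k) (_ : k ≤ 1 / 4) (_ : NL25.GG Q ≤ k ^ 2 * N) (_ : 2 * |s| ≤ k / 24)
      (_ : 0 ≤ q) (_ : q ≤ 1 / 4) (_ : 0 ≤ t),
      ∑ g ∈ (LE Q).filter (fun g => NL25.GG Q + t ≤ adj Q g), Real.exp (s * NL25.Xf lab g / 2) ≤
        NL25.MG Q lab s * Real.exp ((3 * q ^ 2 * NL25.GG Q - q * t / 2) / 2 + 9 / 2 * s ^ 2 * N))
    (A ε : ℝ) (hA : 0 < A) (hε : 0 < ε) : ∃ c : ℝ, 0 < c ∧ ∃ N0 : ℕ, ∀ N ≥ N0, ∀ h : ℕ,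
    1 ≤ h → (h : ℝ) * Real.log N ≤ c * N → ∀ (Q : Rel (N + 1)) (κ lab : Fin (N + 1) → ℕ),
    Lev h Q κ → Nat' Q lab → ∀ s : ℝ, |s| ≤ A * Real.sqrt (Real.log N / N) →
    ∑ g ∈ LE Q, |(adj Q g : ℝ) - NL25.GG Q| * Real.exp (s * NL25.Xf lab g / 2) ≤
      ε * Real.sqrt N * NL25.MG Q lab s := by
  set B : ℝ := 9 / 2 * A ^ 2 + 1 with hB
  have hB0 : 0 < B := by positivity
  set c : ℝ := min (1 / 16) (ε ^ 2 / (6144 * B)) with hc
  have hc0 : 0 < c := lt_min (by norm_num) (by positivity)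
  have hc1 : c ≤ 1 / 16 := min_le_left _ _
  have hc2 : c * (6144 * B) ≤ ε ^ 2 := by
    have : c ≤ ε ^ 2 / (6144 * B) := min_le_right _ _
    rwa [le_div_iff₀ (by positivity)] at this
  obtain ⟨N1, hN1⟩ := log_le_sqrt43 (ε / (256 * B)) (by positivity)
  obtain ⟨N2, hN2⟩ := log_le_sqrt43 (Real.sqrt c / (48 * A)) (by
    have := Real.sqrt_pos.2 hc0
    positivity)
  obtain ⟨N3, hN3⟩ := exists_nat_ge (64 / ε ^ 2)
  refine ⟨c, hc0, max (max N1 N2) (max N3 3), fun N hN h hh1 hhL Q κ lab hκ hn s hs => ?_⟩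
  have a1 : N1 ≤ N := le_trans (le_trans (le_max_left _ _) (le_max_left _ _)) hN
  have a2 : N2 ≤ N := le_trans (le_trans (le_max_right _ _) (le_max_left _ _)) hN
  have a3 : N3 ≤ N := le_trans (le_trans (le_max_left _ _) (le_max_right _ _)) hN
  have a4 : 3 ≤ N := le_trans (le_trans (le_max_right _ _) (le_max_right _ _)) hN
  have b4 : (3 : ℝ) ≤ N := by exact_mod_cast a4
  have b1 := hN1 N a1
  have b2 := hN2 N a2
  have hNp : (0 : ℝ) < N := by linarith
  set L := Real.log N with hL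
  have hL1 : 1 ≤ L := by
    rw [hL, Real.le_log_iff_exp_le hNp]
    have := Real.exp_one_lt_d9
    linarith
  have hLp : 0 < L := by linarith
  set R := Real.sqrt N with hR
  have hR2 : R ^ 2 = N := Real.sq_sqrt hNp.le
  have hRp : 0 < R := Real.sqrt_pos.2 hNp
  have hR8 : 8 / ε ≤ R := by
    rw [hR]
    apply Real.le_sqrt_of_sq_le
    have h1 : (N3 : ℝ) ≤ N := by exact_mod_cast a3
    have h2 : (8 / ε) ^ 2 = 64 / ε ^ 2 := by
      rw [div_pow]
      norm_num
    rw [h2]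
    linarith
  have hRε : 8 ≤ ε * R := by
    rw [div_le_iff₀ hε] at hR8
    linarith
  -- the parameter `k`
  set C := Real.sqrt c with hC
  have hC2 : C ^ 2 = c := Real.sq_sqrt hc0.le
  have hCp : 0 < C := Real.sqrt_pos.2 hc0
  set l := Real.sqrt L with hl
  have hl2 : l ^ 2 = L := Real.sq_sqrt hLp.le
  have hlp : 0 < l := Real.sqrt_pos.2 hLp
  have hl1 : 1 ≤ l := by
    rw [hl]
    exact Real.one_le_sqrt.2 hL1
  set k := C / l with hk
  have hkp : 0 < k := by positivity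
  have hk4 : k ≤ 1 / 4 := by
    rw [hk, div_le_iff₀ hlp]
    have : C ≤ 1 / 4 := by
      rw [hC]
      apply Real.sqrt_le_iff.2
      constructor
      · norm_num
      · linarith
    nlinarith
  have hG0 := GG_nonneg43 Q
  have hGh := GG_le43 hκ hn
  have hhp : (0 : ℝ) < h := by
    have : (1 : ℝ) ≤ h := by exact_mod_cast hh1
    linarith
  have hGk : NL25.GG Q ≤ k ^ 2 * N := by
    refine hGh.trans ?_
    rw [hk, div_pow, hC2, hl2, div_mul_eq_mul_div, le_div_iff₀ hLp]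
    exact hhL
  have hsq : Real.sqrt (L / N) = l / R := Real.sqrt_div hLp.le _
  rw [hsq] at hs
  have hs2 : |s| * R ≤ A * l := by
    have := mul_le_mul_of_nonneg_right hs hRp.le
    have e : A * (l / R) * R = A * l := by field_simp
    linarith
  have hsk : 2 * |s| ≤ k / 24 := by
    have h1 : A * (l / R) ≤ k / 48 := by
      rw [hk, div_div, mul_div_assoc', div_le_div_iff₀ hRp (by positivity)]
      have h2 : L * (48 * A) ≤ C * R := by
        have h3 := mul_le_mul_of_nonneg_right b2 (show (0 : ℝ) ≤ 48 * A by positivity)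
        have e : C / (48 * A) * R * (48 * A) = C * R := by field_simp
        linarith
      have h4 : A * l * (l * 48) = L * (48 * A) := by
        rw [← hl2]
        ring
      linarith
    linarith
  have hsN : s ^ 2 * N ≤ A ^ 2 * L := by
    rw [← hR2, ← hl2, ← sq_abs s, ← mul_pow, ← mul_pow]
    exact pow_le_pow_left₀ (by positivity) hs2 2
  have hLN : B * L ≤ ε * R / 256 := by
    have h3 := mul_le_mul_of_nonneg_right b1 hB0.le
    have e : ε / (256 * B) * R * B = ε * R / 256 := by field_simp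
    linarith
  obtain ⟨q, hq0, hq1, hq⟩ := num_exp43 (A := A) (ε := ε) (c := c) (N := N) (L := L) (h := h)
    (G := NL25.GG Q) (s := s) hA hε hc0 hc2 (by linarith) hL1 hhp hhL hG0 hGh hsN hLN
  have hMG := NL25.MG_pos hn s
  have htl := htail hn k s q (ε * R / 8) hkp hk4 hGk hsk hq0 hq1 (by positivity)
  have hmn := hmean hn k s hkp hk4 hGk (by linarith [abs_nonneg s])
  -- the tail is at most `MG / N`
  have hT : N * ∑ g ∈ (LE Q).filter (fun g => NL25.GG Q + ε * R / 8 ≤ adj Q g),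
      Real.exp (s * NL25.Xf lab g / 2) ≤ NL25.MG Q lab s := by
    have h1 : Real.exp ((3 * q ^ 2 * NL25.GG Q - q * (ε * R / 8) / 2) / 2 + 9 / 2 * s ^ 2 * N) ≤
        Real.exp (-L) := Real.exp_le_exp.2 hq
    have h2 : Real.exp (-L) = 1 / N := by
      rw [Real.exp_neg, hL, Real.exp_log hNp, one_div]
    rw [h2] at h1
    have h3 := htl.trans (mul_le_mul_of_nonneg_left h1 hMG.le)
    have h4 := mul_le_mul_of_nonneg_left h3 hNp.le
    have e : N * (NL25.MG Q lab s * (1 / N)) = NL25.MG Q lab s := by field_simp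
    linarith
  -- pointwise
  have hpt : ∀ g ∈ LE Q, |(adj Q g : ℝ) - NL25.GG Q| * Real.exp (s * NL25.Xf lab g / 2) ≤
      2 * (ε * R / 8) * Real.exp (s * NL25.Xf lab g / 2) +
      2 * (N * (if NL25.GG Q + ε * R / 8 ≤ adj Q g then Real.exp (s * NL25.Xf lab g / 2) else 0)) -
      ((adj Q g : ℝ) * Real.exp (s * NL25.Xf lab g / 2) -
        NL25.GG Q * Real.exp (s * NL25.Xf lab g / 2)) := by
    intro g _
    have he := Real.exp_pos (s * NL25.Xf lab g / 2)
    have hN' := adj_le43 Q g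
    have hεR : 0 < ε * R := by positivity
    split_ifs with h1
    · have h2 : |(adj Q g : ℝ) - NL25.GG Q| = (adj Q g : ℝ) - NL25.GG Q :=
        abs_of_nonneg (by linarith)
      rw [h2]
      nlinarith
    · rcases le_or_gt (NL25.GG Q) (adj Q g : ℝ) with h3 | h3
      · rw [abs_of_nonneg (by linarith)]
        nlinarith
      · rw [abs_of_neg (by linarith)]
        nlinarith
  refine (Finset.sum_le_sum hpt).trans ?_
  rw [Finset.sum_sub_distrib, Finset.sum_sub_distrib, Finset.sum_add_distrib, ← Finset.mul_sum,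
    ← Finset.mul_sum, ← Finset.mul_sum, ← Finset.sum_filter, ← Finset.mul_sum]
  have hmA : ∑ g ∈ LE Q, (adj Q g : ℝ) * Real.exp (s * NL25.Xf lab g / 2) =
      NL25.mA Q lab s * NL25.MG Q lab s := by
    unfold NL25.mA
    rw [div_mul_cancel₀ _ hMG.ne']
  rw [hmA]
  have hMGe : ∑ g ∈ LE Q, Real.exp (s * NL25.Xf lab g / 2) = NL25.MG Q lab s := rfl
  rw [hMGe]
  have h5 : -(NL25.mA Q lab s - NL25.GG Q) ≤ ε * R / 2 := by
    refine (neg_le_abs _).trans (hmn.trans ?_)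
    have h6 : 14 * k * |s| * N = 14 * k * (|s| * R) * R := by
      rw [← hR2]
      ring
    have h7 : 14 * k * (|s| * R) * R ≤ 14 * k * (A * l) * R := by
      have := mul_le_mul_of_nonneg_left hs2 (show (0 : ℝ) ≤ 14 * k * R by positivity)
      linarith
    have h8 : 14 * k * (A * l) * R = 14 * (C * A) * R := by
      rw [hk]
      field_simp
    have h9 : C * A ≤ ε / 28 := by
      apply abs_le_of_sq_le_sq' _ (by positivity) |>.2
      rw [mul_pow, hC2, div_pow]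
      have h10 : c * (6144 * (9 / 2 * A ^ 2)) ≤ ε ^ 2 := by
        refine le_trans ?_ hc2
        rw [hB]
        nlinarith
      nlinarith
    rw [h6]
    refine h7.trans ?_
    rw [h8]
    nlinarith
  have h11 := mul_le_mul_of_nonneg_right h5 hMG.le
  nlinarith

end Pool.GE63
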