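import Pool.Agent.GE63.Defs

set_option autoImplicit false

/-!
# GE63/BBvolS: the volume of `BB` by Fubini
-/

open MeasureTheory

namespace Pool.GE63

open Pool.HB45 Pool.SC45

/-- the set of GE63/Mid -/
def BBS {N : ℕ} (Q : Rel (N + 1)) (M : ℕ) (v : ℝ) : Set ((Fin (N + 1) → ℝ) × (Fin M → ℝ)) :=
  {z | z.1 ∈ DD Q v ∧ (∀ i, z.1 i ≤ M) ∧ (∀ j, 0 ≤ z.2 j) ∧ ∀ i j, z.2 j + z.1 i / M ≤ 1}

theorem DD_closedS {N : ℕ} (Q : Rel (N + 1)) (v : ℝ) : IsClosed (DD Q v) := by
  have h : DD Q v = (⋂ a, {x : Fin (N + 1) → ℝ | 0 ≤ x a}) ∩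
      ⋂ a, ⋂ b, ⋂ (_ : Q a b), {x : Fin (N + 1) → ℝ | x a + v ≤ x b} := by
    ext x
    simp only [DD, Set.mem_setOf_eq, Set.mem_inter_iff, Set.mem_iInter]
  rw [h]
  refine IsClosed.inter (isClosed_iInter fun a => ?_) (isClosed_iInter fun a =>
    isClosed_iInter fun b => isClosed_iInter fun _ => ?_)
  · exact isClosed_le continuous_const (continuous_apply a)
  · exact isClosed_le ((continuous_apply a).add continuous_const) (continuous_apply b)

theorem box_closedS {N : ℕ} (c : ℝ) : IsClosed {x : Fin (N + 1) → ℝ | ∀ i, x i ≤ c} := by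
  have h : {x : Fin (N + 1) → ℝ | ∀ i, x i ≤ c} = ⋂ i, {x : Fin (N + 1) → ℝ | x i ≤ c} := by
    ext x
    simp only [Set.mem_setOf_eq, Set.mem_iInter]
  rw [h]
  exact isClosed_iInter fun i => isClosed_le (continuous_apply i) continuous_const

theorem BBS_closed {N : ℕ} (Q : Rel (N + 1)) (M : ℕ) (v : ℝ) : IsClosed (BBS Q M v) := by
  have h : BBS Q M v = (Prod.fst ⁻¹' DD Q v) ∩ ((Prod.fst ⁻¹' {x | ∀ i, x i ≤ (M : ℝ)}) ∩
      ((⋂ j, {z : (Fin (N + 1) → ℝ) × (Fin M → ℝ) | 0 ≤ z.2 j}) ∩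
      ⋂ i, ⋂ j, {z : (Fin (N + 1) → ℝ) × (Fin M → ℝ) | z.2 j + z.1 i / M ≤ 1})) := by
    ext z
    simp only [BBS, Set.mem_setOf_eq, Set.mem_inter_iff, Set.mem_iInter, Set.mem_preimage]
  rw [h]
  refine ((DD_closedS Q v).preimage continuous_fst).inter
    (((box_closedS _).preimage continuous_fst).inter
    ((isClosed_iInter fun j => ?_).inter (isClosed_iInter fun i => isClosed_iInter fun j => ?_)))
  · exact isClosed_le continuous_const ((continuous_apply j).comp continuous_snd)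
  · exact isClosed_le (((continuous_apply j).comp continuous_snd).add
      (((continuous_apply i).comp continuous_fst).div_const _)) continuous_const

theorem le_mxS {N : ℕ} (x : Fin (N + 1) → ℝ) (i : Fin (N + 1)) : x i ≤ mx x :=
  Finset.le_sup' x (Finset.mem_univ i)

theorem exists_mxS {N : ℕ} (x : Fin (N + 1) → ℝ) : ∃ i, mx x = x i := by
  obtain ⟨i, _, hi⟩ := Finset.exists_mem_eq_sup' (s := Finset.univ) Finset.univ_nonempty x
  exact ⟨i, hi⟩

theorem BBS_vol {N : ℕ} (Q : Rel (N + 1)) (M : ℕ) (hM : 1 ≤ M) (v : ℝ) :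
    volume (BBS Q M v) = ∫⁻ x in DD Q v ∩ {x | ∀ i, x i ≤ M},
      ENNReal.ofReal ((1 - mx x / M) ^ M) := by
  have hM0 : (0 : ℝ) < M := by exact_mod_cast hM
  have hmeas : MeasurableSet (DD Q v ∩ {x | ∀ i, x i ≤ (M : ℝ)}) :=
    ((DD_closedS Q v).inter (box_closedS _)).measurableSet
  rw [Measure.volume_eq_prod, Measure.prod_apply (BBS_closed Q M v).measurableSet,
    ← lintegral_indicator hmeas]
  congr 1
  funext x
  by_cases hx : x ∈ DD Q v ∩ {x | ∀ i, x i ≤ (M : ℝ)}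
  · rw [Set.indicator_of_mem hx]
    have h0 : 0 ≤ 1 - mx x / M := by
      obtain ⟨i, hi⟩ := exists_mxS x
      have h1 : x i ≤ M := hx.2 i
      rw [hi, sub_nonneg, div_le_one hM0]
      exact h1
    have hsec : Prod.mk x ⁻¹' BBS Q M v =
        Set.Icc (0 : Fin M → ℝ) (fun _ => 1 - mx x / M) := by
      ext u
      simp only [Set.mem_preimage, BBS, Set.mem_setOf_eq, Set.mem_Icc, Pi.le_def, Pi.zero_apply]
      constructor
      · rintro ⟨_, _, h3, h4⟩
        refine ⟨h3, fun j => ?_⟩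
        obtain ⟨i, hi⟩ := exists_mxS x
        have := h4 i j
        rw [hi]
        linarith
      · rintro ⟨h3, h4⟩
        refine ⟨hx.1, hx.2, h3, fun i j => ?_⟩
        have h5 := h4 j
        have h6 : x i / M ≤ mx x / M := div_le_div_of_nonneg_right (le_mxS x i) hM0.le
        linarith
    rw [hsec, Real.volume_Icc_pi]
    simp only [Pi.zero_apply, sub_zero, Finset.prod_const, Finset.card_univ, Fintype.card_fin]
    rw [ENNReal.ofReal_pow h0]
  · rw [Set.indicator_of_notMem hx]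
    have hsec : Prod.mk x ⁻¹' BBS Q M v = ∅ := by
      ext u
      simp only [Set.mem_preimage, BBS, Set.mem_setOf_eq, Set.mem_empty_iff_false, iff_false]
      rintro ⟨h1, h2, _, _⟩
      exact hx ⟨h1, h2⟩
    rw [hsec, measure_empty]

end Pool.GE63
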