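import Pool.Agent.GE63.Defs

set_option autoImplicit false

/-!
# GE63/Bad4S: windows of four letters with a comparable pair
-/

namespace Pool.GE63

open Pool.HB45 Pool.SC45

open Classical in
private theorem shift_card {M N : ℕ} (S : Finset (Fin M)) (e : ℕ) :
    (Finset.univ.filter fun o : Fin (N + 1) => ∃ p ∈ S, p.val = o.val + e).card ≤ S.card := by
  have h1 : ((Finset.univ.filter fun o : Fin (N + 1) => ∃ p ∈ S, p.val = o.val + e).image
      Fin.val).card = (Finset.univ.filter fun o : Fin (N + 1) => ∃ p ∈ S, p.val = o.val + e).card :=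
    Finset.card_image_of_injective _ Fin.val_injective
  rw [← h1]
  refine (Finset.card_le_card ?_).trans (Finset.card_image_le (s := S) (f := fun p => p.val - e))
  intro n hn
  simp only [Finset.mem_image, Finset.mem_filter, Finset.mem_univ, true_and] at hn ⊢
  obtain ⟨o, ⟨p, hp, hpo⟩, rfl⟩ := hn
  exact ⟨p, hp, by omega⟩

open Classical in
/-- positions of minimal comparable intervals of length `d` -/
noncomputable def AAset {N : ℕ} (Q : Rel (N + 1)) (d : ℕ) (g : Equiv.Perm (Fin (N + 1))) :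
    Finset (Fin (N + 1)) :=
  Finset.univ.filter fun i : Fin (N + 1) => ∃ h : i.val + d < N + 1, Q (g i) (g ⟨i.val + d, h⟩) ∧
    ∀ k l : Fin (N + 1), i ≤ k → k < l → l.val ≤ i.val + d → Q (g k) (g l) →
      k = i ∧ l.val = i.val + d

theorem AA_eq {N : ℕ} (Q : Rel (N + 1)) (d : ℕ) (g : Equiv.Perm (Fin (N + 1))) :
    AA Q d g = (AAset Q d g).card := rfl

/-- a minimal comparable interval in a window -/
theorem min_pair {N : ℕ} {Q : Rel (N + 1)} (g : Equiv.Perm (Fin (N + 1))) (a b : ℕ)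
    (h : ∃ i j : Fin (N + 1), a ≤ i.val ∧ i < j ∧ j.val ≤ b ∧ Q (g i) (g j)) :
    ∃ i : Fin (N + 1), ∃ d : ℕ, 1 ≤ d ∧ a ≤ i.val ∧ i.val + d ≤ b ∧ i ∈ AAset Q d g := by
  classical
  have hex : ∃ d : ℕ, ∃ i j : Fin (N + 1), a ≤ i.val ∧ i.val + d = j.val ∧ 1 ≤ d ∧ j.val ≤ b ∧
      Q (g i) (g j) := by
    obtain ⟨i, j, h1, h2, h3, h4⟩ := h
    have h2' : i.val < j.val := h2
    exact ⟨j.val - i.val, i, j, h1, by omega, by omega, h3, h4⟩
  obtain ⟨i, j, h1, h2, h3, h4, h5⟩ := Nat.find_spec hex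
  have hmin := fun m (hm : m < Nat.find hex) => Nat.find_min hex hm
  set d := Nat.find hex with hd
  refine ⟨i, d, h3, h1, by omega, ?_⟩
  unfold AAset
  rw [Finset.mem_filter]
  have hj := j.isLt
  have hij : (⟨i.val + d, by omega⟩ : Fin (N + 1)) = j := Fin.ext h2
  refine ⟨Finset.mem_univ _, by omega, by rw [hij]; exact h5, ?_⟩
  intro k l hk hkl hl hQ
  have hk' : i.val ≤ k.val := hk
  have hkl' : k.val < l.val := hkl
  by_contra hne
  have h6 : l.val - k.val < d := by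
    by_contra h7
    apply hne
    constructor
    · exact Fin.ext (by omega)
    · omega
  exact hmin (l.val - k.val) h6 ⟨k, l, by omega, by omega, by omega, by omega, hQ⟩

theorem AAset_one {N : ℕ} {Q : Rel (N + 1)} {g : Equiv.Perm (Fin (N + 1))} {i : Fin (N + 1)}
    (h : i ∈ AAset Q 1 g) : ∃ p ∈ adjs Q g, p.val = i.val := by
  classical
  unfold AAset at h
  rw [Finset.mem_filter] at h
  obtain ⟨-, h1, h2, -⟩ := h
  refine ⟨⟨i.val, by omega⟩, ?_, rfl⟩
  unfold adjs
  rw [Finset.mem_filter]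
  exact ⟨Finset.mem_univ _, h2⟩

open Classical in
/-- the non-antichain windows `{o, …, o + 3}` -/
theorem bad4_leS {N : ℕ} {Q : Rel (N + 1)} (g : Equiv.Perm (Fin (N + 1))) :
    ((Finset.univ.filter fun o : Fin (N + 1) => ∃ h : o.val + 3 < N + 1,
      ∃ i j : Fin (N + 1), o ≤ i ∧ i < j ∧ j.val ≤ o.val + 3 ∧ Q (g i) (g j)).card : ℝ) ≤
      3 * adj Q g + 2 * AA Q 2 g + AA Q 3 g := by
  have hsub : (Finset.univ.filter fun o : Fin (N + 1) => ∃ h : o.val + 3 < N + 1,
      ∃ i j : Fin (N + 1), o ≤ i ∧ i < j ∧ j.val ≤ o.val + 3 ∧ Q (g i) (g j)) ⊆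
      ((((((Finset.univ.filter fun o : Fin (N + 1) => ∃ p ∈ adjs Q g, p.val = o.val + 0) ∪
      (Finset.univ.filter fun o : Fin (N + 1) => ∃ p ∈ adjs Q g, p.val = o.val + 1)) ∪
      (Finset.univ.filter fun o : Fin (N + 1) => ∃ p ∈ adjs Q g, p.val = o.val + 2)) ∪
      (Finset.univ.filter fun o : Fin (N + 1) => ∃ p ∈ AAset Q 2 g, p.val = o.val + 0)) ∪
      (Finset.univ.filter fun o : Fin (N + 1) => ∃ p ∈ AAset Q 2 g, p.val = o.val + 1)) ∪
      (Finset.univ.filter fun o : Fin (N + 1) => ∃ p ∈ AAset Q 3 g, p.val = o.val + 0)) := by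
    intro o ho
    rw [Finset.mem_filter] at ho
    obtain ⟨-, h3, i, j, h4, h5, h6, h7⟩ := ho
    obtain ⟨i, d, hd, hi, hid, hm⟩ := min_pair g o.val (o.val + 3) ⟨i, j, h4, h5, h6, h7⟩
    simp only [Finset.mem_union, Finset.mem_filter, Finset.mem_univ, true_and]
    have hd3 : d ≤ 3 := by omega
    rcases (show d = 1 ∨ d = 2 ∨ d = 3 by omega) with rfl | rfl | rfl
    · obtain ⟨p, hp, hpi⟩ := AAset_one hm
      rcases (show i.val = o.val ∨ i.val = o.val + 1 ∨ i.val = o.val + 2 by omega) with h | h | h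
      · exact Or.inl (Or.inl (Or.inl (Or.inl (Or.inl ⟨p, hp, by omega⟩))))
      · exact Or.inl (Or.inl (Or.inl (Or.inl (Or.inr ⟨p, hp, by omega⟩))))
      · exact Or.inl (Or.inl (Or.inl (Or.inr ⟨p, hp, by omega⟩)))
    · rcases (show i.val = o.val ∨ i.val = o.val + 1 by omega) with h | h
      · exact Or.inl (Or.inl (Or.inr ⟨i, hm, by omega⟩))
      · exact Or.inl (Or.inr ⟨i, hm, by omega⟩)
    · exact Or.inr ⟨i, hm, by omega⟩
  have h1 := Finset.card_le_card hsub
  have a0 := shift_card (N := N) (adjs Q g) 0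
  have a1 := shift_card (N := N) (adjs Q g) 1
  have a2 := shift_card (N := N) (adjs Q g) 2
  have b0 := shift_card (N := N) (AAset Q 2 g) 0
  have b1 := shift_card (N := N) (AAset Q 2 g) 1
  have c0 := shift_card (N := N) (AAset Q 3 g) 0
  have h2 : (Finset.univ.filter fun o : Fin (N + 1) => ∃ h : o.val + 3 < N + 1,
      ∃ i j : Fin (N + 1), o ≤ i ∧ i < j ∧ j.val ≤ o.val + 3 ∧ Q (g i) (g j)).card ≤
      (((((adjs Q g).card + (adjs Q g).card) + (adjs Q g).card) + (AAset Q 2 g).card) +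
        (AAset Q 2 g).card) + (AAset Q 3 g).card := by
    refine h1.trans ((Finset.card_union_le _ _).trans (Nat.add_le_add ?_ c0))
    refine (Finset.card_union_le _ _).trans (Nat.add_le_add ?_ b1)
    refine (Finset.card_union_le _ _).trans (Nat.add_le_add ?_ b0)
    refine (Finset.card_union_le _ _).trans (Nat.add_le_add ?_ a2)
    exact (Finset.card_union_le _ _).trans (Nat.add_le_add a0 a1)
  have h3 : ((Finset.univ.filter fun o : Fin (N + 1) => ∃ h : o.val + 3 < N + 1,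
      ∃ i j : Fin (N + 1), o ≤ i ∧ i < j ∧ j.val ≤ o.val + 3 ∧ Q (g i) (g j)).card : ℝ) ≤
      (((((adjs Q g).card + (adjs Q g).card) + (adjs Q g).card) + (AAset Q 2 g).card) +
        (AAset Q 2 g).card : ℝ) + (AAset Q 3 g).card := by exact_mod_cast h2
  rw [AA_eq, AA_eq]
  unfold adj
  linarith

end Pool.GE63
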