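import Pool.Agent.SC45.Defs

set_option autoImplicit false

/-!
# GE63/Defs: Brunn-Minkowski and the number of comparable neighbours (definitions)

`N + 1` letters, `Q` transitive, `LE Q` linear extensions, `adj Q g` number of comparable
neighbours, `GG Q` its mean. Paper proof: note 3547 (B), (E) on MP_dcdbc5_co.
-/

open MeasureTheory

namespace Pool.GE63

open Pool.HB45 Pool.SC45

/-- mean number of comparable neighbours -/
noncomputable def GG {N : ℕ} (Q : Rel (N + 1)) : ℝ :=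
  (∑ g ∈ LE Q, (adj Q g : ℝ)) / ((LE Q).card : ℝ)

/-- the largest coordinate -/
noncomputable def mx {N : ℕ} (x : Fin (N + 1) → ℝ) : ℝ :=
  Finset.univ.sup' Finset.univ_nonempty x

/-- `x ≥ 0`, `x b ≥ x a + v` for `Q a b` -/
def DD {N : ℕ} (Q : Rel (N + 1)) (v : ℝ) : Set (Fin (N + 1) → ℝ) :=
  {x | (∀ a, 0 ≤ x a) ∧ ∀ a b, Q a b → x a + v ≤ x b}

/-- `∫_(DD Q v) e^(-max x) dx` -/
noncomputable def Z {N : ℕ} (Q : Rel (N + 1)) (v : ℝ) : ENNReal :=
  ∫⁻ x in DD Q v, ENNReal.ofReal (Real.exp (-(mx x)))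

/-- the points whose coordinates have the (strict, positive) order `g`, with spacings `> v` at the
positions in `S` and `≤ v` at the positions in `T` -/
def OR {N : ℕ} (g : Equiv.Perm (Fin (N + 1))) (v : ℝ) (S T : Finset (Fin N)) :
    Set (Fin (N + 1) → ℝ) :=
  {x | 0 < x (g 0) ∧ (∀ p : Fin N, x (g p.castSucc) < x (g p.succ)) ∧
    (∀ p ∈ S, v < x (g p.succ) - x (g p.castSucc)) ∧
    ∀ p ∈ T, x (g p.succ) - x (g p.castSucc) ≤ v}

/-- the integral over one order -/
noncomputable def I0 (N : ℕ) : ENNReal :=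
  ∫⁻ x in OR (1 : Equiv.Perm (Fin (N + 1))) 0 ∅ ∅, ENNReal.ofReal (Real.exp (-(mx x)))

/-- every comparable pair of positions `i < j` has a point of `S` in `[i, j)` -/
def Good {N : ℕ} (Q : Rel (N + 1)) (g : Equiv.Perm (Fin (N + 1))) (S : Finset (Fin N)) : Prop :=
  ∀ i j : Fin (N + 1), i < j → Q (g i) (g j) → ∃ p ∈ S, i.val ≤ p.val ∧ p.val < j.val

open Classical in
/-- sets of comparable neighbour positions, no two of them neighbouring -/
noncomputable def Mat {N : ℕ} (Q : Rel (N + 1)) (g : Equiv.Perm (Fin (N + 1))) :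
    Finset (Finset (Fin N)) :=
  (adjs Q g).powerset.filter fun T => ∀ p ∈ T, ∀ p' ∈ T, p.val + 1 ≠ p'.val

open Classical in
/-- number of minimal comparable intervals of length `d`: positions `i` with `g i <_Q g (i + d)`
the only comparable pair inside `[i, i + d]` -/
noncomputable def AA {N : ℕ} (Q : Rel (N + 1)) (d : ℕ) (g : Equiv.Perm (Fin (N + 1))) : ℕ :=
  (Finset.univ.filter fun i : Fin (N + 1) => ∃ h : i.val + d < N + 1, Q (g i) (g ⟨i.val + d, h⟩) ∧
    ∀ k l : Fin (N + 1), i ≤ k → k < l → l.val ≤ i.val + d → Q (g k) (g l) →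
      k = i ∧ l.val = i.val + d).card

/-- `X = N - 2 des` -/
noncomputable def XX {N : ℕ} (lab : Fin (N + 1) → ℕ) (g : Equiv.Perm (Fin (N + 1))) : ℝ :=
  (N : ℝ) - 2 * (des lab g : ℝ)

/-- `∑_g F g e^(s X/2)` -/
noncomputable def SS {N : ℕ} (Q : Rel (N + 1)) (lab : Fin (N + 1) → ℕ) (s : ℝ)
    (F : Equiv.Perm (Fin (N + 1)) → ℝ) : ℝ :=
  ∑ g ∈ LE Q, F g * Real.exp (s * XX lab g / 2)

end Pool.GE63
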