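import Pool.Agent.GE63.AbsS

set_option autoImplicit false

/-!
# GE63/MAleS: the mean of `adj` in a tilt is at most `h + √N` (for GE63/Ent.mA_le)
-/

namespace Pool.GE63

open Pool.HB45 Pool.SC45

theorem mA_leS {A : ℝ} (hA : 0 < A) : ∃ c : ℝ, 0 < c ∧ ∃ N0 : ℕ, ∀ N ≥ N0, ∀ h : ℕ,
    1 ≤ h → (h : ℝ) * Real.log N ≤ c * N → ∀ (Q : Rel (N + 1)) (κ lab : Fin (N + 1) → ℕ),
    Lev h Q κ → Nat' Q lab →
    (∀ k s : ℝ, 0 < k → k ≤ 1 / 4 → NL25.GG Q ≤ k ^ 2 * N → |s| ≤ k / 24 →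
      |NL25.mA Q lab s - NL25.GG Q| ≤ 14 * k * |s| * N) →
    ∀ s : ℝ, |s| ≤ A * Real.sqrt (Real.log N / N) →
    ∑ g ∈ LE Q, (adj Q g : ℝ) * Real.exp (s * NL25.Xf lab g / 2) ≤
      (h + Real.sqrt N) * NL25.MG Q lab s := by
  set c : ℝ := min (1 / 16) ((1 / (14 * A)) ^ 2) with hc
  have hc0 : 0 < c := lt_min (by norm_num) (by positivity)
  have hc1 : c ≤ 1 / 16 := min_le_left _ _
  have hc2 : c ≤ (1 / (14 * A)) ^ 2 := min_le_right _ _
  obtain ⟨N1, hN1⟩ := log_le_sqrtS (24 * A / Real.sqrt c)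
  refine ⟨c, hc0, max N1 3, ?_⟩
  intro N hN h h1 hh Q κ lab hκ hn Hmean s hs
  have hN1' := hN1 N ((le_max_left _ _).trans hN)
  have hN3 : 3 ≤ N := (le_max_right _ _).trans hN
  have hN3r : (3 : ℝ) ≤ N := by exact_mod_cast hN3
  have hN0 : (0 : ℝ) < N := by linarith
  have hL1 : 1 ≤ Real.log N := by
    rw [Real.le_log_iff_exp_le hN0]
    have := Real.exp_one_lt_d9
    linarith
  have hL0 : 0 < Real.log N := by linarith
  have hsqN : 0 < Real.sqrt N := Real.sqrt_pos.2 hN0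
  have hsqN2 : Real.sqrt N * Real.sqrt N = N := Real.mul_self_sqrt hN0.le
  have hsqc : 0 < Real.sqrt c := Real.sqrt_pos.2 hc0
  have hsqc2 : Real.sqrt c * Real.sqrt c = c := Real.mul_self_sqrt hc0.le
  have hG0 := NL25.GG_nonneg Q
  have hGh := NL25.GG_le hκ hn
  set l : ℝ := Real.sqrt (Real.log N) with hl
  have hl0 : 0 < l := Real.sqrt_pos.2 hL0
  have hl2 : l * l = Real.log N := Real.mul_self_sqrt hL0.le
  have hs' : |s| ≤ A * (l / Real.sqrt N) := by
    rw [Real.sqrt_div hL0.le] at hs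
    exact hs
  set k : ℝ := Real.sqrt c / l with hk
  have hk0 : 0 < k := div_pos hsqc hl0
  have hk2 : k ^ 2 = c / Real.log N := by
    rw [hk, div_pow, sq, sq, hsqc2, hl2]
  have hk1 : k ≤ 1 / 4 := by
    have h3 : k ^ 2 ≤ (1 / 4) ^ 2 := by
      rw [hk2]
      calc c / Real.log N ≤ c / 1 := div_le_div_of_nonneg_left hc0.le one_pos hL1
        _ ≤ (1 / 4) ^ 2 := by rw [div_one]; linarith
    exact (sq_le_sq₀ hk0.le (by norm_num)).1 h3
  have hGk : NL25.GG Q ≤ k ^ 2 * N := by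
    rw [hk2, div_mul_eq_mul_div, le_div_iff₀ hL0]
    exact (mul_le_mul_of_nonneg_right hGh hL0.le).trans hh
  have hsk : |s| ≤ k / 24 := by
    have h3 : 24 * A * Real.log N ≤ Real.sqrt c * Real.sqrt N := by
      rw [div_mul_eq_mul_div, div_le_iff₀ hsqc] at hN1'
      linarith
    have h4 : 24 * (A * (l / Real.sqrt N)) ≤ k := by
      rw [hk, le_div_iff₀ hl0]
      have e : 24 * (A * (l / Real.sqrt N)) * l = 24 * A * Real.log N / Real.sqrt N := by
        rw [← hl2]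
        ring
      rw [e, div_le_iff₀ hsqN]
      exact h3
    linarith
  have hksN : 14 * k * |s| * N ≤ Real.sqrt N := by
    have h3 : Real.sqrt c ≤ 1 / (14 * A) := by
      have := Real.sqrt_le_sqrt hc2
      rwa [Real.sqrt_sq (by positivity)] at this
    have h4 : k * |s| ≤ Real.sqrt c * A / Real.sqrt N := by
      have h5 : k * |s| ≤ k * (A * (l / Real.sqrt N)) := mul_le_mul_of_nonneg_left hs' hk0.le
      have h6 : k * (A * (l / Real.sqrt N)) = Real.sqrt c * A / Real.sqrt N := by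
        rw [hk]
        field_simp
      linarith
    have h7 : Real.sqrt c * A / Real.sqrt N * N = Real.sqrt c * A * Real.sqrt N := by
      rw [div_mul_eq_mul_div, div_eq_iff hsqN.ne', mul_assoc _ (Real.sqrt N), hsqN2]
    have h8 : k * |s| * N ≤ Real.sqrt c * A * Real.sqrt N := by
      rw [← h7]
      exact mul_le_mul_of_nonneg_right h4 hN0.le
    have h9 : Real.sqrt c * A ≤ 1 / 14 := by
      rw [le_div_iff₀ (by positivity)] at h3 ⊢
      linarith
    have h10 : Real.sqrt c * A * Real.sqrt N ≤ 1 / 14 * Real.sqrt N :=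
      mul_le_mul_of_nonneg_right h9 hsqN.le
    have e : 14 * k * |s| * N = 14 * (k * |s| * N) := by ring
    rw [e]
    linarith
  have hM := NL25.MG_pos hn s
  have h11 := (abs_le.1 (Hmean k s hk0 hk1 hGk hsk)).2
  have h12 : NL25.mA Q lab s ≤ h + Real.sqrt N := by linarith
  unfold NL25.mA at h12
  rwa [div_le_iff₀ hM] at h12

end Pool.GE63
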