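import Pool.Agent.GE63.Defs

set_option autoImplicit false

/-!
# GE63/MoveS: proof of `move`

Fixed `i`: `g' = g ∘ ρ`, `ρ (i+1) = i + d`, `ρ k = k - 1` for `i + 2 ≤ k ≤ i + d`, other positions fixed.
-/

namespace Pool.GE63

open Pool.HB45 Pool.SC45

/-- the move -/
def mr (i d k : ℕ) : ℕ := if k = i + 1 then i + d else if i + 2 ≤ k ∧ k ≤ i + d then k - 1 else k

/-- its inverse -/
def mi (i d k : ℕ) : ℕ := if k = i + d then i + 1 else if i + 1 ≤ k ∧ k < i + d then k + 1 else k

theorem mr_lt {i d k n : ℕ} (h : i + d < n) (hk : k < n) : mr i d k < n := by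
  unfold mr
  split_ifs <;> omega

theorem mi_lt {i d k n : ℕ} (hd : 2 ≤ d) (h : i + d < n) (hk : k < n) : mi i d k < n := by
  unfold mi
  split_ifs <;> omega

theorem mi_mr {i d : ℕ} (hd : 2 ≤ d) (k : ℕ) : mi i d (mr i d k) = k := by
  unfold mi mr
  split_ifs <;> omega

theorem mr_mi {i d : ℕ} (hd : 2 ≤ d) (k : ℕ) : mr i d (mi i d k) = k := by
  unfold mi mr
  split_ifs <;> omega

/-- the move as a permutation of the positions -/
def mp {N : ℕ} (i d : ℕ) (hd : 2 ≤ d) (h : i + d < N + 1) : Equiv.Perm (Fin (N + 1)) where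
  toFun k := ⟨mr i d k.val, mr_lt h k.isLt⟩
  invFun k := ⟨mi i d k.val, mi_lt hd h k.isLt⟩
  left_inv k := Fin.ext (mi_mr hd k.val)
  right_inv k := Fin.ext (mr_mi hd k.val)

theorem three_le {N : ℕ} (a b c : ℕ) :
    ((Finset.univ : Finset (Fin N)).filter (fun p => p.val = a ∨ p.val = b ∨ p.val = c)).card ≤ 3 := by
  have h1 : (((Finset.univ : Finset (Fin N)).filter
      (fun p => p.val = a ∨ p.val = b ∨ p.val = c)).image Fin.val) ⊆ ({a, b, c} : Finset ℕ) := by
    intro k hk
    rw [Finset.mem_image] at hk
    obtain ⟨p, hp, rfl⟩ := hk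
    rw [Finset.mem_filter] at hp
    simp only [Finset.mem_insert, Finset.mem_singleton]
    exact hp.2
  have h2 := Finset.card_le_card h1
  rw [Finset.card_image_of_injective _ Fin.val_injective] at h2
  exact h2.trans Finset.card_le_three

theorem des_le_move {N : ℕ} (lab : Fin (N + 1) → ℕ) (g : Equiv.Perm (Fin (N + 1))) (i d : ℕ)
    (hd : 2 ≤ d) (h : i + d < N + 1) :
    des lab g ≤ des lab ((mp i d hd h).trans g) + 3 := by
  classical
  unfold des
  set D := (Finset.univ : Finset (Fin N)).filter fun p => lab (g p.succ) < lab (g p.castSucc) with hD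
  set E := (Finset.univ : Finset (Fin N)).filter (fun p => p.val = i ∨ p.val = i + d - 1 ∨ p.val = i + d)
    with hE
  have h1 : (D \ E).card ≤ ((Finset.univ : Finset (Fin N)).filter fun p =>
      lab (((mp i d hd h).trans g) p.succ) < lab (((mp i d hd h).trans g) p.castSucc)).card := by
    refine Finset.card_le_card_of_injOn
      (fun p => if hp : i < p.val ∧ p.val < i + d - 1 then ⟨p.val + 1, by omega⟩ else p) ?_ ?_
    · intro p hp
      rw [Finset.mem_coe, Finset.mem_sdiff, hD, hE, Finset.mem_filter, Finset.mem_filter] at hp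
      obtain ⟨⟨-, hp1⟩, hp2⟩ := hp
      rw [Finset.mem_coe, Finset.mem_filter]
      refine ⟨Finset.mem_univ _, ?_⟩
      have hp3 : ¬ (p.val = i ∨ p.val = i + d - 1 ∨ p.val = i + d) := fun h' => hp2 ⟨Finset.mem_univ _, h'⟩
      have e1 : ∀ k : Fin (N + 1), ((mp i d hd h).trans g) k = g ⟨mr i d k.val, mr_lt h k.isLt⟩ :=
        fun _ => rfl
      rw [e1, e1]
      by_cases hp4 : i < p.val ∧ p.val < i + d - 1
      · simp only [dif_pos hp4]
        have e2 : (⟨mr i d (Fin.succ ⟨p.val + 1, by omega⟩ : Fin (N + 1)).val, mr_lt h (Fin.isLt _)⟩ :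
            Fin (N + 1)) = p.succ := by
          apply Fin.ext
          simp only [Fin.val_succ]
          unfold mr
          split_ifs <;> omega
        have e3 : (⟨mr i d (Fin.castSucc ⟨p.val + 1, by omega⟩ : Fin (N + 1)).val, mr_lt h (Fin.isLt _)⟩ :
            Fin (N + 1)) = p.castSucc := by
          apply Fin.ext
          simp only [Fin.val_castSucc]
          unfold mr
          split_ifs <;> omega
        rw [e2, e3]
        exact hp1
      · simp only [dif_neg hp4]
        have e2 : (⟨mr i d p.succ.val, mr_lt h (Fin.isLt _)⟩ : Fin (N + 1)) = p.succ := by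
          apply Fin.ext
          simp only [Fin.val_succ]
          unfold mr
          split_ifs <;> omega
        have e3 : (⟨mr i d p.castSucc.val, mr_lt h (Fin.isLt _)⟩ : Fin (N + 1)) = p.castSucc := by
          apply Fin.ext
          simp only [Fin.val_castSucc]
          unfold mr
          split_ifs <;> omega
        rw [e2, e3]
        exact hp1
    · intro p hp q hq hpq
      rw [Finset.mem_coe, Finset.mem_sdiff] at hp hq
      have hp3 : ¬ (p.val = i ∨ p.val = i + d - 1 ∨ p.val = i + d) := fun h' =>
        hp.2 (Finset.mem_filter.mpr ⟨Finset.mem_univ _, h'⟩)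
      have hq3 : ¬ (q.val = i ∨ q.val = i + d - 1 ∨ q.val = i + d) := fun h' =>
        hq.2 (Finset.mem_filter.mpr ⟨Finset.mem_univ _, h'⟩)
      have hv := congrArg Fin.val hpq
      apply Fin.ext
      dsimp only at hv
      split_ifs at hv <;> (try simp only at hv) <;> omega
  have h2 : E.card ≤ 3 := three_le _ _ _
  have h3 : D.card ≤ (D \ E).card + E.card := Finset.card_le_card_sdiff_add_card
  omega

theorem des_move_le {N : ℕ} (lab : Fin (N + 1) → ℕ) (g : Equiv.Perm (Fin (N + 1))) (i d : ℕ)
    (hd : 2 ≤ d) (h : i + d < N + 1) :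
    des lab ((mp i d hd h).trans g) ≤ des lab g + 3 := by
  classical
  unfold des
  set D := (Finset.univ : Finset (Fin N)).filter fun p =>
    lab (((mp i d hd h).trans g) p.succ) < lab (((mp i d hd h).trans g) p.castSucc) with hD
  set E := (Finset.univ : Finset (Fin N)).filter (fun p => p.val = i ∨ p.val = i + 1 ∨ p.val = i + d)
    with hE
  have h1 : (D \ E).card ≤ ((Finset.univ : Finset (Fin N)).filter fun p =>
      lab (g p.succ) < lab (g p.castSucc)).card := by
    refine Finset.card_le_card_of_injOn
      (fun p => if hp : i + 1 < p.val ∧ p.val < i + d then ⟨p.val - 1, by omega⟩ else p) ?_ ?_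
    · intro p hp
      rw [Finset.mem_coe, Finset.mem_sdiff, hD, hE, Finset.mem_filter, Finset.mem_filter] at hp
      obtain ⟨⟨-, hp1⟩, hp2⟩ := hp
      rw [Finset.mem_coe, Finset.mem_filter]
      refine ⟨Finset.mem_univ _, ?_⟩
      have hp3 : ¬ (p.val = i ∨ p.val = i + 1 ∨ p.val = i + d) := fun h' => hp2 ⟨Finset.mem_univ _, h'⟩
      have e1 : ∀ k : Fin (N + 1), ((mp i d hd h).trans g) k = g ⟨mr i d k.val, mr_lt h k.isLt⟩ :=
        fun _ => rfl
      rw [e1, e1] at hp1
      by_cases hp4 : i + 1 < p.val ∧ p.val < i + d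
      · simp only [dif_pos hp4]
        have e2 : (⟨mr i d p.succ.val, mr_lt h (Fin.isLt _)⟩ : Fin (N + 1)) =
            Fin.succ ⟨p.val - 1, by omega⟩ := by
          apply Fin.ext
          simp only [Fin.val_succ]
          unfold mr
          split_ifs <;> omega
        have e3 : (⟨mr i d p.castSucc.val, mr_lt h (Fin.isLt _)⟩ : Fin (N + 1)) =
            Fin.castSucc ⟨p.val - 1, by omega⟩ := by
          apply Fin.ext
          simp only [Fin.val_castSucc]
          unfold mr
          split_ifs <;> omega
        rw [e2, e3] at hp1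
        exact hp1
      · simp only [dif_neg hp4]
        have e2 : (⟨mr i d p.succ.val, mr_lt h (Fin.isLt _)⟩ : Fin (N + 1)) = p.succ := by
          apply Fin.ext
          simp only [Fin.val_succ]
          unfold mr
          split_ifs <;> omega
        have e3 : (⟨mr i d p.castSucc.val, mr_lt h (Fin.isLt _)⟩ : Fin (N + 1)) = p.castSucc := by
          apply Fin.ext
          simp only [Fin.val_castSucc]
          unfold mr
          split_ifs <;> omega
        rw [e2, e3] at hp1
        exact hp1
    · intro p hp q hq hpq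
      rw [Finset.mem_coe, Finset.mem_sdiff] at hp hq
      have hp3 : ¬ (p.val = i ∨ p.val = i + 1 ∨ p.val = i + d) := fun h' =>
        hp.2 (Finset.mem_filter.mpr ⟨Finset.mem_univ _, h'⟩)
      have hq3 : ¬ (q.val = i ∨ q.val = i + 1 ∨ q.val = i + d) := fun h' =>
        hq.2 (Finset.mem_filter.mpr ⟨Finset.mem_univ _, h'⟩)
      have hv := congrArg Fin.val hpq
      apply Fin.ext
      dsimp only at hv
      split_ifs at hv <;> (try simp only at hv) <;> omega
  have h2 : E.card ≤ 3 := three_le _ _ _
  have h3 : D.card ≤ (D \ E).card + E.card := Finset.card_le_card_sdiff_add_card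
  omega

/-- PROOF. Fix the position `i`. For a word `g ∈ LE Q` with a minimal comparable interval `[i, i + d]` move the letter at
position `i + d` to position `i + 1` (the letters at `i + 1, …, i + d - 1` move one step back). -/
theorem moveS {N : ℕ} {Q : Rel (N + 1)} (lab : Fin (N + 1) → ℕ) (d : ℕ) (hd : 2 ≤ d)
    (s : ℝ) :
    ∑ g ∈ LE Q, (AA Q d g : ℝ) * Real.exp (s * ((N : ℝ) - 2 * des lab g) / 2) ≤
      Real.exp (3 * |s|) * ∑ g ∈ LE Q, (adj Q g : ℝ) * Real.exp (s * ((N : ℝ) - 2 * des lab g) / 2) := by
  classical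
  set w : Equiv.Perm (Fin (N + 1)) → ℝ := fun g => Real.exp (s * ((N : ℝ) - 2 * des lab g) / 2) with hw
  have hw0 : ∀ g, 0 ≤ w g := fun g => (Real.exp_pos _).le
  set P : Equiv.Perm (Fin (N + 1)) → Fin (N + 1) → Prop := fun g i =>
    ∃ h : i.val + d < N + 1, Q (g i) (g ⟨i.val + d, h⟩) ∧
    ∀ k l : Fin (N + 1), i ≤ k → k < l → l.val ≤ i.val + d → Q (g k) (g l) →
      k = i ∧ l.val = i.val + d with hP
  have hAA : ∀ g, (AA Q d g : ℝ) = ∑ i : Fin (N + 1), if P g i then (1 : ℝ) else 0 := by
    intro g
    rw [Finset.sum_boole]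
    unfold AA
    congr!
  have hadj : ∀ g, (adj Q g : ℝ) = ∑ p : Fin N, if Q (g p.castSucc) (g p.succ) then (1 : ℝ) else 0 := by
    intro g
    rw [Finset.sum_boole]
    unfold adj adjs
    congr!
  have h1 : ∑ g ∈ LE Q, (AA Q d g : ℝ) * w g =
      ∑ i : Fin (N + 1), ∑ g ∈ (LE Q).filter (fun g => P g i), w g := by
    rw [Finset.sum_congr rfl (fun g _ => by rw [hAA, Finset.sum_mul]), Finset.sum_comm]
    refine Finset.sum_congr rfl fun i _ => ?_
    rw [Finset.sum_filter]
    refine Finset.sum_congr rfl fun g _ => ?_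
    split_ifs
    · rw [one_mul]
    · rw [zero_mul]
  have h2 : ∑ g ∈ LE Q, (adj Q g : ℝ) * w g =
      ∑ p : Fin N, ∑ g ∈ (LE Q).filter (fun g => Q (g p.castSucc) (g p.succ)), w g := by
    rw [Finset.sum_congr rfl (fun g _ => by rw [hadj, Finset.sum_mul]), Finset.sum_comm]
    refine Finset.sum_congr rfl fun i _ => ?_
    rw [Finset.sum_filter]
    refine Finset.sum_congr rfl fun g _ => ?_
    split_ifs
    · rw [one_mul]
    · rw [zero_mul]
  show ∑ g ∈ LE Q, (AA Q d g : ℝ) * w g ≤ Real.exp (3 * |s|) * ∑ g ∈ LE Q, (adj Q g : ℝ) * w g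
  rw [h1, h2, Fin.sum_univ_castSucc]
  have hlast : (LE Q).filter (fun g => P g (Fin.last N)) = ∅ := by
    rw [Finset.filter_eq_empty_iff]
    rintro g _ ⟨h, -⟩
    rw [Fin.val_last] at h
    omega
  rw [hlast, Finset.sum_empty, add_zero, Finset.mul_sum]
  refine Finset.sum_le_sum fun p _ => ?_
  by_cases h : p.val + d < N + 1
  · -- the move
    have hstep : ∀ g ∈ (LE Q).filter (fun g => P g p.castSucc),
        w g ≤ Real.exp (3 * |s|) * w ((mp p.val d hd h).trans g) := by
      intro g _
      rw [hw]
      dsimp only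
      rw [← Real.exp_add]
      apply Real.exp_le_exp.mpr
      have d1 := des_le_move lab g p.val d hd h
      have d2 := des_move_le lab g p.val d hd h
      have d1' : (des lab g : ℝ) ≤ des lab ((mp p.val d hd h).trans g) + 3 := by exact_mod_cast d1
      have d2' : (des lab ((mp p.val d hd h).trans g) : ℝ) ≤ des lab g + 3 := by exact_mod_cast d2
      have d3 : |(des lab ((mp p.val d hd h).trans g) : ℝ) - des lab g| ≤ 3 := by
        rw [abs_le]
        constructor <;> linarith
      have d4 : s * ((des lab ((mp p.val d hd h).trans g) : ℝ) - des lab g) ≤ 3 * |s| := by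
        calc s * ((des lab ((mp p.val d hd h).trans g) : ℝ) - des lab g)
            ≤ |s * ((des lab ((mp p.val d hd h).trans g) : ℝ) - des lab g)| := le_abs_self _
          _ = |s| * |(des lab ((mp p.val d hd h).trans g) : ℝ) - des lab g| := abs_mul _ _
          _ ≤ |s| * 3 := mul_le_mul_of_nonneg_left d3 (abs_nonneg _)
          _ = 3 * |s| := mul_comm _ _
      linarith
    calc ∑ g ∈ (LE Q).filter (fun g => P g p.castSucc), w g
        ≤ ∑ g ∈ (LE Q).filter (fun g => P g p.castSucc),
          Real.exp (3 * |s|) * w ((mp p.val d hd h).trans g) := Finset.sum_le_sum hstep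
      _ = ∑ g' ∈ ((LE Q).filter (fun g => P g p.castSucc)).image (fun g => (mp p.val d hd h).trans g),
          Real.exp (3 * |s|) * w g' := by
          rw [Finset.sum_image]
          intro g _ g' _ hgg
          apply Equiv.ext
          intro k
          have h5 := Equiv.congr_fun hgg ((mp p.val d hd h).symm k)
          simpa using h5
      _ ≤ ∑ g' ∈ (LE Q).filter (fun g => Q (g p.castSucc) (g p.succ)), Real.exp (3 * |s|) * w g' := by
          refine Finset.sum_le_sum_of_subset_of_nonneg ?_ (fun g _ _ => mul_nonneg (Real.exp_pos _).le (hw0 g))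
          intro g' hg'
          rw [Finset.mem_image] at hg'
          obtain ⟨g, hg, rfl⟩ := hg'
          rw [Finset.mem_filter] at hg
          obtain ⟨hgL, h', hQ, hmin⟩ := hg
          have hgL' := hgL
          rw [mem_LE] at hgL'
          have e1 : ∀ k : Fin (N + 1), ((mp p.val d hd h).trans g) k =
              g ⟨mr p.val d k.val, mr_lt h k.isLt⟩ := fun _ => rfl
          rw [Finset.mem_filter, mem_LE]
          refine ⟨fun k l hkl => ?_, ?_⟩
          · rw [e1, e1] at hkl
            have h5 := hgL' _ _ hkl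
            rw [Fin.lt_def] at h5 ⊢
            dsimp only at h5
            by_contra hcon
            -- `l = i + 1`, `k ∈ [i+2, i+d]`
            have h6 : l.val = p.val + 1 ∧ p.val + 2 ≤ k.val ∧ k.val ≤ p.val + d := by
              unfold mr at h5
              split_ifs at h5 <;> omega
            have h7 : mr p.val d l.val = p.val + d := by
              unfold mr
              split_ifs <;> omega
            have h8 : mr p.val d k.val = k.val - 1 := by
              unfold mr
              split_ifs <;> omega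
            have h9 := hmin ⟨mr p.val d k.val, mr_lt h k.isLt⟩ ⟨mr p.val d l.val, mr_lt h l.isLt⟩
              (Fin.le_def.mpr (by show p.val ≤ mr p.val d k.val; omega))
              (Fin.lt_def.mpr (by show mr p.val d k.val < mr p.val d l.val; omega))
              (by show mr p.val d l.val ≤ p.val + d; omega) hkl
            have h10 : mr p.val d k.val = p.val := congrArg Fin.val h9.1
            omega
          · rw [e1, e1]
            have e2 : (⟨mr p.val d p.castSucc.val, mr_lt h (Fin.isLt _)⟩ : Fin (N + 1)) = p.castSucc := by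
              apply Fin.ext
              simp only [Fin.val_castSucc]
              unfold mr
              split_ifs <;> omega
            have e3 : (⟨mr p.val d p.succ.val, mr_lt h (Fin.isLt _)⟩ : Fin (N + 1)) =
                ⟨p.castSucc.val + d, h'⟩ := by
              apply Fin.ext
              simp only [Fin.val_succ, Fin.val_castSucc]
              unfold mr
              split_ifs <;> omega
            rw [e2, e3]
            exact hQ
      _ = Real.exp (3 * |s|) * ∑ g' ∈ (LE Q).filter (fun g => Q (g p.castSucc) (g p.succ)), w g' := by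
          rw [Finset.mul_sum]
  · have hempty : (LE Q).filter (fun g => P g p.castSucc) = ∅ := by
      rw [Finset.filter_eq_empty_iff]
      rintro g _ ⟨h', -⟩
      exact h h'
    rw [hempty, Finset.sum_empty]
    exact mul_nonneg (Real.exp_pos _).le (Finset.sum_nonneg fun g _ => hw0 g)

end Pool.GE63
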