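import Pool.Agent.GE63.Defs
import Pool.Agent.GE63.MoveS
import Pool.Agent.GE63.Bad4S
import Pool.Agent.NL25.Stein

set_option autoImplicit false

/-!
# GE63/Move: minimal comparable intervals are at most as frequent as comparable neighbours (STUB)
-/

namespace Pool.GE63

open Pool.HB45 Pool.SC45 Pool.NL25

/-- PROOF. Fix the position `i`. For a word `g ∈ LE Q` with a minimal comparable interval `[i, i + d]` move the letter at
position `i + d` to position `i + 1` (the letters at `i + 1, …, i + d - 1` move one step back): the new word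
`g'` is in `LE Q` (the moved letter is incomparable to the letters it passes), has a comparable pair at the
neighbour position `i`, `g` is recovered from `g'` (fixed `i`, `d`), and `des` changes by at most 3 (three pairs
are removed, three created), i.e. `|s X/2|` by at most `3 |s|`. Sum over `i`. -/
theorem move {N : ℕ} {Q : Rel (N + 1)} {lab : Fin (N + 1) → ℕ} (hn : Nat' Q lab) (d : ℕ) (hd : 2 ≤ d)
    (s : ℝ) :
    ∑ g ∈ LE Q, (AA Q d g : ℝ) * Real.exp (s * Xf lab g / 2) ≤
      Real.exp (3 * |s|) * ∑ g ∈ LE Q, (adj Q g : ℝ) * Real.exp (s * Xf lab g / 2) := by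
  exact moveS lab d hd s

open Classical in
/-- the non-antichain windows `{o, …, o + 3}`: each contains a comparable neighbour pair or a minimal comparable
interval of length 2 or 3, and each of these lies in at most 3 windows -/
theorem bad4_le {N : ℕ} {Q : Rel (N + 1)} (g : Equiv.Perm (Fin (N + 1))) (hg : g ∈ LE Q) :
    ((Finset.univ.filter fun o : Fin (N + 1) => ∃ h : o.val + 3 < N + 1,
      ∃ i j : Fin (N + 1), o ≤ i ∧ i < j ∧ j.val ≤ o.val + 3 ∧ Q (g i) (g j)).card : ℝ) ≤
      3 * adj Q g + 2 * AA Q 2 g + AA Q 3 g :=
  bad4_leS g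

end Pool.GE63
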