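import Pool.Agent.GE63.UpLo
import Pool.Agent.GE63.Move
import Pool.Agent.NL25.Ent

set_option autoImplicit false

/-!
# GE63/MAloS: entropy lower bound of the mean of the number of comparable neighbours in a tilt
-/

namespace Pool.GE63

open Pool.HB45 Pool.SC45

theorem mAlo_const (s q : ℝ) (hs : |s| ≤ 1 / 96) (hq0 : 0 < q) (hq1 : q ≤ 1 / 4) :
    2 * (Real.exp (3 * |s|) * (q ^ 2 * (1 - q)⁻¹)) ≤ 3 * q ^ 2 := by
  have h1 : Real.exp (3 * |s|) ≤ 9 / 8 := by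
    have h2 : Real.exp (3 * |s|) ≤ Real.exp (1 / 32) := Real.exp_le_exp.2 (by linarith)
    have h3 := Real.exp_bound_div_one_sub_of_interval' (x := 1 / 32) (by norm_num) (by norm_num)
    have h4 : (1 : ℝ) / (1 - 1 / 32) ≤ 9 / 8 := by norm_num
    linarith
  have h5 : (1 - q)⁻¹ ≤ 4 / 3 := by
    rw [inv_le_comm₀ (by linarith) (by norm_num)]
    linarith
  have h6 : 0 ≤ (1 - q)⁻¹ := inv_nonneg.2 (by linarith)
  have h7 : Real.exp (3 * |s|) * (1 - q)⁻¹ ≤ 9 / 8 * (4 / 3) :=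
    mul_le_mul h1 h5 h6 (by norm_num)
  nlinarith [sq_nonneg q, mul_le_mul_of_nonneg_left h7 (sq_nonneg q)]

theorem mAlo_geom (q : ℝ) (hq0 : 0 < q) (hq1 : q ≤ 1 / 4) (N : ℕ) :
    ∑ d ∈ Finset.Icc 2 N, q ^ d ≤ q ^ 2 * (1 - q)⁻¹ := by
  have h1 : ∑ d ∈ Finset.Icc 2 N, q ^ d = q ^ 2 * ∑ d ∈ Finset.range (N - 1), q ^ d := by
    rw [Finset.mul_sum]
    rcases Nat.lt_or_ge N 2 with h | h
    · rw [Finset.Icc_eq_empty (by omega)]
      have : N - 1 = 0 := by omega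
      rw [this]
      simp
    · have h2 : Finset.Icc 2 N = (Finset.range (N - 1)).image (fun d => 2 + d) := by
        ext d
        rw [Finset.mem_Icc, Finset.mem_image]
        constructor
        · rintro ⟨ha, hb⟩
          exact ⟨d - 2, Finset.mem_range.2 (by omega), by omega⟩
        · rintro ⟨e, he, rfl⟩
          rw [Finset.mem_range] at he
          omega
      rw [h2, Finset.sum_image (fun a _ b _ hab => by simpa using hab)]
      exact Finset.sum_congr rfl fun d _ => pow_add q 2 d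
  rw [h1]
  refine mul_le_mul_of_nonneg_left ?_ (sq_nonneg q)
  have h3 := mul_neg_geom_sum q (N - 1)
  have h4 : 0 < 1 - q := by linarith
  rw [← one_div, le_div_iff₀ h4, mul_comm, h3]
  have : 0 ≤ q ^ (N - 1) := pow_nonneg hq0.le _
  linarith

theorem mA_lo_S {N : ℕ} {Q : Rel (N + 1)} {lab : Fin (N + 1) → ℕ} (hn : Nat' Q lab) (s q : ℝ)
    (hs : |s| ≤ 1 / 96) (hq0 : 0 < q) (hq1 : q ≤ 1 / 4) :
    NL25.GG Q - NL25.mA Q lab s ≤
      (s * (NL25.mX Q lab s - NL25.GG Q) / 2) / q + 4 * q * NL25.mA Q lab s := by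
  have hne := NL25.LE_nonempty hn
  have hM := NL25.MG_pos hn s
  have hc := NL25.card_pos hn
  -- the Gibbs inequality
  have hg := NL25.gibbs (LE Q) hne (fun g => s * NL25.Xf lab g / 2)
    (fun g => -((q + q ^ 2) * adj Q g) - 2 * ∑ d ∈ Finset.Icc 2 N, q ^ d * AA Q d g)
  have hMG : ∑ i ∈ LE Q, Real.exp (s * NL25.Xf lab i / 2) = NL25.MG Q lab s := rfl
  rw [hMG] at hg
  -- LO
  have hlo : Real.log ((∑ g ∈ LE Q, Real.exp (-((q + q ^ 2) * adj Q g) -
      2 * ∑ d ∈ Finset.Icc 2 N, q ^ d * AA Q d g)) / (LE Q).card) ≤ -(q * NL25.GG Q) := by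
    have h1 := LO hn q hq0.le hq1
    have h2 : 0 < ∑ g ∈ LE Q, Real.exp (-((q + q ^ 2) * adj Q g) -
      2 * ∑ d ∈ Finset.Icc 2 N, q ^ d * AA Q d g) :=
      Finset.sum_pos (fun _ _ => Real.exp_pos _) hne
    rw [Real.log_le_iff_le_exp (div_pos h2 hc), div_le_iff₀ hc, mul_comm]
    exact h1
  -- Jensen
  have hj : s * NL25.GG Q / 2 ≤ Real.log (NL25.MG Q lab s / (LE Q).card) := by
    rw [Real.le_log_iff_exp_le (div_pos hM hc), le_div_iff₀ hc, mul_comm]
    exact NL25.jensen hn s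
  -- the mean of `x`
  have hx : (∑ g ∈ LE Q, s * NL25.Xf lab g / 2 * Real.exp (s * NL25.Xf lab g / 2)) /
      NL25.MG Q lab s = s * NL25.mX Q lab s / 2 := by
    unfold NL25.mX
    rw [← mul_div_assoc, div_right_comm, Finset.mul_sum]
    congr 1
    rw [Finset.sum_div]
    exact Finset.sum_congr rfl fun g _ => by ring
  -- the mean of `y`
  have hy : (∑ g ∈ LE Q, (-((q + q ^ 2) * adj Q g) - 2 * ∑ d ∈ Finset.Icc 2 N, q ^ d * AA Q d g) *
      Real.exp (s * NL25.Xf lab g / 2)) =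
      -((q + q ^ 2) * ∑ g ∈ LE Q, (adj Q g : ℝ) * Real.exp (s * NL25.Xf lab g / 2)) -
      2 * ∑ d ∈ Finset.Icc 2 N, q ^ d *
        ∑ g ∈ LE Q, (AA Q d g : ℝ) * Real.exp (s * NL25.Xf lab g / 2) := by
    have h1 : ∑ d ∈ Finset.Icc 2 N, q ^ d *
        ∑ g ∈ LE Q, (AA Q d g : ℝ) * Real.exp (s * NL25.Xf lab g / 2) =
        ∑ g ∈ LE Q, (∑ d ∈ Finset.Icc 2 N, q ^ d * AA Q d g) *
          Real.exp (s * NL25.Xf lab g / 2) := by
      simp only [Finset.mul_sum, Finset.sum_mul]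
      rw [Finset.sum_comm]
      exact Finset.sum_congr rfl fun g _ => Finset.sum_congr rfl fun d _ => by ring
    rw [h1, Finset.mul_sum, Finset.mul_sum, ← Finset.sum_neg_distrib, ← Finset.sum_sub_distrib]
    exact Finset.sum_congr rfl fun g _ => by ring
  -- the moves
  set T : ℝ := ∑ g ∈ LE Q, (adj Q g : ℝ) * Real.exp (s * NL25.Xf lab g / 2) with hT
  have hT0 : 0 ≤ T := Finset.sum_nonneg fun g _ => mul_nonneg (Nat.cast_nonneg _)
    (Real.exp_pos _).le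
  have hmv : 2 * ∑ d ∈ Finset.Icc 2 N, q ^ d *
      ∑ g ∈ LE Q, (AA Q d g : ℝ) * Real.exp (s * NL25.Xf lab g / 2) ≤ 3 * q ^ 2 * T := by
    calc 2 * ∑ d ∈ Finset.Icc 2 N, q ^ d *
        ∑ g ∈ LE Q, (AA Q d g : ℝ) * Real.exp (s * NL25.Xf lab g / 2)
        ≤ 2 * ∑ d ∈ Finset.Icc 2 N, q ^ d * (Real.exp (3 * |s|) * T) := by
          refine mul_le_mul_of_nonneg_left (Finset.sum_le_sum fun d hd => ?_) (by norm_num)
          exact mul_le_mul_of_nonneg_left (move hn d (Finset.mem_Icc.1 hd).1 s)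
            (pow_nonneg hq0.le _)
      _ = 2 * (Real.exp (3 * |s|) * (∑ d ∈ Finset.Icc 2 N, q ^ d)) * T := by
          rw [← Finset.sum_mul]
          ring
      _ ≤ 2 * (Real.exp (3 * |s|) * (q ^ 2 * (1 - q)⁻¹)) * T := by
          refine mul_le_mul_of_nonneg_right ?_ hT0
          refine mul_le_mul_of_nonneg_left ?_ (by norm_num)
          exact mul_le_mul_of_nonneg_left (mAlo_geom q hq0 hq1 N) (Real.exp_pos _).le
      _ ≤ 3 * q ^ 2 * T := mul_le_mul_of_nonneg_right (mAlo_const s q hs hq0 hq1) hT0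
  have hA : NL25.mA Q lab s = T / NL25.MG Q lab s := rfl
  have hy2 : -((q + 4 * q ^ 2) * NL25.mA Q lab s) ≤
      (∑ g ∈ LE Q, (-((q + q ^ 2) * adj Q g) - 2 * ∑ d ∈ Finset.Icc 2 N, q ^ d * AA Q d g) *
      Real.exp (s * NL25.Xf lab g / 2)) / NL25.MG Q lab s := by
    rw [hy, hA, le_div_iff₀ hM]
    have h1 : -((q + 4 * q ^ 2) * (T / NL25.MG Q lab s)) * NL25.MG Q lab s =
        -((q + 4 * q ^ 2) * T) := by
      field_simp
    rw [h1]
    nlinarith [hmv]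
  rw [hx] at hg
  have hfin : q * NL25.GG Q ≤ s * (NL25.mX Q lab s - NL25.GG Q) / 2 +
      (q + 4 * q ^ 2) * NL25.mA Q lab s := by
    have := hy2.trans hg
    linarith
  have h9 : NL25.GG Q - NL25.mA Q lab s =
      (q * NL25.GG Q - q * NL25.mA Q lab s) / q := by
    field_simp
  have h10 : (s * (NL25.mX Q lab s - NL25.GG Q) / 2) / q + 4 * q * NL25.mA Q lab s =
      (s * (NL25.mX Q lab s - NL25.GG Q) / 2 + 4 * q ^ 2 * NL25.mA Q lab s) / q := by
    field_simp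
  rw [h9, h10]
  exact div_le_div_of_nonneg_right (by linarith) hq0.le

end Pool.GE63
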