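import Pool.Agent.GE63.UpLo
import Pool.Agent.NL25.Ent

set_option autoImplicit false

/-!
# GE63/MAupS: entropy upper bound of the mean of the number of comparable neighbours in a tilt
-/

namespace Pool.GE63

open Pool.HB45 Pool.SC45

theorem mA_up_S {N : ℕ} {Q : Rel (N + 1)} {lab : Fin (N + 1) → ℕ} (hn : Nat' Q lab) (s q : ℝ)
    (hq0 : 0 < q) (hq1 : q ≤ 1 / 4) :
    NL25.mA Q lab s - NL25.GG Q ≤
      2 * (s * (NL25.mX Q lab s - NL25.GG Q) / 2) / q + 6 * q * NL25.GG Q := by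
  have hne := NL25.LE_nonempty hn
  have hM := NL25.MG_pos hn s
  have hc := NL25.card_pos hn
  have hG0 := NL25.GG_nonneg Q
  have hMG : ∑ i ∈ LE Q, Real.exp (s * NL25.Xf lab i / 2) = NL25.MG Q lab s := rfl
  -- the mean of `x`
  have hx : (∑ g ∈ LE Q, s * NL25.Xf lab g / 2 * Real.exp (s * NL25.Xf lab g / 2)) /
      NL25.MG Q lab s = s * NL25.mX Q lab s / 2 := by
    unfold NL25.mX
    rw [← mul_div_assoc, div_right_comm, Finset.mul_sum]
    congr 1
    rw [Finset.sum_div]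
    exact Finset.sum_congr rfl fun g _ => by ring
  -- Jensen
  have hj : s * NL25.GG Q / 2 ≤ Real.log (NL25.MG Q lab s / (LE Q).card) := by
    rw [Real.le_log_iff_exp_le (div_pos hM hc), le_div_iff₀ hc, mul_comm]
    exact NL25.jensen hn s
  -- the entropy is nonnegative
  have hg0 := NL25.gibbs (LE Q) hne (fun g => s * NL25.Xf lab g / 2) (fun _ => 0)
  rw [hMG, hx] at hg0
  have hH : 0 ≤ s * (NL25.mX Q lab s - NL25.GG Q) / 2 := by
    have h1 : (∑ i ∈ LE Q, (0 : ℝ) * Real.exp (s * NL25.Xf lab i / 2)) / NL25.MG Q lab s = 0 := by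
      simp
    have h2 : Real.log ((∑ i ∈ LE Q, Real.exp (0 : ℝ)) / ((LE Q).card : ℝ)) = 0 := by
      simp only [Real.exp_zero, Finset.sum_const, nsmul_eq_mul, mul_one]
      rw [div_self hc.ne', Real.log_one]
    rw [h1, h2] at hg0
    linarith
  -- the Gibbs inequality
  have hg := NL25.gibbs (LE Q) hne (fun g => s * NL25.Xf lab g / 2)
    (fun g => (q - 2 * q ^ 2) * adj Q g)
  rw [hMG, hx] at hg
  have hup : Real.log ((∑ g ∈ LE Q, Real.exp ((q - 2 * q ^ 2) * adj Q g)) / (LE Q).card) ≤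
      (q + q ^ 2) * NL25.GG Q := by
    have h1 := UP hn q hq0.le hq1
    have h2 : 0 < ∑ g ∈ LE Q, Real.exp ((q - 2 * q ^ 2) * adj Q g) :=
      Finset.sum_pos (fun _ _ => Real.exp_pos _) hne
    rw [Real.log_le_iff_le_exp (div_pos h2 hc), div_le_iff₀ hc]
    exact h1.trans (le_of_eq (mul_comm _ _))
  have hy : (∑ g ∈ LE Q, (q - 2 * q ^ 2) * adj Q g * Real.exp (s * NL25.Xf lab g / 2)) /
      NL25.MG Q lab s = (q - 2 * q ^ 2) * NL25.mA Q lab s := by
    unfold NL25.mA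
    rw [← mul_div_assoc, Finset.mul_sum]
    congr 1
    exact Finset.sum_congr rfl fun g _ => by ring
  rw [hy] at hg
  set H : ℝ := s * (NL25.mX Q lab s - NL25.GG Q) / 2 with hHdef
  have hfin : (q - 2 * q ^ 2) * (NL25.mA Q lab s - NL25.GG Q) ≤ 3 * q ^ 2 * NL25.GG Q + H := by
    rw [hHdef]
    nlinarith [hg, hup, hj]
  have hR : 0 ≤ 3 * q ^ 2 * NL25.GG Q + H := by positivity
  have h10 : 2 * H / q + 6 * q * NL25.GG Q = 2 * (3 * q ^ 2 * NL25.GG Q + H) / q := by
    field_simp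
    ring
  rw [h10, le_div_iff₀ hq0]
  rcases le_total (NL25.mA Q lab s - NL25.GG Q) 0 with h | h
  · have h1 : (NL25.mA Q lab s - NL25.GG Q) * q ≤ 0 := mul_nonpos_of_nonpos_of_nonneg h hq0.le
    linarith
  · have h1 : q / 2 * (NL25.mA Q lab s - NL25.GG Q) ≤
        (q - 2 * q ^ 2) * (NL25.mA Q lab s - NL25.GG Q) :=
      mul_le_mul_of_nonneg_right (by nlinarith) h
    linarith

end Pool.GE63
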