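import Pool.Agent.NL25.Loc
import Pool.Agent.NL25.Ent

set_option autoImplicit false

/-!
# GE63/MXmALeS: the mean of `X` against the mean of `adj` in a tilt, crude bound
-/

namespace Pool.GE63

open Pool.HB45 Pool.SC45

/-- `NL25.stein`, `NL25.abs_loc_le`: `|mX - mA| ≤ (1/2) N 2|s|`. -/
theorem mX_mA_leS {N : ℕ} {Q : Rel (N + 1)} {lab : Fin (N + 1) → ℕ} (hn : Nat' Q lab) (s : ℝ)
    (hs : |s| ≤ 1) : |NL25.mX Q lab s - NL25.mA Q lab s| ≤ |s| * N := by
  have hM := NL25.MG_pos hn s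
  have hst := NL25.stein hn s
  set C := ∑ g ∈ LE Q, (∑ i : Fin N, NL25.loc Q lab s i g) * Real.exp (s * NL25.Xf lab g / 2)
    with hC
  have hmain : NL25.mX Q lab s - NL25.mA Q lab s = 1 / 2 * C / NL25.MG Q lab s := by
    rw [NL25.mX, NL25.mA, hst, ← sub_div]
    congr 1
    ring
  have hCle : |C| ≤ 2 * |s| * N * NL25.MG Q lab s := by
    rw [hC, NL25.MG, Finset.mul_sum]
    refine (Finset.abs_sum_le_sum_abs _ _).trans (Finset.sum_le_sum fun g _ => ?_)
    rw [abs_mul, abs_of_pos (Real.exp_pos _)]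
    refine mul_le_mul_of_nonneg_right ?_ (Real.exp_pos _).le
    refine (Finset.abs_sum_le_sum_abs _ _).trans ?_
    refine (Finset.sum_le_sum fun i _ => NL25.abs_loc_le hn s hs i g).trans ?_
    rw [Finset.sum_const, Finset.card_univ, Fintype.card_fin, nsmul_eq_mul]
    exact le_of_eq (by ring)
  rw [hmain, abs_div, abs_of_pos hM, div_le_iff₀ hM, abs_mul,
    abs_of_pos (by norm_num : (0 : ℝ) < 1 / 2)]
  linarith

end Pool.GE63
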