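import Pool.Agent.GE63.Defs
import Pool.Agent.NL25.HdLog

set_option autoImplicit false

/-!
# GE63/MeanS: the mean of the number of comparable neighbours in a tilt (for GE63/Ent)
-/

namespace Pool.GE63

open Pool.HB45 Pool.SC45

/-- the real inequality behind `adj_mean` -/
theorem mean_realS (N k s G M X : ℝ) (hN : 0 ≤ N) (hk0 : 0 < k) (hk1 : k ≤ 1 / 4) (hG0 : 0 ≤ G)
    (hG : G ≤ k ^ 2 * N) (hs : |s| ≤ k / 24) (hs0 : s ≠ 0) (h1 : |X - M| ≤ |s| * N)
    (hup : ∀ q : ℝ, 0 < q → q ≤ 1 / 4 → M - G ≤ 2 * (s * (X - G) / 2) / q + 6 * q * G)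
    (hlo : ∀ q : ℝ, 0 < q → q ≤ 1 / 4 → G - M ≤ (s * (X - G) / 2) / q + 4 * q * M) :
    |M - G| ≤ 14 * k * |s| * N := by
  have ht : 0 < |s| := abs_pos.2 hs0
  have hq : 0 < |s| / k := div_pos ht hk0
  have hq24 : |s| / k ≤ 1 / 24 := by
    rw [div_le_iff₀ hk0]
    linarith
  have hq4 : |s| / k ≤ 1 / 4 := by linarith
  have hup' := hup _ hq hq4
  have hlo' := hlo _ hq hq4
  have ha : 0 ≤ |M - G| := abs_nonneg _
  have hH : s * (X - G) / 2 ≤ |s| * (|s| * N + |M - G|) / 2 := by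
    have h2 : |X - G| ≤ |s| * N + |M - G| := by
      have h3 : X - G = (X - M) + (M - G) := by ring
      rw [h3]
      exact (abs_add_le _ _).trans (by linarith)
    have h4 : s * (X - G) ≤ |s| * |X - G| := by
      rw [← abs_mul]
      exact le_abs_self _
    have h5 : |s| * |X - G| ≤ |s| * (|s| * N + |M - G|) := mul_le_mul_of_nonneg_left h2 ht.le
    linarith
  have hHq : (s * (X - G) / 2) / (|s| / k) ≤ k * (|s| * N + |M - G|) / 2 := by
    rw [div_le_iff₀ hq]
    have h6 : k * (|s| * N + |M - G|) / 2 * (|s| / k) = |s| * (|s| * N + |M - G|) / 2 := by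
      field_simp
    rw [h6]
    exact hH
  have hqG : |s| / k * G ≤ k * |s| * N := by
    have h7 : |s| / k * G ≤ |s| / k * (k ^ 2 * N) := mul_le_mul_of_nonneg_left hG hq.le
    have h8 : |s| / k * (k ^ 2 * N) = k * |s| * N := by
      field_simp
    linarith
  have hqM : |s| / k * M ≤ k * |s| * N + |M - G| / 24 := by
    have h9 : M ≤ G + |M - G| := by
      have := le_abs_self (M - G)
      linarith
    have h10 : |s| / k * M ≤ |s| / k * (G + |M - G|) := mul_le_mul_of_nonneg_left h9 hq.le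
    have h11 : |s| / k * |M - G| ≤ 1 / 24 * |M - G| := mul_le_mul_of_nonneg_right hq24 ha
    have h12 : |s| / k * (G + |M - G|) = |s| / k * G + |s| / k * |M - G| := by ring
    linarith
  have hka : k * |M - G| ≤ 1 / 4 * |M - G| := mul_le_mul_of_nonneg_right hk1 ha
  have hksN : 0 ≤ k * |s| * N := by positivity
  have e1 : 2 * (s * (X - G) / 2) / (|s| / k) = 2 * ((s * (X - G) / 2) / (|s| / k)) := by ring
  have e2 : k * (|s| * N + |M - G|) / 2 = k * |s| * N / 2 + k * |M - G| / 2 := by ring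
  have e3 : 6 * (|s| / k) * G = 6 * (|s| / k * G) := by ring
  have e4 : 4 * (|s| / k) * M = 4 * (|s| / k * M) := by ring
  rw [e1, e3] at hup'
  rw [e4] at hlo'
  rw [e2] at hHq
  have hgoal : |M - G| ≤ 14 * (k * |s| * N) := by
    rcases le_total 0 (M - G) with hc | hc
    · rw [abs_of_nonneg hc] at *
      linarith
    · rw [abs_of_nonpos hc] at *
      linarith
  calc |M - G| ≤ 14 * (k * |s| * N) := hgoal
    _ = 14 * k * |s| * N := by ring

theorem mA_zeroS {N : ℕ} (Q : Rel (N + 1)) (lab : Fin (N + 1) → ℕ) :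
    NL25.mA Q lab 0 = NL25.GG Q := by
  unfold NL25.mA NL25.GG NL25.MG
  simp

theorem MG_zeroS {N : ℕ} (Q : Rel (N + 1)) (lab : Fin (N + 1) → ℕ) :
    NL25.MG Q lab 0 = (LE Q).card := by
  unfold NL25.MG
  simp

/-- integration of the derivative -/
theorem logMG_leS {N : ℕ} {Q : Rel (N + 1)} {lab : Fin (N + 1) → ℕ} (hn : Nat' Q lab) (k s : ℝ)
    (hk1 : k ≤ 1 / 4)
    (hd : ∀ u : ℝ, |u| ≤ |s| → |NL25.mX Q lab u - NL25.mA Q lab u| ≤ |u| * N)
    (hm : ∀ u : ℝ, |u| ≤ |s| → |NL25.mA Q lab u - NL25.GG Q| ≤ 14 * k * |u| * N) :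
    NL25.MG Q lab s ≤ (LE Q).card * Real.exp (s * NL25.GG Q / 2 + 9 / 4 * s ^ 2 * N) := by
  have hc := NL25.card_pos hn
  have hM := NL25.MG_pos hn s
  have hN : (0 : ℝ) ≤ N := Nat.cast_nonneg _
  have hderiv : ∀ u ∈ Set.Icc (-|s|) |s|, HasDerivWithinAt
      (fun u => Real.log (NL25.MG Q lab u / (LE Q).card) - u * (NL25.GG Q / 2))
      (NL25.mX Q lab u / 2 - NL25.GG Q / 2) (Set.Icc (-|s|) |s|) u := by
    intro u _
    have h1 := NL25.hasDerivAt_log' hn u
    have h2 : HasDerivAt (fun u : ℝ => u * (NL25.GG Q / 2)) (NL25.GG Q / 2) u := by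
      have h3 := (hasDerivAt_id u).mul_const (NL25.GG Q / 2)
      simpa only [id_eq, one_mul] using h3
    exact (h1.sub h2).hasDerivWithinAt
  have hbound : ∀ u ∈ Set.Icc (-|s|) |s|, ‖NL25.mX Q lab u / 2 - NL25.GG Q / 2‖ ≤
      9 / 4 * |s| * N := by
    intro u hu
    have hu' : |u| ≤ |s| := abs_le.2 hu
    have h1 := hd u hu'
    have h2 := hm u hu'
    have h3 : |NL25.mX Q lab u - NL25.GG Q| ≤ |u| * N + 14 * k * |u| * N := by
      have h4 : NL25.mX Q lab u - NL25.GG Q =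
        (NL25.mX Q lab u - NL25.mA Q lab u) + (NL25.mA Q lab u - NL25.GG Q) := by ring
      rw [h4]
      exact (abs_add_le _ _).trans (add_le_add h1 h2)
    have h5 : |u| * N ≤ |s| * N := mul_le_mul_of_nonneg_right hu' hN
    have h6 : 14 * k * |u| * N ≤ 14 * (1 / 4) * |s| * N := by
      have h7 : k * (|u| * N) ≤ 1 / 4 * (|s| * N) := by
        have h8 : k * (|u| * N) ≤ 1 / 4 * (|u| * N) :=
          mul_le_mul_of_nonneg_right hk1 (by positivity)
        linarith
      nlinarith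
    rw [Real.norm_eq_abs]
    have h9 : NL25.mX Q lab u / 2 - NL25.GG Q / 2 = (NL25.mX Q lab u - NL25.GG Q) / 2 := by ring
    rw [h9, abs_div, abs_of_pos (two_pos : (0 : ℝ) < 2)]
    linarith
  have h0 : (0 : ℝ) ∈ Set.Icc (-|s|) |s| := by
    constructor
    · have := abs_nonneg s
      linarith
    · exact abs_nonneg s
  have hss : s ∈ Set.Icc (-|s|) |s| := ⟨neg_abs_le s, le_abs_self s⟩
  have hmv := Convex.norm_image_sub_le_of_norm_hasDerivWithin_le hderiv hbound
    (convex_Icc _ _) h0 hss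
  have hz : Real.log (NL25.MG Q lab 0 / (LE Q).card) - 0 * (NL25.GG Q / 2) = 0 := by
    rw [MG_zeroS, div_self hc.ne', Real.log_one]
    ring
  rw [hz, sub_zero, sub_zero, Real.norm_eq_abs, Real.norm_eq_abs] at hmv
  have h10 : 9 / 4 * |s| * N * |s| = 9 / 4 * s ^ 2 * N := by
    have : |s| * |s| = s ^ 2 := by rw [← sq, sq_abs]
    calc 9 / 4 * |s| * N * |s| = 9 / 4 * (|s| * |s|) * N := by ring
      _ = 9 / 4 * s ^ 2 * N := by rw [this]
  rw [h10] at hmv
  have h11 : Real.log (NL25.MG Q lab s / (LE Q).card) ≤ s * NL25.GG Q / 2 + 9 / 4 * s ^ 2 * N := by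
    have := (le_abs_self _).trans hmv
    linarith
  have h12 : NL25.MG Q lab s / (LE Q).card ≤
      Real.exp (s * NL25.GG Q / 2 + 9 / 4 * s ^ 2 * N) := by
    rw [← Real.log_le_iff_le_exp (div_pos hM hc)]
    exact h11
  rw [div_le_iff₀ hc] at h12
  linarith

end Pool.GE63
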