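import Pool.Agent.GE63.UpLo
import Pool.Agent.NL25.Defs

set_option autoImplicit false

/-!
# GE63/TailZ: the upper tail of the number of comparable neighbours
-/

namespace Pool.GE63

open Pool.HB45 Pool.SC45

open Classical in
/-- UPPER TAIL at `s = 0` (Markov, `UP`). -/
theorem tail_zeroS {N : ℕ} {Q : Rel (N + 1)} {lab : Fin (N + 1) → ℕ} (hn : Nat' Q lab) (q t : ℝ)
    (hq0 : 0 ≤ q) (hq1 : q ≤ 1 / 4) (ht : 0 ≤ t) :
    (((LE Q).filter fun g => NL25.GG Q + t ≤ adj Q g).card : ℝ) ≤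
      (LE Q).card * Real.exp (3 * q ^ 2 * NL25.GG Q - q * t / 2) := by
  have hup := UP hn q hq0 hq1
  have hGG : GG Q = NL25.GG Q := rfl
  rw [hGG] at hup
  set G := NL25.GG Q with hG
  set A := (LE Q).filter fun g => G + t ≤ adj Q g with hA
  have hc : 0 ≤ q - 2 * q ^ 2 := by nlinarith
  have hc2 : q / 2 ≤ q - 2 * q ^ 2 := by nlinarith
  have h1 : (A.card : ℝ) * Real.exp ((q - 2 * q ^ 2) * (G + t)) ≤
      ∑ g ∈ LE Q, Real.exp ((q - 2 * q ^ 2) * adj Q g) := by
    calc (A.card : ℝ) * Real.exp ((q - 2 * q ^ 2) * (G + t))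
        = ∑ _g ∈ A, Real.exp ((q - 2 * q ^ 2) * (G + t)) := by
          rw [Finset.sum_const, nsmul_eq_mul]
      _ ≤ ∑ g ∈ A, Real.exp ((q - 2 * q ^ 2) * adj Q g) := by
          refine Finset.sum_le_sum fun g hg => ?_
          rw [hA, Finset.mem_filter] at hg
          rw [Real.exp_le_exp]
          exact mul_le_mul_of_nonneg_left hg.2 hc
      _ ≤ _ := Finset.sum_le_sum_of_subset_of_nonneg (Finset.filter_subset _ _)
          fun g _ _ => (Real.exp_pos _).le
  have h2 := h1.trans hup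
  have h3 : (A.card : ℝ) ≤ (LE Q).card * Real.exp ((q + q ^ 2) * G) *
      Real.exp (-((q - 2 * q ^ 2) * (G + t))) := by
    have h4 : Real.exp ((q - 2 * q ^ 2) * (G + t)) * Real.exp (-((q - 2 * q ^ 2) * (G + t))) = 1 := by
      rw [← Real.exp_add]; simp
    calc (A.card : ℝ) = (A.card : ℝ) * Real.exp ((q - 2 * q ^ 2) * (G + t)) *
          Real.exp (-((q - 2 * q ^ 2) * (G + t))) := by rw [mul_assoc, h4, mul_one]
      _ ≤ _ := mul_le_mul_of_nonneg_right h2 (Real.exp_pos _).le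
  refine h3.trans ?_
  rw [mul_assoc, ← Real.exp_add]
  apply mul_le_mul_of_nonneg_left _ (Nat.cast_nonneg _)
  rw [Real.exp_le_exp]
  have h5 : q / 2 * t ≤ (q - 2 * q ^ 2) * t := mul_le_mul_of_nonneg_right hc2 ht
  nlinarith

end Pool.GE63
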