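import Pool.Agent.NL25.Stein

set_option autoImplicit false

/-!
# GE63/TiltS: Cauchy-Schwarz from the untilted tail to the tilted one
-/

namespace Pool.GE63

open Pool.HB45 Pool.SC45

theorem tail_tiltS {N : ℕ} {Q : Rel (N + 1)} {lab : Fin (N + 1) → ℕ} (hn : Nat' Q lab)
    (s E : ℝ) (A : Finset (Equiv.Perm (Fin (N + 1)))) (hA : A ⊆ LE Q)
    (h0 : (A.card : ℝ) ≤ (LE Q).card * Real.exp E)
    (h2 : NL25.MG Q lab (2 * s) ≤
      (LE Q).card * Real.exp (2 * s * NL25.GG Q / 2 + 9 / 4 * (2 * s) ^ 2 * N)) :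
    ∑ g ∈ A, Real.exp (s * NL25.Xf lab g / 2) ≤
      NL25.MG Q lab s * Real.exp (E / 2 + 9 / 2 * s ^ 2 * N) := by
  have hc := NL25.card_pos hn
  have hM := NL25.MG_pos hn s
  have hj := NL25.jensen hn s
  have hCS : (∑ g ∈ A, Real.exp (s * NL25.Xf lab g / 2)) ^ 2 ≤
      A.card * ∑ g ∈ A, Real.exp (s * NL25.Xf lab g / 2) ^ 2 := sq_sum_le_card_mul_sum_sq
  have hle : ∑ g ∈ A, Real.exp (s * NL25.Xf lab g / 2) ^ 2 ≤ NL25.MG Q lab (2 * s) := by
    unfold NL25.MG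
    have h1 : ∀ g ∈ A, Real.exp (s * NL25.Xf lab g / 2) ^ 2 =
        Real.exp (2 * s * NL25.Xf lab g / 2) := by
      intro g _
      rw [← Real.exp_nat_mul]
      congr 1
      push_cast
      ring
    rw [Finset.sum_congr rfl h1]
    exact Finset.sum_le_sum_of_subset_of_nonneg hA fun g _ _ => (Real.exp_pos _).le
  have hsq : (∑ g ∈ A, Real.exp (s * NL25.Xf lab g / 2)) ^ 2 ≤
      (NL25.MG Q lab s * Real.exp (E / 2 + 9 / 2 * s ^ 2 * N)) ^ 2 := by
    have h3 : (A.card : ℝ) * ∑ g ∈ A, Real.exp (s * NL25.Xf lab g / 2) ^ 2 ≤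
        ((LE Q).card * Real.exp E) *
          ((LE Q).card * Real.exp (2 * s * NL25.GG Q / 2 + 9 / 4 * (2 * s) ^ 2 * N)) :=
      mul_le_mul h0 (hle.trans h2) (Finset.sum_nonneg fun _ _ => by positivity) (by positivity)
    have h4 : ((LE Q).card * Real.exp E) *
          ((LE Q).card * Real.exp (2 * s * NL25.GG Q / 2 + 9 / 4 * (2 * s) ^ 2 * N)) =
        ((LE Q).card * Real.exp (s * NL25.GG Q / 2) * Real.exp (E / 2 + 9 / 2 * s ^ 2 * N)) ^ 2 := by
      have h5 : Real.exp E * Real.exp (2 * s * NL25.GG Q / 2 + 9 / 4 * (2 * s) ^ 2 * N) =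
          (Real.exp (s * NL25.GG Q / 2) * Real.exp (E / 2 + 9 / 2 * s ^ 2 * N)) ^ 2 := by
        rw [← Real.exp_add, ← Real.exp_add, ← Real.exp_nat_mul]
        congr 1
        push_cast
        ring
      calc ((LE Q).card * Real.exp E) *
          ((LE Q).card * Real.exp (2 * s * NL25.GG Q / 2 + 9 / 4 * (2 * s) ^ 2 * N)) =
          ((LE Q).card : ℝ) ^ 2 *
            (Real.exp E * Real.exp (2 * s * NL25.GG Q / 2 + 9 / 4 * (2 * s) ^ 2 * N)) := by ring
        _ = _ := by rw [h5]; ring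
    rw [h4] at h3
    refine (hCS.trans h3).trans ?_
    refine pow_le_pow_left₀ (by positivity) ?_ 2
    exact mul_le_mul_of_nonneg_right hj (Real.exp_pos _).le
  exact (le_abs_self _).trans (abs_le_of_sq_le_sq hsq (by positivity))

end Pool.GE63
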