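import Pool.Agent.GE63.UpLo
import Pool.Agent.GE63.TailZ
import Pool.Agent.GE63.Move
import Pool.Agent.GE63.TiltS
import Pool.Agent.NL25.Ent
import Pool.Agent.NL25.Real
import Pool.Agent.GE63.MAloS
import Pool.Agent.GE63.MXmALeS
import Pool.Agent.GE63.MeanS
import Pool.Agent.GE63.AbsS
import Pool.Agent.GE63.MAleS
import Pool.Agent.GE63.MAupS

set_option autoImplicit false

/-!
# GE63/Ent: the mean of the number of comparable neighbours in a tilt (STUB)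

Definitions `Xf, MG, mX, mA` of NL25; `GG` = `NL25.GG` (= `GE63.GG` by `rfl`).
-/

namespace Pool.GE63

open Pool.HB45 Pool.SC45

/-- PROOF. `NL25.stein`, `NL25.abs_loc_le`: `|mX - mA| ≤ (1/2) N 2|s|`. -/
theorem mX_mA_le {N : ℕ} {Q : Rel (N + 1)} {lab : Fin (N + 1) → ℕ} (hn : Nat' Q lab) (s : ℝ)
    (hs : |s| ≤ 1) : |NL25.mX Q lab s - NL25.mA Q lab s| ≤ |s| * N := mX_mA_leS hn s hs

/-- PROOF. `gibbs` with `x = sX/2`, `y = (q - 2q²) adj`, `UP`, `jensen`: with `H = s (mX - GG)/2`: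
`(q - 2q²) mA ≤ (q + q²) GG + H`, `q - 2q² ≥ q/2`. -/
theorem mA_up {N : ℕ} {Q : Rel (N + 1)} {lab : Fin (N + 1) → ℕ} (hn : Nat' Q lab) (s q : ℝ)
    (hq0 : 0 < q) (hq1 : q ≤ 1 / 4) :
    NL25.mA Q lab s - NL25.GG Q ≤
      2 * (s * (NL25.mX Q lab s - NL25.GG Q) / 2) / q + 6 * q * NL25.GG Q := mA_up_S hn s q hq0 hq1

/-- PROOF. `gibbs` with `y = -(q + q²) adj - 2 ∑_(d=2)^N q^d AA d`, `LO`, `jensen`, `move` (`|s| ≤ 1/96`,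
`2 e^(3|s|) q²/(1-q) ≤ 3 q²`): `q GG ≤ H + (q + 4q²) mA`. -/
theorem mA_lo {N : ℕ} {Q : Rel (N + 1)} {lab : Fin (N + 1) → ℕ} (hn : Nat' Q lab) (s q : ℝ)
    (hs : |s| ≤ 1 / 96) (hq0 : 0 < q) (hq1 : q ≤ 1 / 4) :
    NL25.GG Q - NL25.mA Q lab s ≤
      (s * (NL25.mX Q lab s - NL25.GG Q) / 2) / q + 4 * q * NL25.mA Q lab s := by
  exact mA_lo_S hn s q hs hq0 hq1

/-- THE MEAN. PROOF. `a = |mA - GG|`, `q = |s|/k ≤ 1/24`, `H ≤ |s| (|s| N + a)/2` (`mX_mA_le`), `mA_up`, `mA_lo`: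
`a ≤ 2H/q + 6q (GG + a) ≤ k|s|N + k a + 6 k |s| N + a/4`, so `a/2 ≤ 7 k |s| N`. (`s = 0`: `mA = GG`.) -/
theorem adj_mean {N : ℕ} {Q : Rel (N + 1)} {lab : Fin (N + 1) → ℕ} (hn : Nat' Q lab) (k s : ℝ)
    (hk0 : 0 < k) (hk1 : k ≤ 1 / 4) (hG : NL25.GG Q ≤ k ^ 2 * N) (hs : |s| ≤ k / 24) :
    |NL25.mA Q lab s - NL25.GG Q| ≤ 14 * k * |s| * N := by
  by_cases h0 : s = 0
  · subst h0
    rw [mA_zeroS]
    simp
  · exact mean_realS N k s (NL25.GG Q) (NL25.mA Q lab s) (NL25.mX Q lab s) (Nat.cast_nonneg _)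
      hk0 hk1 (NL25.GG_nonneg Q) hG hs h0 (mX_mA_le hn s (by linarith))
      (fun q h1 h2 => mA_up hn s q h1 h2) (fun q h1 h2 => mA_lo hn s q (by linarith) h1 h2)

/-- PROOF. `NL25.hasDerivAt_log`, derivative of `log (MG/#) - s GG/2` is `(mX - GG)/2`, at most `(|s| N + 14 k |s| N)/2 ≤
(9/4)|s| N` in absolute value; integrate. -/
theorem logMG_le {N : ℕ} {Q : Rel (N + 1)} {lab : Fin (N + 1) → ℕ} (hn : Nat' Q lab) (k s : ℝ)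
    (hk0 : 0 < k) (hk1 : k ≤ 1 / 4) (hG : NL25.GG Q ≤ k ^ 2 * N) (hs : |s| ≤ k / 24) :
    NL25.MG Q lab s ≤ (LE Q).card * Real.exp (s * NL25.GG Q / 2 + 9 / 4 * s ^ 2 * N) := by
  exact logMG_leS hn k s hk1 (fun u hu => mX_mA_le hn u (by linarith))
    (fun u hu => adj_mean hn k u hk0 hk1 hG (hu.trans hs))

open Classical in
/-- UPPER TAIL at `s = 0` (Markov, `UP`): `e^((q - 2q²)(GG + t)) #A ≤ # e^((q+q²) GG)`. -/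
theorem tail_zero {N : ℕ} {Q : Rel (N + 1)} {lab : Fin (N + 1) → ℕ} (hn : Nat' Q lab) (q t : ℝ)
    (hq0 : 0 ≤ q) (hq1 : q ≤ 1 / 4) (ht : 0 ≤ t) :
    (((LE Q).filter fun g => NL25.GG Q + t ≤ adj Q g).card : ℝ) ≤
      (LE Q).card * Real.exp (3 * q ^ 2 * NL25.GG Q - q * t / 2) :=
  tail_zeroS hn q t hq0 hq1 ht

open Classical in
/-- UPPER TAIL in a tilt. PROOF. Cauchy-Schwarz: `∑_A e^(sX/2) ≤ (#A)^(1/2) (MG (2s))^(1/2)`, `logMG_le` at `2s`,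
`MG s ≥ # e^(s GG/2)` (`jensen`), `tail_zero`. -/
theorem tail_tilt {N : ℕ} {Q : Rel (N + 1)} {lab : Fin (N + 1) → ℕ} (hn : Nat' Q lab) (k s q t : ℝ)
    (hk0 : 0 < k) (hk1 : k ≤ 1 / 4) (hG : NL25.GG Q ≤ k ^ 2 * N) (hs : 2 * |s| ≤ k / 24)
    (hq0 : 0 ≤ q) (hq1 : q ≤ 1 / 4) (ht : 0 ≤ t) :
    ∑ g ∈ (LE Q).filter (fun g => NL25.GG Q + t ≤ adj Q g), Real.exp (s * NL25.Xf lab g / 2) ≤
      NL25.MG Q lab s * Real.exp ((3 * q ^ 2 * NL25.GG Q - q * t / 2) / 2 + 9 / 2 * s ^ 2 * N) := by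
  have h1 := tail_zero hn q t hq0 hq1 ht
  have h2 := logMG_le hn k (2 * s) hk0 hk1 hG (by rw [abs_mul, abs_two]; exact hs)
  exact tail_tiltS hn s _ _ (Finset.filter_subset _ _) h1 h2

/-- (I1). PROOF. `k = √(c / log N)` (`GG ≤ h ≤ k² N`; `2|s| ≤ k/24` for large `N`), `t = ε √N / 8`. `E_s (adj - GG)⁺ ≤ t +
N P_s (adj ≥ GG + t)`; `tail_tilt` with `q = t/(12 h)` if `t ≤ 3h` (exponent `-t²/(96 h) ≤ -(ε²/(6144 c)) log N`), `q = 1/4` if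
`t > 3h` (exponent `≤ -t/32`); `s² N ≤ A² log N`; so the tail times `N` is at most 1. `E_s |adj - GG| =
2 E_s (adj - GG)⁺ - (mA - GG)`, `adj_mean`: `14 k |s| N ≤ 14 √c A √N`. -/
theorem adj_abs (A ε : ℝ) (hA : 0 < A) (hε : 0 < ε) : ∃ c : ℝ, 0 < c ∧ ∃ N0 : ℕ, ∀ N ≥ N0, ∀ h : ℕ,
    1 ≤ h → (h : ℝ) * Real.log N ≤ c * N → ∀ (Q : Rel (N + 1)) (κ lab : Fin (N + 1) → ℕ),
    Lev h Q κ → Nat' Q lab → ∀ s : ℝ, |s| ≤ A * Real.sqrt (Real.log N / N) →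
    ∑ g ∈ LE Q, |(adj Q g : ℝ) - NL25.GG Q| * Real.exp (s * NL25.Xf lab g / 2) ≤
      ε * Real.sqrt N * NL25.MG Q lab s := by
  obtain ⟨c, hc, N0, H⟩ := adj_absS A ε hA hε
  exact ⟨c, hc, N0, fun N hN h h1 hh Q κ lab hκ hn => H N hN h h1 hh Q κ lab hκ hn
    (fun k s h2 h3 h4 h5 => adj_mean hn k s h2 h3 h4 h5)
    (fun k s q t h2 h3 h4 h5 h6 h7 h8 => tail_tilt hn k s q t h2 h3 h4 h5 h6 h7 h8)⟩

/-- for (I2): `E_s adj ≤ h + √N` -/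
theorem mA_le {A : ℝ} (hA : 0 < A) : ∃ c : ℝ, 0 < c ∧ ∃ N0 : ℕ, ∀ N ≥ N0, ∀ h : ℕ,
    1 ≤ h → (h : ℝ) * Real.log N ≤ c * N → ∀ (Q : Rel (N + 1)) (κ lab : Fin (N + 1) → ℕ),
    Lev h Q κ → Nat' Q lab → ∀ s : ℝ, |s| ≤ A * Real.sqrt (Real.log N / N) →
    ∑ g ∈ LE Q, (adj Q g : ℝ) * Real.exp (s * NL25.Xf lab g / 2) ≤
      (h + Real.sqrt N) * NL25.MG Q lab s := by
  obtain ⟨c, hc, N0, H⟩ := mA_leS hA
  exact ⟨c, hc, N0, fun N hN h h1 hh Q κ lab hκ hn => H N hN h h1 hh Q κ lab hκ hn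
    (fun k s h2 h3 h4 h5 => adj_mean hn k s h2 h3 h4 h5)⟩

end Pool.GE63
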