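import Pool.Agent.GE63.Defs

set_option autoImplicit false

/-!
# GE63/HarS: Harris inequality
-/

namespace Pool.GE63S

open Finset

/-- the Bernoulli weight -/
def bw (N : ℕ) (q : ℝ) (S : Finset (Fin N)) : ℝ := (1 - q) ^ S.card * q ^ (N - S.card)

theorem bw_nonneg {N : ℕ} {q : ℝ} (hq0 : 0 ≤ q) (hq1 : q ≤ 1) (S : Finset (Fin N)) :
    0 ≤ bw N q S :=
  mul_nonneg (pow_nonneg (by linarith) _) (pow_nonneg hq0 _)

theorem bw_total (N : ℕ) (q : ℝ) : ∑ S : Finset (Fin N), bw N q S = 1 := by
  have h := Fintype.sum_pow_mul_eq_add_pow (Fin N) (1 - q) q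
  rw [Fintype.card_fin, sub_add_cancel, one_pow] at h
  exact h

theorem bw_mul {N : ℕ} (q : ℝ) (a b : Finset (Fin N)) :
    bw N q a * bw N q b = bw N q (a ⊓ b) * bw N q (a ⊔ b) := by
  unfold bw
  have h1 : (a ⊔ b).card + (a ⊓ b).card = a.card + b.card := card_union_add_card_inter a b
  have h2 : a.card ≤ N := (card_le_univ a).trans (by rw [Fintype.card_fin])
  have h3 : b.card ≤ N := (card_le_univ b).trans (by rw [Fintype.card_fin])
  have h4 : (a ⊔ b).card ≤ N := (card_le_univ _).trans (by rw [Fintype.card_fin])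
  have h5 : (a ⊓ b).card ≤ N := (card_le_univ _).trans (by rw [Fintype.card_fin])
  have e1 : (1 - q) ^ a.card * (1 - q) ^ b.card = (1 - q) ^ (a ⊓ b).card * (1 - q) ^ (a ⊔ b).card := by
    rw [← pow_add, ← pow_add]
    congr 1
    omega
  have e2 : q ^ (N - a.card) * q ^ (N - b.card) = q ^ (N - (a ⊓ b).card) * q ^ (N - (a ⊔ b).card) := by
    rw [← pow_add, ← pow_add]
    congr 1
    omega
  calc _ = ((1 - q) ^ a.card * (1 - q) ^ b.card) * (q ^ (N - a.card) * q ^ (N - b.card)) := by ring
    _ = _ := by rw [e1, e2]; ring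

theorem bw_disj {N : ℕ} (q : ℝ) (I : Finset (Fin N)) :
    ∑ S ∈ (univ : Finset (Finset (Fin N))).filter (fun S => ¬ (S ∩ I).Nonempty), bw N q S =
      q ^ I.card := by
  have h1 : (univ : Finset (Finset (Fin N))).filter (fun S => ¬ (S ∩ I).Nonempty) =
      (Iᶜ).powerset := by
    ext S
    rw [mem_filter, mem_powerset, not_nonempty_iff_eq_empty, ← disjoint_iff_inter_eq_empty,
      ← subset_compl_iff_disjoint_right]
    simp
  have hI : I.card ≤ N := (card_le_univ I).trans (by rw [Fintype.card_fin])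
  have hc : (Iᶜ).card = N - I.card := by rw [card_compl, Fintype.card_fin]
  rw [h1]
  have h2 : ∀ S ∈ (Iᶜ).powerset, bw N q S = q ^ I.card * ((1 - q) ^ S.card * q ^ ((Iᶜ).card - S.card)) := by
    intro S hS
    have h3 := card_le_card (mem_powerset.1 hS)
    unfold bw
    have e : N - S.card = I.card + ((Iᶜ).card - S.card) := by omega
    rw [e, pow_add]
    ring
  rw [sum_congr rfl h2, ← mul_sum, sum_pow_mul_eq_add_pow, sub_add_cancel, one_pow, mul_one]

theorem bw_meet {N : ℕ} (q : ℝ) (I : Finset (Fin N)) :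
    ∑ S ∈ (univ : Finset (Finset (Fin N))).filter (fun S => (S ∩ I).Nonempty), bw N q S =
      1 - q ^ I.card := by
  have h := sum_filter_add_sum_filter_not (univ : Finset (Finset (Fin N)))
    (fun S => (S ∩ I).Nonempty) (bw N q)
  rw [bw_disj, bw_total] at h
  linarith

theorem harris {N : ℕ} {κ : Type} [DecidableEq κ] (K : Finset κ) (I : κ → Finset (Fin N)) (q : ℝ)
    (hq0 : 0 ≤ q) (hq1 : q ≤ 1) :
    ∏ k ∈ K, (1 - q ^ (I k).card) ≤
      ∑ S ∈ (Finset.univ : Finset (Finset (Fin N))).filter (fun S => ∀ k ∈ K, (S ∩ I k).Nonempty),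
        (1 - q) ^ S.card * q ^ (N - S.card) := by
  induction K using Finset.induction_on with
  | empty =>
    have h : (univ : Finset (Finset (Fin N))).filter
        (fun S => ∀ k ∈ (∅ : Finset κ), (S ∩ I k).Nonempty) = univ := by
      ext S; simp
    rw [h, prod_empty]
    exact (bw_total N q).ge
  | insert k K hk ih =>
    rw [prod_insert hk]
    have h0 : ∀ k, 0 ≤ 1 - q ^ (I k).card := fun k => by
      have := pow_le_one₀ (n := (I k).card) hq0 hq1
      linarith
    have h1 := fkg (α := Finset (Fin N)) (β := ℝ) (μ := bw N q)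
      (f := fun S => if (S ∩ I k).Nonempty then 1 else 0)
      (g := fun S => if ∀ k ∈ K, (S ∩ I k).Nonempty then 1 else 0)
      (fun S => bw_nonneg hq0 hq1 S) (fun S => by
        show (0 : ℝ) ≤ if (S ∩ I k).Nonempty then 1 else 0
        split_ifs <;> norm_num) (fun S => by
        show (0 : ℝ) ≤ if ∀ k ∈ K, (S ∩ I k).Nonempty then 1 else 0
        split_ifs <;> norm_num) ?_ ?_ (fun a b => (bw_mul q a b).le)
    · rw [bw_total, one_mul] at h1
      have e1 : ∑ a, bw N q a * (if (a ∩ I k).Nonempty then (1 : ℝ) else 0) = 1 - q ^ (I k).card := by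
        rw [← bw_meet q (I k), sum_filter]
        exact sum_congr rfl fun S _ => by split_ifs <;> simp
      have e2 : ∑ a, bw N q a * (if ∀ k ∈ K, (a ∩ I k).Nonempty then (1 : ℝ) else 0) =
          ∑ S ∈ (univ : Finset (Finset (Fin N))).filter (fun S => ∀ k ∈ K, (S ∩ I k).Nonempty),
            (1 - q) ^ S.card * q ^ (N - S.card) := by
        rw [sum_filter]
        exact sum_congr rfl fun S _ => by split_ifs <;> simp [bw]
      have e3 : ∑ a, bw N q a * ((if (a ∩ I k).Nonempty then (1 : ℝ) else 0) *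
          (if ∀ k ∈ K, (a ∩ I k).Nonempty then (1 : ℝ) else 0)) =
          ∑ S ∈ (univ : Finset (Finset (Fin N))).filter (fun S => ∀ k' ∈ insert k K, (S ∩ I k').Nonempty),
            (1 - q) ^ S.card * q ^ (N - S.card) := by
        rw [sum_filter]
        refine sum_congr rfl fun S _ => ?_
        simp only [forall_mem_insert]
        by_cases h2 : (S ∩ I k).Nonempty <;> by_cases h3 : ∀ k ∈ K, (S ∩ I k).Nonempty <;>
          simp [h2, h3, bw]
      rw [e1, e2, e3] at h1
      exact (mul_le_mul_of_nonneg_left ih (h0 k)).trans h1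
    · intro S T hST
      show (if (S ∩ I k).Nonempty then (1 : ℝ) else 0) ≤ if (T ∩ I k).Nonempty then 1 else 0
      by_cases h2 : (S ∩ I k).Nonempty
      · rw [if_pos h2, if_pos (h2.mono (inter_subset_inter_right hST))]
      · rw [if_neg h2]; split_ifs <;> norm_num
    · intro S T hST
      show (if ∀ k ∈ K, (S ∩ I k).Nonempty then (1 : ℝ) else 0) ≤
        if ∀ k ∈ K, (T ∩ I k).Nonempty then 1 else 0
      by_cases h2 : ∀ k ∈ K, (S ∩ I k).Nonempty
      · rw [if_pos h2, if_pos (fun k hk => (h2 k hk).mono (inter_subset_inter_right hST))]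
      · rw [if_neg h2]; split_ifs <;> norm_num

end Pool.GE63S
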