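import Pool.Agent.GE63.Defs
import Pool.Agent.GE63.HarS

set_option autoImplicit false
set_option linter.unusedVariables false

/-!
# GE63/GoodS: minimal comparable intervals (helper27)
-/

namespace Pool.GE63

open Pool.HB45 Pool.SC45

/-- `(i, j)` is a minimal comparable interval -/
private def MinI {N : ℕ} (Q : Rel (N + 1)) (g : Equiv.Perm (Fin (N + 1)))
    (k : Fin (N + 1) × Fin (N + 1)) : Prop :=
  k.1 < k.2 ∧ Q (g k.1) (g k.2) ∧
    ∀ a b : Fin (N + 1), k.1 ≤ a → a < b → b ≤ k.2 → Q (g a) (g b) → a = k.1 ∧ b = k.2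

open Classical in
private lemma good_of_meets {N : ℕ} {Q : Rel (N + 1)} (g : Equiv.Perm (Fin (N + 1)))
    (S : Finset (Fin N))
    (hS : ∀ k ∈ Finset.univ.filter (MinI Q g),
      (S ∩ Finset.univ.filter fun p : Fin N => k.1.val ≤ p.val ∧ p.val < k.2.val).Nonempty) :
    Good Q g S := by
  have key : ∀ m : ℕ, ∀ i j : Fin (N + 1), i < j → j.val - i.val ≤ m → Q (g i) (g j) →
      ∃ p ∈ S, i.val ≤ p.val ∧ p.val < j.val := by
    intro m
    induction m with
    | zero =>
      intro i j hij hm _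
      rw [Fin.lt_def] at hij
      omega
    | succ m ih =>
      intro i j hij hm hQ
      by_cases hmin : MinI Q g (i, j)
      · obtain ⟨p, hp⟩ := hS (i, j) (Finset.mem_filter.2 ⟨Finset.mem_univ _, hmin⟩)
        rw [Finset.mem_inter, Finset.mem_filter] at hp
        exact ⟨p, hp.1, hp.2.2.1, hp.2.2.2⟩
      · have h1 : ∃ a b : Fin (N + 1), i ≤ a ∧ a < b ∧ b ≤ j ∧ Q (g a) (g b) ∧
            ¬ (a = i ∧ b = j) := by
          by_contra hcon
          push Not at hcon
          apply hmin
          refine ⟨hij, hQ, fun a b h1 h2 h3 h4 => ?_⟩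
          have h5 := hcon a b h1 h2 h3 h4
          exact h5
        obtain ⟨a, b, h1, h2, h3, h4, h5⟩ := h1
        have h6 : b.val - a.val ≤ m := by
          rw [Fin.le_def] at h1 h3
          rw [Fin.lt_def] at h2
          by_contra h7
          apply h5
          constructor
          · apply Fin.ext; omega
          · apply Fin.ext; omega
        obtain ⟨p, hp, h7, h8⟩ := ih a b h2 h6 h4
        rw [Fin.le_def] at h1 h3
        exact ⟨p, hp, by omega, by omega⟩
  intro i j hij hQ
  exact key _ i j hij le_rfl hQ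

private lemma card_int {N : ℕ} (i j : Fin (N + 1)) :
    (Finset.univ.filter fun p : Fin N => i.val ≤ p.val ∧ p.val < j.val).card = j.val - i.val := by
  rw [← Finset.card_map Fin.valEmbedding, ← Nat.card_Ico]
  congr 1
  ext x
  simp only [Finset.mem_map, Finset.mem_filter, Finset.mem_univ, true_and, Fin.valEmbedding_apply,
    Finset.mem_Ico]
  constructor
  · rintro ⟨p, ⟨h1, h2⟩, rfl⟩
    exact ⟨h1, h2⟩
  · rintro ⟨h1, h2⟩
    have := j.isLt
    exact ⟨⟨x, by omega⟩, ⟨h1, h2⟩, rfl⟩

open Classical in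
private lemma card_one {N : ℕ} {Q : Rel (N + 1)} {g : Equiv.Perm (Fin (N + 1))} :
    ((Finset.univ.filter (MinI Q g)).filter fun k => k.2.val - k.1.val = 1).card = adj Q g := by
  unfold adj
  symm
  apply Finset.card_bij (fun (p : Fin N) _ => ((p.castSucc, p.succ) : Fin (N + 1) × Fin (N + 1)))
  · intro p hp
    simp only [adjs, Finset.mem_filter, Finset.mem_univ, true_and] at hp
    simp only [Finset.mem_filter, Finset.mem_univ, true_and, Fin.val_succ, Fin.val_castSucc]
    refine ⟨⟨?_, hp, ?_⟩, by omega⟩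
    · rw [Fin.lt_def]; simp
    · intro a b h1 h2 h3 _
      rw [Fin.le_def] at h1 h3
      rw [Fin.lt_def] at h2
      simp only [Fin.val_succ, Fin.val_castSucc] at h1 h3
      constructor
      · apply Fin.ext; simp only [Fin.val_castSucc]; omega
      · apply Fin.ext; simp only [Fin.val_succ]; omega
  · intro p _ p' _ h
    have h1 := congrArg (fun k : Fin (N + 1) × Fin (N + 1) => k.1.val) h
    simp only [Fin.val_castSucc] at h1
    exact Fin.ext h1
  · rintro ⟨i, j⟩ hk
    simp only [Finset.mem_filter, Finset.mem_univ, true_and] at hk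
    obtain ⟨⟨h1, h2, _⟩, h4⟩ := hk
    have hj := j.isLt
    have h5 : (⟨i.val, by omega⟩ : Fin N).castSucc = i := by apply Fin.ext; rfl
    have h6 : (⟨i.val, by omega⟩ : Fin N).succ = j := by
      apply Fin.ext; simp only [Fin.val_succ]; omega
    refine ⟨⟨i.val, by omega⟩, ?_, ?_⟩
    · simp only [adjs, Finset.mem_filter, Finset.mem_univ, true_and]
      rw [h5, h6]
      exact h2
    · rw [h5, h6]

open Classical in
private lemma card_AA {N : ℕ} {Q : Rel (N + 1)} {g : Equiv.Perm (Fin (N + 1))} (d : ℕ)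
    (hd : 1 ≤ d) :
    ((Finset.univ.filter (MinI Q g)).filter fun k => k.2.val - k.1.val = d).card = AA Q d g := by
  unfold AA
  apply Finset.card_bij (fun (k : Fin (N + 1) × Fin (N + 1)) _ => k.1)
  · rintro ⟨i, j⟩ hk
    simp only [Finset.mem_filter, Finset.mem_univ, true_and] at hk ⊢
    obtain ⟨⟨h1, h2, h3⟩, h4⟩ := hk
    simp only at h1 h2 h3 h4
    have hj := j.isLt
    have h5 : i.val + d < N + 1 := by omega
    have h6 : (⟨i.val + d, h5⟩ : Fin (N + 1)) = j := by apply Fin.ext; simp only; omega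
    refine ⟨h5, ?_, ?_⟩
    · rw [h6]; exact h2
    · intro k l h7 h8 h9 h10
      have h11 := h3 k l h7 h8 (by rw [Fin.le_def]; omega) h10
      refine ⟨h11.1, ?_⟩
      rw [h11.2]
      omega
  · rintro ⟨i, j⟩ hk ⟨i', j'⟩ hk' h
    simp only [Finset.mem_filter, Finset.mem_univ, true_and] at hk hk' h
    obtain ⟨⟨h1, _, _⟩, h4⟩ := hk
    obtain ⟨⟨h1', _, _⟩, h4'⟩ := hk'
    rw [Fin.lt_def] at h1 h1'
    simp only at h1 h1' h4 h4'
    subst h
    have : j = j' := by apply Fin.ext; omega
    rw [this]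
  · intro i hi
    simp only [Finset.mem_filter, Finset.mem_univ, true_and] at hi
    obtain ⟨h5, h2, h3⟩ := hi
    refine ⟨(i, ⟨i.val + d, h5⟩), ?_, rfl⟩
    simp only [Finset.mem_filter, Finset.mem_univ, true_and]
    refine ⟨⟨?_, h2, ?_⟩, by omega⟩
    · rw [Fin.lt_def]; simp only; omega
    · intro a b h7 h8 h9 h10
      have h11 := h3 a b h7 h8 h9 h10
      exact ⟨h11.1, Fin.ext h11.2⟩

open Classical in
theorem good_geS {N : ℕ} {Q : Rel (N + 1)} {lab : Fin (N + 1) → ℕ} (hn : Nat' Q lab)
    (g : Equiv.Perm (Fin (N + 1)))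
    (hg : g ∈ LE Q) (q : ℝ) (hq0 : 0 ≤ q) (hq1 : q ≤ 1) :
    (1 - q) ^ adj Q g * ∏ d ∈ Finset.Icc 2 N, (1 - q ^ d) ^ AA Q d g ≤
      ∑ S ∈ (Finset.univ : Finset (Finset (Fin N))).filter (Good Q g),
        (1 - q) ^ S.card * q ^ (N - S.card) := by
  obtain ⟨K, hK⟩ : ∃ K : Finset (Fin (N + 1) × Fin (N + 1)), K = Finset.univ.filter (MinI Q g) :=
    ⟨_, rfl⟩
  have h1 := GE63S.harris K (fun k => Finset.univ.filter fun p : Fin N =>
    k.1.val ≤ p.val ∧ p.val < k.2.val) q hq0 hq1
  have h2 : ∏ k ∈ K, (1 - q ^ (Finset.univ.filter fun p : Fin N =>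
      k.1.val ≤ p.val ∧ p.val < k.2.val).card) =
      (1 - q) ^ adj Q g * ∏ d ∈ Finset.Icc 2 N, (1 - q ^ d) ^ AA Q d g := by
    simp only [card_int]
    rw [← Finset.prod_filter_mul_prod_filter_not K (fun k => k.2.val - k.1.val = 1)]
    congr 1
    · rw [← card_one (Q := Q) (g := g), ← hK, ← Finset.prod_const]
      apply Finset.prod_congr rfl
      intro k hk
      rw [(Finset.mem_filter.1 hk).2, pow_one]
    · rw [← Finset.prod_fiberwise_of_maps_to (s := K.filter fun k => ¬ k.2.val - k.1.val = 1)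
        (t := Finset.Icc 2 N) (g := fun k => k.2.val - k.1.val)]
      · apply Finset.prod_congr rfl
        intro d hd
        rw [Finset.mem_Icc] at hd
        rw [← card_AA (Q := Q) (g := g) d (by omega), ← hK, ← Finset.prod_const]
        apply Finset.prod_congr
        · ext k
          simp only [Finset.mem_filter]
          constructor
          · rintro ⟨⟨h1, _⟩, h3⟩
            exact ⟨h1, h3⟩
          · rintro ⟨h1, h3⟩
            exact ⟨⟨h1, by omega⟩, h3⟩
        · intro k hk
          rw [(Finset.mem_filter.1 hk).2]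
      · intro k hk
        rw [Finset.mem_filter, hK, Finset.mem_filter] at hk
        obtain ⟨⟨_, h3, _⟩, h4⟩ := hk
        rw [Fin.lt_def] at h3
        have := k.2.isLt
        rw [Finset.mem_Icc]
        omega
  rw [h2] at h1
  refine h1.trans ?_
  apply Finset.sum_le_sum_of_subset_of_nonneg
  · intro S hS
    simp only [Finset.mem_filter, Finset.mem_univ, true_and] at hS ⊢
    apply good_of_meets
    rw [← hK]
    intro k hk
    convert hS k hk
  · intro S _ _
    have : 0 ≤ 1 - q := by linarith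
    positivity

end Pool.GE63
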