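import Mathlib

set_option autoImplicit false

/-!
# GE63/PathS: matchings of a path
-/

namespace Pool.GE63

/-- the sum over the subsets without neighbouring elements -/
noncomputable def pfS {N : ℕ} (q : ℝ) (D : Finset (Fin N)) : ℝ :=
  ∑ T ∈ D.powerset, if (∀ p ∈ T, ∀ p' ∈ T, p.val + 1 ≠ p'.val) then q ^ T.card else 0

theorem pfS_nonneg {N : ℕ} {q : ℝ} (hq0 : 0 ≤ q) (D : Finset (Fin N)) : 0 ≤ pfS q D := by
  refine Finset.sum_nonneg fun T _ => ?_
  split_ifs
  · positivity
  · exact le_rfl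

theorem pfS_insert_le {N : ℕ} {q : ℝ} (hq0 : 0 ≤ q) (a : Fin N) (E : Finset (Fin N))
    (ha : a ∉ E) : pfS q (insert a E) ≤ (1 + q) * pfS q E := by
  unfold pfS
  rw [Finset.sum_powerset_insert ha, add_mul, one_mul, Finset.mul_sum]
  refine add_le_add le_rfl (Finset.sum_le_sum fun T hT => ?_)
  have haT : a ∉ T := fun h => ha (Finset.mem_powerset.1 hT h)
  by_cases h : ∀ p ∈ insert a T, ∀ p' ∈ insert a T, p.val + 1 ≠ p'.val
  · have h2 : ∀ p ∈ T, ∀ p' ∈ T, p.val + 1 ≠ p'.val := fun p hp p' hp' =>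
      h p (Finset.mem_insert_of_mem hp) p' (Finset.mem_insert_of_mem hp')
    rw [if_pos h, if_pos h2, Finset.card_insert_of_notMem haT, pow_succ]
    exact le_of_eq (mul_comm _ _)
  · rw [if_neg h]
    split_ifs
    · positivity
    · simp

theorem pfS_insert_max {N : ℕ} (q : ℝ) (a : Fin N) (E : Finset (Fin N))
    (ha : ∀ x ∈ E, x < a) :
    pfS q (insert a E) = pfS q E + q * pfS q (E.filter fun x => x.val + 1 ≠ a.val) := by
  have haE : a ∉ E := fun h => lt_irrefl _ (ha a h)
  unfold pfS
  rw [Finset.sum_powerset_insert haE]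
  congr 1
  rw [Finset.mul_sum]
  symm
  refine Finset.sum_subset_zero_on_sdiff (Finset.powerset_mono.2 (Finset.filter_subset _ _))
    ?_ ?_
  · intro T hT
    rw [Finset.mem_sdiff, Finset.mem_powerset, Finset.mem_powerset] at hT
    rw [if_neg]
    intro h
    apply hT.2
    intro x hx
    rw [Finset.mem_filter]
    exact ⟨hT.1 hx, h x (Finset.mem_insert_of_mem hx) a (Finset.mem_insert_self _ _)⟩
  · intro T hT
    rw [Finset.mem_powerset] at hT
    have haT : a ∉ T := fun h => haE (Finset.mem_filter.1 (hT h)).1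
    have hiff : (∀ p ∈ insert a T, ∀ p' ∈ insert a T, p.val + 1 ≠ p'.val) ↔
        ∀ p ∈ T, ∀ p' ∈ T, p.val + 1 ≠ p'.val := by
      constructor
      · intro h p hp p' hp'
        exact h p (Finset.mem_insert_of_mem hp) p' (Finset.mem_insert_of_mem hp')
      · intro h p hp p' hp'
        rcases Finset.mem_insert.1 hp with e | hp1
        · rcases Finset.mem_insert.1 hp' with e' | hp2
          · rw [e, e']; omega
          · have := ha _ (Finset.mem_filter.1 (hT hp2)).1
            rw [Fin.lt_def] at this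
            rw [e]
            omega
        · rcases Finset.mem_insert.1 hp' with e' | hp2
          · rw [e']
            exact (Finset.mem_filter.1 (hT hp1)).2
          · exact h p hp1 p' hp2
    by_cases h : ∀ p ∈ T, ∀ p' ∈ T, p.val + 1 ≠ p'.val
    · rw [if_pos h, if_pos (hiff.2 h), Finset.card_insert_of_notMem haT, pow_succ, mul_comm]
    · rw [if_neg h, if_neg (fun h' => h (hiff.1 h')), mul_zero]

theorem pfS_filter {N : ℕ} {q : ℝ} (hq0 : 0 ≤ q) (a : Fin N) (E : Finset (Fin N)) :
    pfS q E ≤ (1 + q) * pfS q (E.filter fun x => x.val + 1 ≠ a.val) := by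
  by_cases h : ∃ b ∈ E, b.val + 1 = a.val
  · obtain ⟨b, hb, hba⟩ := h
    have h1 : insert b (E.filter fun x => x.val + 1 ≠ a.val) = E := by
      ext x
      rw [Finset.mem_insert, Finset.mem_filter]
      constructor
      · rintro (rfl | h)
        · exact hb
        · exact h.1
      · intro hx
        by_cases hxa : x.val + 1 = a.val
        · left
          ext
          omega
        · exact Or.inr ⟨hx, hxa⟩
    have h2 := pfS_insert_le hq0 b (E.filter fun x => x.val + 1 ≠ a.val) (by
      rw [Finset.mem_filter]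
      exact fun h => h.2 hba)
    rwa [h1] at h2
  · have h1 : (E.filter fun x => x.val + 1 ≠ a.val) = E := by
      rw [Finset.filter_eq_self]
      intro x hx hxa
      exact h ⟨x, hx, hxa⟩
    rw [h1]
    nlinarith [pfS_nonneg hq0 E]

theorem path_geS {N : ℕ} (D : Finset (Fin N)) (q : ℝ) (hq0 : 0 ≤ q) (hq1 : q ≤ 1) :
    ((1 + q) * (1 - q ^ 2)) ^ D.card ≤
      ∑ T ∈ D.powerset.filter (fun T => ∀ p ∈ T, ∀ p' ∈ T, p.val + 1 ≠ p'.val), q ^ T.card := by
  rw [Finset.sum_filter]
  change _ ≤ pfS q D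
  have hc : 0 ≤ (1 + q) * (1 - q ^ 2) := by
    have : q ^ 2 ≤ 1 := by nlinarith
    exact mul_nonneg (by linarith) (by linarith)
  induction D using Finset.induction_on_max with
  | empty => simp [pfS]
  | insert a s hs ih =>
    have has : a ∉ s := fun h => lt_irrefl _ (hs a h)
    rw [Finset.card_insert_of_notMem has, pow_succ, pfS_insert_max q a s hs]
    have h1 := pfS_filter hq0 a s
    have h0 := pfS_nonneg hq0 (s.filter fun x => x.val + 1 ≠ a.val)
    have h2 := pfS_nonneg hq0 s
    set F := pfS q s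
    set F' := pfS q (s.filter fun x => x.val + 1 ≠ a.val)
    have h3 : ((1 + q) * (1 - q ^ 2)) ^ s.card * ((1 + q) * (1 - q ^ 2)) ≤
        F * ((1 + q) * (1 - q ^ 2)) := mul_le_mul_of_nonneg_right ih hc
    refine h3.trans ?_
    have h4 : (1 + q) * (F * ((1 + q) * (1 - q ^ 2))) ≤ (1 + q) * (F + q * F') := by
      have e1 : q * F ≤ q * ((1 + q) * F') := mul_le_mul_of_nonneg_left h1 hq0
      have e2 : (1 + q) * ((1 + q) * (1 - q ^ 2)) ≤ 1 + 2 * q := by
        nlinarith [pow_nonneg hq0 3, pow_nonneg hq0 4]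
      have e3 : F * ((1 + q) * ((1 + q) * (1 - q ^ 2))) ≤ F * (1 + 2 * q) :=
        mul_le_mul_of_nonneg_left e2 h2
      nlinarith
    exact le_of_mul_le_mul_left h4 (by linarith)

end Pool.GE63
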