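import Pool.Agent.GE63.Defs
import Pool.Agent.GE63.PathS
import Pool.Agent.GE63.HarS
import Pool.Agent.GE63.GoodS

set_option autoImplicit false

/-!
# GE63/Har: Harris inequality and matchings of a path (STUB)
-/

namespace Pool.GE63

open Pool.HB45 Pool.SC45

/-- HARRIS for finitely many increasing events of a product Bernoulli measure on subsets of `Fin N`
(`p ∉ S` with probability `q`): `∏_k Pr(E_k) ≤ Pr(∩ E_k)`. PROOF. Induction on the family, Mathlib `fkg` on the lattice
`Finset (Fin N)` with the modular weight `(1-q)^|S| q^(N-|S|)` (total mass 1). `E k` = `S` meets `I k`,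
`Pr(E k) = 1 - q^|I k|`. -/
theorem harris {N : ℕ} {κ : Type} [DecidableEq κ] (K : Finset κ) (I : κ → Finset (Fin N)) (q : ℝ)
    (hq0 : 0 ≤ q) (hq1 : q ≤ 1) :
    ∏ k ∈ K, (1 - q ^ (I k).card) ≤
      ∑ S ∈ (Finset.univ : Finset (Finset (Fin N))).filter (fun S => ∀ k ∈ K, (S ∩ I k).Nonempty),
        (1 - q) ^ S.card * q ^ (N - S.card) := by
  convert GE63S.harris K I q hq0 hq1

open Classical in
/-- PROOF. `harris` for the intervals `{p}`, `p ∈ adjs Q g`, and `[i, i + d)` for the minimal comparable intervals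
counted by `AA Q d g`, `2 ≤ d ≤ N`. A set `S` that meets them all is good: a comparable pair of positions contains
a comparable pair with the smallest distance, which is a comparable neighbour pair or counted by some `AA`. -/
theorem good_ge {N : ℕ} {Q : Rel (N + 1)} {lab : Fin (N + 1) → ℕ} (hn : Nat' Q lab) (g : Equiv.Perm (Fin (N + 1)))
    (hg : g ∈ LE Q) (q : ℝ) (hq0 : 0 ≤ q) (hq1 : q ≤ 1) :
    (1 - q) ^ adj Q g * ∏ d ∈ Finset.Icc 2 N, (1 - q ^ d) ^ AA Q d g ≤
      ∑ S ∈ (Finset.univ : Finset (Finset (Fin N))).filter (Good Q g),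
        (1 - q) ^ S.card * q ^ (N - S.card) := by
  exact good_geS hn g hg q hq0 hq1

/-- MATCHINGS. For every finite set `D` of positions
`∑_(T ⊆ D, no two neighbouring) q^|T| ≥ ((1 + q)(1 - q^2))^|D|`. PROOF. Induction on `|D|`: let `p` be the largest element;
`f(D) = f(D - p) + q f(D - p - (p-1))`, and `f(D - p) ≤ (1 + q) f(D - p - (p-1))`, so
`f(D) ≥ f(D - p) (1 + q/(1+q)) ≥ f(D - p) (1+q)(1-q^2)`. -/
theorem path_ge {N : ℕ} (D : Finset (Fin N)) (q : ℝ) (hq0 : 0 ≤ q) (hq1 : q ≤ 1) :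
    ((1 + q) * (1 - q ^ 2)) ^ D.card ≤
      ∑ T ∈ D.powerset.filter (fun T => ∀ p ∈ T, ∀ p' ∈ T, p.val + 1 ≠ p'.val), q ^ T.card := by
  exact path_geS D q hq0 hq1

end Pool.GE63
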