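import Mathlib

set_option autoImplicit false

/-!
# GE63/LimS82: proof of the statements of GE63/Lim
-/

open Filter Topology

namespace Pool.GE63

theorem pow_dblS82 (r : ℝ → ℝ) (hr : ∀ v, 0 ≤ r v) (hdbl : ∀ t, r (2 * t) ≤ r t ^ 2) (w : ℝ)
    (k : ℕ) : r w ≤ r (w / 2 ^ k) ^ 2 ^ k := by
  induction k with
  | zero => simp
  | succ k ih =>
    refine ih.trans ?_
    have h1 : r (w / 2 ^ k) ≤ r (w / 2 ^ (k + 1)) ^ 2 := by
      have := hdbl (w / 2 ^ (k + 1))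
      have h2 : 2 * (w / 2 ^ (k + 1)) = w / 2 ^ k := by
        rw [pow_succ]
        field_simp
      rwa [h2] at this
    calc r (w / 2 ^ k) ^ 2 ^ k ≤ (r (w / 2 ^ (k + 1)) ^ 2) ^ 2 ^ k :=
          pow_le_pow_left₀ (hr _) h1 _
      _ = r (w / 2 ^ (k + 1)) ^ 2 ^ (k + 1) := by
          rw [← pow_mul]
          congr 1
          rw [pow_succ]
          ring

theorem lim_coreS82 (r : ℝ → ℝ) (hr : ∀ v, 0 ≤ r v) (hdbl : ∀ t, r (2 * t) ≤ r t ^ 2) (w : ℝ)
    (g : ℕ → ℝ) (c : ℝ) (hg : Tendsto (fun n : ℕ => (n : ℝ) * g n) atTop (𝓝 c))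
    (hb : ∀ᶠ k : ℕ in atTop, r (w / 2 ^ k) * (1 + g (2 ^ k)) ≤ 1 ∧ 0 ≤ 1 + g (2 ^ k)) :
    r w * Real.exp c ≤ 1 := by
  have h1 : Tendsto (fun n : ℕ => (1 + g n) ^ n) atTop (𝓝 (Real.exp c)) :=
    Real.tendsto_one_add_pow_exp_of_tendsto hg
  have h2 : Tendsto (fun k : ℕ => 2 ^ k) atTop atTop :=
    tendsto_pow_atTop_atTop_of_one_lt (by norm_num : 1 < 2)
  have h3 : Tendsto (fun k : ℕ => r w * (1 + g (2 ^ k)) ^ 2 ^ k) atTop (𝓝 (r w * Real.exp c)) :=
    (h1.comp h2).const_mul (r w)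
  refine le_of_tendsto h3 ?_
  filter_upwards [hb] with k hk
  calc r w * (1 + g (2 ^ k)) ^ 2 ^ k ≤ r (w / 2 ^ k) ^ 2 ^ k * (1 + g (2 ^ k)) ^ 2 ^ k :=
        mul_le_mul_of_nonneg_right (pow_dblS82 r hr hdbl w k) (pow_nonneg hk.2 _)
    _ = (r (w / 2 ^ k) * (1 + g (2 ^ k))) ^ 2 ^ k := (mul_pow _ _ _).symm
    _ ≤ 1 := pow_le_one₀ (mul_nonneg (hr _) hk.2) hk.1

theorem tendsto_qS82 (v : ℝ) (hv : 0 ≤ v) :
    Tendsto (fun n : ℕ => (n : ℝ) * (1 - Real.exp (-(v / n)))) atTop (𝓝 v) := by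
  have h0 : Tendsto (fun n : ℕ => v / (n : ℝ)) atTop (𝓝 0) :=
    tendsto_const_div_atTop_nhds_zero_nat v
  have h1 : Tendsto (fun n : ℕ => v / (1 + v / (n : ℝ))) atTop (𝓝 v) := by
    have h2 : Tendsto (fun n : ℕ => v / (1 + v / (n : ℝ))) atTop (𝓝 (v / (1 + 0))) :=
      tendsto_const_nhds.div (tendsto_const_nhds.add h0) (by norm_num)
    rwa [add_zero, div_one] at h2
  refine tendsto_of_tendsto_of_tendsto_of_le_of_le' h1 tendsto_const_nhds ?_ ?_
  · filter_upwards [eventually_gt_atTop 0] with n hn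
    have hn0 : (0 : ℝ) < n := by exact_mod_cast hn
    have hy : 0 ≤ v / (n : ℝ) := by positivity
    have h3 : Real.exp (-(v / n)) ≤ 1 / (1 + v / n) := by
      rw [Real.exp_neg, ← one_div]
      apply one_div_le_one_div_of_le (by positivity)
      have := Real.add_one_le_exp (v / n)
      linarith
    have h4 : v / (1 + v / (n : ℝ)) = n * (1 - 1 / (1 + v / n)) := by
      field_simp
      ring
    rw [h4]
    exact mul_le_mul_of_nonneg_left (by linarith) hn0.le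
  · filter_upwards [eventually_gt_atTop 0] with n hn
    have hn0 : (0 : ℝ) < n := by exact_mod_cast hn
    have h3 : 1 - Real.exp (-(v / n)) ≤ v / n := by
      have := Real.add_one_le_exp (-(v / n))
      linarith
    calc (n : ℝ) * (1 - Real.exp (-(v / n))) ≤ n * (v / n) := mul_le_mul_of_nonneg_left h3 hn0.le
      _ = v := by field_simp

theorem tendsto_q0S82 (v : ℝ) :
    Tendsto (fun n : ℕ => (1 - Real.exp (-(v / n)))) atTop (𝓝 0) := by
  have h0 : Tendsto (fun n : ℕ => v / (n : ℝ)) atTop (𝓝 0) :=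
    tendsto_const_div_atTop_nhds_zero_nat v
  have h1 : Tendsto (fun n : ℕ => (1 - Real.exp (-(v / n)))) atTop (𝓝 (1 - Real.exp (-0))) :=
    tendsto_const_nhds.sub ((Real.continuous_exp.tendsto _).comp h0.neg)
  rwa [neg_zero, Real.exp_zero, sub_self] at h1

section

variable (z : ℝ → ℝ) (hz : ∀ v, 0 ≤ z v) (hz0 : 0 < z 0)
    (hmid : ∀ v v', z v * z v' ≤ z ((v + v') / 2) ^ 2)

include hz0 hmid

theorem r_dblS82 (t : ℝ) : z (2 * t) / z 0 ≤ (z t / z 0) ^ 2 := by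
  have h1 := hmid (2 * t) 0
  have h2 : (2 * t + 0) / 2 = t := by ring
  rw [h2] at h1
  rw [div_pow, div_le_div_iff₀ hz0 (by positivity)]
  calc z (2 * t) * z 0 ^ 2 = (z (2 * t) * z 0) * z 0 := by ring
    _ ≤ z t ^ 2 * z 0 := mul_le_mul_of_nonneg_right h1 hz0.le

theorem r_symS82 (t : ℝ) : (z t / z 0) * (z (-t) / z 0) ≤ 1 := by
  have h1 := hmid t (-t)
  have h2 : (t + -t) / 2 = 0 := by ring
  rw [h2] at h1
  rw [div_mul_div_comm, div_le_one (by positivity)]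
  calc z t * z (-t) ≤ z 0 ^ 2 := h1
    _ = z 0 * z 0 := sq _

include hz

theorem lim_posS82 (G : ℝ) (hG : 0 ≤ G)
    (h1 : ∀ t, 0 ≤ t → z 0 * (1 + G * (1 - Real.exp (-t))) ≤ z (-t)) (v : ℝ) (hv : 0 ≤ v) :
    z v ≤ z 0 * Real.exp (-(v * G)) := by
  have hg : Tendsto (fun n : ℕ => (n : ℝ) * (G * (1 - Real.exp (-(v / n))))) atTop
      (𝓝 (v * G)) := by
    have h2 := (tendsto_qS82 v hv).mul_const G
    refine h2.congr fun n => ?_
    ring
  have hmain := lim_coreS82 (fun t => z t / z 0) (fun t => div_nonneg (hz t) hz0.le)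
    (r_dblS82 z hz0 hmid) v (fun n => G * (1 - Real.exp (-(v / n)))) (v * G) hg (by
    refine Eventually.of_forall fun k => ?_
    have hk0 : (0 : ℝ) < 2 ^ k := by positivity
    have ht : 0 ≤ v / 2 ^ k := by positivity
    have h3 := h1 (v / 2 ^ k) ht
    have h4 : 0 ≤ 1 - Real.exp (-(v / 2 ^ k)) := by
      rw [sub_nonneg, Real.exp_le_one_iff]
      linarith
    have hpos : 0 ≤ 1 + G * (1 - Real.exp (-(v / 2 ^ k))) := by positivity
    push_cast
    refine ⟨?_, hpos⟩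
    have h5 : 1 + G * (1 - Real.exp (-(v / 2 ^ k))) ≤ z (-(v / 2 ^ k)) / z 0 := by
      rw [le_div_iff₀ hz0]
      linarith
    exact (mul_le_mul_of_nonneg_left h5 (div_nonneg (hz _) hz0.le)).trans
      (r_symS82 z hz0 hmid _))
  have h6 : z v / z 0 * Real.exp (v * G) ≤ 1 := hmain
  rw [div_mul_eq_mul_div, div_le_one hz0] at h6
  rw [Real.exp_neg, ← div_eq_mul_inv, le_div_iff₀ (Real.exp_pos _)]
  exact h6

theorem lim_negS82 (G B : ℝ)
    (h1 : ∀ t, 0 ≤ t → z 0 * (1 - G * (1 - Real.exp (-t)) - B * (1 - Real.exp (-t)) ^ 2) ≤ z t)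
    (v : ℝ) (hv : 0 ≤ v) : z (-v) ≤ z 0 * Real.exp (v * G) := by
  set g : ℕ → ℝ := fun n => -(G * (1 - Real.exp (-(v / n)))) -
    B * (1 - Real.exp (-(v / n))) ^ 2 with hgdef
  have hg : Tendsto (fun n : ℕ => (n : ℝ) * g n) atTop (𝓝 (-(v * G))) := by
    have h2 := ((tendsto_qS82 v hv).mul_const G).neg
    have h3 := (((tendsto_qS82 v hv).mul (tendsto_q0S82 v))).const_mul B
    have h4 := h2.sub h3
    rw [mul_zero, mul_zero, sub_zero] at h4
    refine h4.congr fun n => ?_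
    rw [hgdef]
    ring
  have hg0 : Tendsto (fun n : ℕ => 1 + g n) atTop (𝓝 1) := by
    have h2 := ((tendsto_q0S82 v).const_mul G).neg
    have h3 := ((tendsto_q0S82 v).pow 2).const_mul B
    have h4 := (h2.sub h3).const_add 1
    have h5 : (1 : ℝ) + (-(G * 0) - B * 0 ^ 2) = 1 := by ring
    rw [h5] at h4
    exact h4
  have h2p : Tendsto (fun k : ℕ => 2 ^ k) atTop atTop :=
    tendsto_pow_atTop_atTop_of_one_lt (by norm_num : 1 < 2)
  have hev : ∀ᶠ k : ℕ in atTop, 0 < 1 + g (2 ^ k) :=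
    (hg0.comp h2p).eventually (lt_mem_nhds (by norm_num))
  have hmain := lim_coreS82 (fun t => z t / z 0) (fun t => div_nonneg (hz t) hz0.le)
    (r_dblS82 z hz0 hmid) (-v) g (-(v * G)) hg (by
    filter_upwards [hev] with k hk
    have hk0 : (0 : ℝ) < 2 ^ k := by positivity
    have ht : 0 ≤ v / 2 ^ k := by positivity
    have h3 := h1 (v / 2 ^ k) ht
    refine ⟨?_, hk.le⟩
    have h5 : 1 + g (2 ^ k) ≤ z (v / 2 ^ k) / z 0 := by
      rw [le_div_iff₀ hz0, hgdef]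
      push_cast
      linarith
    have h6 := r_symS82 z hz0 hmid (v / 2 ^ k)
    have h7 : (-v) / 2 ^ k = -(v / 2 ^ k) := by ring
    simp only [h7]
    have h8 := mul_le_mul_of_nonneg_left h5 (div_nonneg (hz (-(v / 2 ^ k))) hz0.le)
    linarith)
  have h6 : z (-v) / z 0 * Real.exp (-(v * G)) ≤ 1 := hmain
  rw [div_mul_eq_mul_div, div_le_one hz0, Real.exp_neg, ← div_eq_mul_inv,
    div_le_iff₀ (Real.exp_pos _)] at h6
  exact h6

end

end Pool.GE63
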