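import Pool.Agent.GE63.Defs
import Pool.Agent.GE63.LimS82

set_option autoImplicit false
set_option linter.unusedVariables false

/-!
# GE63/Lim: from midpoint log-concavity and the first order at 0 to exponential bounds
-/

namespace Pool.GE63

/-- PROOF. `t = v / 2^k`, `z t * z (-t) ≤ z 0 ^ 2` (midpoint of `t, -t`), `z (2^k t) z 0^(2^k - 1) ≤ z t ^ (2^k)` (induction:
`z (2 t) z 0 ≤ z t ^ 2`). So `z v / z 0 ≤ (z 0 / z (-t)) ^ (2^k) ≤ (1 + G q_t)^(-2^k) → e^(-v G)` as `k → ∞`. -/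
theorem lim_pos (z : ℝ → ℝ) (hz : ∀ v, 0 ≤ z v) (hz0 : 0 < z 0)
    (hmid : ∀ v v', z v * z v' ≤ z ((v + v') / 2) ^ 2) (G : ℝ) (hG : 0 ≤ G)
    (h1 : ∀ t, 0 ≤ t → z 0 * (1 + G * (1 - Real.exp (-t))) ≤ z (-t)) (v : ℝ) (hv : 0 ≤ v) :
    z v ≤ z 0 * Real.exp (-(v * G)) :=
  lim_posS82 z hz hz0 hmid G hG h1 v hv

/-- PROOF. The same with the signs exchanged: `z (-v) / z 0 ≤ (z 0 / z t) ^ (2^k)`,
`z t / z 0 ≥ 1 - G q_t - B q_t^2`. -/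
theorem lim_neg (z : ℝ → ℝ) (hz : ∀ v, 0 ≤ z v) (hz0 : 0 < z 0)
    (hmid : ∀ v v', z v * z v' ≤ z ((v + v') / 2) ^ 2) (G B : ℝ) (hG : 0 ≤ G) (hB : 0 ≤ B)
    (h1 : ∀ t, 0 ≤ t → z 0 * (1 - G * (1 - Real.exp (-t)) - B * (1 - Real.exp (-t)) ^ 2) ≤ z t)
    (v : ℝ) (hv : 0 ≤ v) : z (-v) ≤ z 0 * Real.exp (v * G) :=
  lim_negS82 z hz hz0 hmid G B h1 v hv

end Pool.GE63
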