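import Pool.Agent.GE63.Ord

set_option autoImplicit false

/-!
# GE63/Low: `Z` in terms of words

Regions of different orders `g`, and for one `g` with different patterns, are disjoint; all are measurable.
-/

open MeasureTheory

namespace Pool.GE63

open Pool.HB45 Pool.SC45

theorem OR_meas {N : ℕ} (g : Equiv.Perm (Fin (N + 1))) (v : ℝ) (S T : Finset (Fin N)) :
    MeasurableSet (OR g v S T) := by
  have hx : ∀ i, Measurable fun x : Fin (N + 1) → ℝ => x i := fun i => measurable_pi_apply i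
  have h1 : OR g v S T = {x | 0 < x (g 0)} ∩ (⋂ p : Fin N, {x | x (g p.castSucc) < x (g p.succ)}) ∩
      (⋂ p ∈ S, {x | v < x (g p.succ) - x (g p.castSucc)}) ∩
      ⋂ p ∈ T, {x | x (g p.succ) - x (g p.castSucc) ≤ v} := by
    ext x
    simp only [OR, Set.mem_ofPred_eq, Set.mem_inter_iff, Set.mem_iInter, and_assoc]
  rw [h1]
  refine (((measurableSet_lt measurable_const (hx _)).inter ?_).inter ?_).inter ?_
  · exact MeasurableSet.iInter fun p => measurableSet_lt (hx _) (hx _)
  · exact Finset.measurableSet_biInter _ fun p _ =>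
      measurableSet_lt measurable_const ((hx _).sub (hx _))
  · exact Finset.measurableSet_biInter _ fun p _ =>
      measurableSet_le ((hx _).sub (hx _)) measurable_const

theorem OR_strict {N : ℕ} {g : Equiv.Perm (Fin (N + 1))} {v : ℝ} {S T : Finset (Fin N)}
    {x : Fin (N + 1) → ℝ} (hx : x ∈ OR g v S T) : StrictMono (fun i => x (g i)) :=
  Fin.strictMono_iff_lt_succ.mpr hx.2.1

theorem OR_pos {N : ℕ} {g : Equiv.Perm (Fin (N + 1))} {v : ℝ} {S T : Finset (Fin N)}
    {x : Fin (N + 1) → ℝ} (hx : x ∈ OR g v S T) (a : Fin (N + 1)) : 0 < x a := by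
  have h1 : x (g 0) ≤ x (g (g.symm a)) := (OR_strict hx).monotone (Fin.zero_le _)
  rw [Equiv.apply_symm_apply] at h1
  exact lt_of_lt_of_le hx.1 h1

theorem OR_order {N : ℕ} {g g' : Equiv.Perm (Fin (N + 1))} {v v' : ℝ} {S T S' T' : Finset (Fin N)}
    {x : Fin (N + 1) → ℝ} (hx : x ∈ OR g v S T) (hx' : x ∈ OR g' v' S' T') : g = g' := by
  have h1 : (fun i => x (g i)) = fun i => x (g' i) := by
    refine ((OR_strict hx).range_inj (OR_strict hx')).mp ?_
    have e1 : Set.range (fun i => x (g i)) = Set.range x := g.surjective.range_comp x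
    have e2 : Set.range (fun i => x (g' i)) = Set.range x := g'.surjective.range_comp x
    rw [e1, e2]
  have hinj : Function.Injective x := by
    intro a b hab
    have h2 : g.symm a = g.symm b := (OR_strict hx).injective (by
      show x (g (g.symm a)) = x (g (g.symm b))
      rw [Equiv.apply_symm_apply, Equiv.apply_symm_apply]
      exact hab)
    exact g.symm.injective h2
  apply Equiv.ext
  intro i
  exact hinj (congrFun h1 i)

theorem OR_base {N : ℕ} (g : Equiv.Perm (Fin (N + 1))) :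
    ∫⁻ x in OR g 0 ∅ ∅, ENNReal.ofReal (Real.exp (-(mx x))) = I0 N := by
  rw [OR_int g 0 le_rfl ∅ ∅ (Finset.disjoint_empty_left _)]
  simp

/-- PROOF. A point of `DD Q 0` without ties has a unique order `g` (sort the coordinates), `g ∈ LE Q`; conversely
`OR g 0 ∅ ∅ ⊆ DD Q 0` for `g ∈ LE Q`. `ties_null`, `OR_int`. (`Q` irreflexive because of `Nat'`.) -/
theorem Z_zero {N : ℕ} {Q : Rel (N + 1)} {lab : Fin (N + 1) → ℕ} (hn : Nat' Q lab) :
    Z Q 0 = (LE Q).card * I0 N := by
  have hsum : ∫⁻ x in ⋃ g ∈ LE Q, OR g 0 ∅ ∅, ENNReal.ofReal (Real.exp (-(mx x))) =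
      (LE Q).card * I0 N := by
    rw [lintegral_biUnion_finset]
    · rw [Finset.sum_congr rfl (fun g _ => OR_base g), Finset.sum_const, nsmul_eq_mul]
    · intro g _ g' _ hgg
      rw [Function.onFun, Set.disjoint_left]
      intro x hx hx'
      exact hgg (OR_order hx hx')
    · exact fun g _ => OR_meas g 0 ∅ ∅
  apply le_antisymm
  · have hsub : DD Q 0 ⊆ (⋃ g ∈ LE Q, OR g 0 ∅ ∅) ∪
        {x : Fin (N + 1) → ℝ | (∃ a, x a = 0) ∨ ∃ a b, a ≠ b ∧ x a = x b} := by
      intro x hx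
      by_cases ht : (∃ a, x a = 0) ∨ ∃ a b, a ≠ b ∧ x a = x b
      · exact Or.inr ht
      · left
        push Not at ht
        obtain ⟨h0, hne⟩ := ht
        have hinj : Function.Injective x := fun a b hab => by
          by_contra h
          exact hne a b h hab
        have hmono : Monotone (x ∘ Tuple.sort x) := Tuple.monotone_sort x
        have hstr : StrictMono (x ∘ Tuple.sort x) :=
          hmono.strictMono_of_injective (hinj.comp (Tuple.sort x).injective)
        rw [Set.mem_iUnion₂]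
        refine ⟨Tuple.sort x, ?_, ?_, ?_, ?_, ?_⟩
        · rw [mem_LE]
          intro i j hij
          have h2 := hx.2 _ _ hij
          rw [add_zero] at h2
          have h3 : i ≤ j := hstr.le_iff_le.mp h2
          refine lt_of_le_of_ne h3 ?_
          rintro rfl
          exact lt_irrefl _ (hn.mono _ _ hij)
        · exact lt_of_le_of_ne (hx.1 _) (Ne.symm (h0 _))
        · intro p
          exact hstr (Fin.castSucc_lt_succ)
        · intro p hp
          exact absurd hp (Finset.notMem_empty _)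
        · intro p hp
          exact absurd hp (Finset.notMem_empty _)
    calc Z Q 0 = ∫⁻ x in DD Q 0, ENNReal.ofReal (Real.exp (-(mx x))) := rfl
      _ ≤ ∫⁻ x in (⋃ g ∈ LE Q, OR g 0 ∅ ∅) ∪
        {x : Fin (N + 1) → ℝ | (∃ a, x a = 0) ∨ ∃ a b, a ≠ b ∧ x a = x b},
          ENNReal.ofReal (Real.exp (-(mx x))) := lintegral_mono_set hsub
      _ ≤ (∫⁻ x in ⋃ g ∈ LE Q, OR g 0 ∅ ∅, ENNReal.ofReal (Real.exp (-(mx x)))) +
          ∫⁻ x in {x : Fin (N + 1) → ℝ | (∃ a, x a = 0) ∨ ∃ a b, a ≠ b ∧ x a = x b},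
            ENNReal.ofReal (Real.exp (-(mx x))) := lintegral_union_le _ _ _
      _ = (LE Q).card * I0 N := by
          rw [hsum, setLIntegral_measure_zero _ _ (ties_null N), add_zero]
  · rw [← hsum]
    refine lintegral_mono_set ?_
    intro x hx
    rw [Set.mem_iUnion₂] at hx
    obtain ⟨g, hg, hx⟩ := hx
    refine ⟨fun a => (OR_pos hx a).le, fun a b hab => ?_⟩
    have h2 : g.symm a < g.symm b := by
      rw [mem_LE] at hg
      apply hg
      rw [Equiv.apply_symm_apply, Equiv.apply_symm_apply]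
      exact hab
    have h3 := OR_strict hx h2
    simp only [Equiv.apply_symm_apply] at h3
    linarith

open Classical in
/-- PROOF. For `g ∈ LE Q` and good `S` the region `OR g v S Sᶜ` is contained in `DD Q v`. -/
theorem Z_pos {N : ℕ} {Q : Rel (N + 1)} {lab : Fin (N + 1) → ℕ} (hn : Nat' Q lab) (v : ℝ) (hv : 0 ≤ v) :
    ENNReal.ofReal (∑ g ∈ LE Q, ∑ S ∈ (Finset.univ : Finset (Finset (Fin N))).filter (Good Q g),
      Real.exp (-v) ^ S.card * (1 - Real.exp (-v)) ^ (N - S.card)) * I0 N ≤ Z Q v := by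
  have he0 : 0 ≤ Real.exp (-v) := (Real.exp_pos _).le
  have he1 : 0 ≤ 1 - Real.exp (-v) := by
    have : Real.exp (-v) ≤ 1 := Real.exp_le_one_iff.mpr (by linarith)
    linarith
  set K : Finset (Σ _ : Equiv.Perm (Fin (N + 1)), Finset (Fin N)) :=
    (LE Q).sigma fun g => (Finset.univ : Finset (Finset (Fin N))).filter (Good Q g) with hK
  have h1 : ENNReal.ofReal (∑ g ∈ LE Q, ∑ S ∈ (Finset.univ : Finset (Finset (Fin N))).filter (Good Q g),
      Real.exp (-v) ^ S.card * (1 - Real.exp (-v)) ^ (N - S.card)) * I0 N =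
      ∑ k ∈ K, ∫⁻ x in OR k.1 v k.2 k.2ᶜ, ENNReal.ofReal (Real.exp (-(mx x))) := by
    rw [← Finset.sum_sigma (s := LE Q)
      (t := fun g => (Finset.univ : Finset (Finset (Fin N))).filter (Good Q g))
      (f := fun k => Real.exp (-v) ^ k.2.card * (1 - Real.exp (-v)) ^ (N - k.2.card)),
      ENNReal.ofReal_sum_of_nonneg (fun k _ => by positivity), Finset.sum_mul]
    refine Finset.sum_congr rfl fun k _ => ?_
    rw [OR_int k.1 v hv k.2 k.2ᶜ disjoint_compl_right, Finset.card_compl, Fintype.card_fin]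
  rw [h1, ← lintegral_biUnion_finset]
  · refine lintegral_mono_set ?_
    intro x hx
    rw [Set.mem_iUnion₂] at hx
    obtain ⟨⟨g, S⟩, hk, hx⟩ := hx
    rw [hK, Finset.mem_sigma, Finset.mem_filter] at hk
    obtain ⟨hg, -, hgood⟩ := hk
    have hx' : x ∈ OR g v S Sᶜ := hx
    refine ⟨fun a => (OR_pos hx' a).le, fun a b hab => ?_⟩
    have h2 : g.symm a < g.symm b := by
      have hg' := hg
      rw [mem_LE] at hg'
      apply hg'
      rw [Equiv.apply_symm_apply, Equiv.apply_symm_apply]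
      exact hab
    obtain ⟨p, hpS, hp1, hp2⟩ := hgood (g.symm a) (g.symm b) h2 (by
      rw [Equiv.apply_symm_apply, Equiv.apply_symm_apply]
      exact hab)
    have hm := (OR_strict hx').monotone
    have h3 : x (g (g.symm a)) ≤ x (g p.castSucc) := hm (by
      rw [Fin.le_def]
      exact hp1)
    have h4 : x (g p.succ) ≤ x (g (g.symm b)) := hm (by
      rw [Fin.le_def, Fin.val_succ]
      exact hp2)
    rw [Equiv.apply_symm_apply] at h3 h4
    have h5 := hx'.2.2.1 p hpS
    linarith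
  · rintro ⟨g, S⟩ _ ⟨g', S'⟩ _ hne
    rw [Function.onFun, Set.disjoint_left]
    intro x hx hx'
    apply hne
    have h2 : g = g' := OR_order hx hx'
    subst h2
    have h3 : S = S' := by
      ext p
      constructor
      · intro hp
        by_contra hp'
        have h4 := hx.2.2.1 p hp
        have h5 := hx'.2.2.2 p (Finset.mem_compl.mpr hp')
        linarith
      · intro hp
        by_contra hp'
        have h4 := hx'.2.2.1 p hp
        have h5 := hx.2.2.2 p (Finset.mem_compl.mpr hp')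
        linarith
    rw [h3]
  · exact fun k _ => OR_meas _ _ _ _

/-! ### exchanging the letters at the positions of a matching -/

open Classical in
/-- values of the exchange -/
noncomputable def sfv {N : ℕ} (T : Finset (Fin N)) (i : ℕ) : ℕ :=
  if ∃ p ∈ T, p.val = i then i + 1 else if ∃ p ∈ T, p.val + 1 = i then i - 1 else i

theorem sfv_lt {N : ℕ} (T : Finset (Fin N)) {i : ℕ} (hi : i < N + 1) : sfv T i < N + 1 := by
  unfold sfv
  split_ifs with h1 h2
  · obtain ⟨p, _, rfl⟩ := h1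
    have := p.isLt
    omega
  · omega
  · exact hi

theorem sfv_sfv {N : ℕ} {T : Finset (Fin N)} (hT : ∀ p ∈ T, ∀ p' ∈ T, p.val + 1 ≠ p'.val) (i : ℕ) :
    sfv T (sfv T i) = i := by
  by_cases h1 : ∃ p ∈ T, p.val = i
  · have e1 : sfv T i = i + 1 := if_pos h1
    obtain ⟨p, hp, hpi⟩ := h1
    have h2 : ¬ ∃ q ∈ T, q.val = i + 1 := by
      rintro ⟨q, hq, hqi⟩
      exact hT p hp q hq (by omega)
    have h3 : ∃ q ∈ T, q.val + 1 = i + 1 := ⟨p, hp, by omega⟩
    rw [e1]
    unfold sfv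
    rw [if_neg h2, if_pos h3]
    rfl
  · by_cases h2 : ∃ p ∈ T, p.val + 1 = i
    · have e1 : sfv T i = i - 1 := by
        unfold sfv
        rw [if_neg h1, if_pos h2]
      obtain ⟨p, hp, hpi⟩ := h2
      have h3 : ∃ q ∈ T, q.val = i - 1 := ⟨p, hp, by omega⟩
      rw [e1]
      unfold sfv
      rw [if_pos h3]
      omega
    · have e1 : sfv T i = i := by
        unfold sfv
        rw [if_neg h1, if_neg h2]
      rw [e1, e1]

/-- the exchange as a permutation -/
noncomputable def sfp {N : ℕ} (T : Finset (Fin N)) (hT : ∀ p ∈ T, ∀ p' ∈ T, p.val + 1 ≠ p'.val) :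
    Equiv.Perm (Fin (N + 1)) :=
  Function.Involutive.toPerm (fun i => ⟨sfv T i.val, sfv_lt T i.isLt⟩) (fun i => Fin.ext (sfv_sfv hT i.val))

theorem sfp_val {N : ℕ} (T : Finset (Fin N)) (hT : ∀ p ∈ T, ∀ p' ∈ T, p.val + 1 ≠ p'.val)
    (i : Fin (N + 1)) : (sfp T hT i).val = sfv T i.val := rfl

theorem sfp_castSucc {N : ℕ} {T : Finset (Fin N)} (hT : ∀ p ∈ T, ∀ p' ∈ T, p.val + 1 ≠ p'.val)
    {p : Fin N} (hp : p ∈ T) : sfp T hT p.castSucc = p.succ := by
  apply Fin.ext
  rw [sfp_val, Fin.val_succ]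
  exact if_pos ⟨p, hp, rfl⟩

theorem sfp_succ {N : ℕ} {T : Finset (Fin N)} (hT : ∀ p ∈ T, ∀ p' ∈ T, p.val + 1 ≠ p'.val)
    {p : Fin N} (hp : p ∈ T) : sfp T hT p.succ = p.castSucc := by
  have h1 : sfp T hT (sfp T hT p.castSucc) = p.castSucc := Fin.ext (sfv_sfv hT _)
  rw [sfp_castSucc hT hp] at h1
  exact h1

theorem sfp_inv {N : ℕ} {T : Finset (Fin N)} (hT : ∀ p ∈ T, ∀ p' ∈ T, p.val + 1 ≠ p'.val)
    {i j : Fin (N + 1)} (hij : i < j) (h : sfp T hT j < sfp T hT i) :
    ∃ p ∈ T, i = p.castSucc ∧ j = p.succ := by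
  rw [Fin.lt_def, sfp_val, sfp_val] at h
  rw [Fin.lt_def] at hij
  have hj : j.val - 1 ≤ sfv T j.val := by
    unfold sfv
    split_ifs <;> omega
  by_cases h1 : ∃ p ∈ T, p.val = i.val
  · have e1 : sfv T i.val = i.val + 1 := if_pos h1
    obtain ⟨p, hp, hpi⟩ := h1
    refine ⟨p, hp, Fin.ext hpi.symm, Fin.ext ?_⟩
    rw [Fin.val_succ]
    omega
  · exfalso
    have e1 : sfv T i.val ≤ i.val := by
      unfold sfv
      rw [if_neg h1]
      split_ifs <;> omega
    omega

/-- PROOF. For `g ∈ LE Q`, `T ∈ Mat Q g` let `π = g ∘ (swap p, p+1 for all p ∈ T)`; `OR π v ∅ T ⊆ DD Q (-v)`: for `Q a b`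
either `a` stands before `b` in `π`, or they are neighbours at a position of `T` with spacing `≤ v`. Different
`(g, T)` give different `π`: `T` = positions `p` with `Q (π (p+1)) (π p)`. -/
theorem Z_neg {N : ℕ} {Q : Rel (N + 1)} {lab : Fin (N + 1) → ℕ} (hn : Nat' Q lab) (v : ℝ) (hv : 0 ≤ v) :
    ENNReal.ofReal (∑ g ∈ LE Q, ∑ T ∈ Mat Q g, (1 - Real.exp (-v)) ^ T.card) * I0 N ≤ Z Q (-v) := by
  classical
  have he1 : 0 ≤ 1 - Real.exp (-v) := by
    have : Real.exp (-v) ≤ 1 := Real.exp_le_one_iff.mpr (by linarith)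
    linarith
  have hmat : ∀ {g : Equiv.Perm (Fin (N + 1))} {T : Finset (Fin N)}, T ∈ Mat Q g →
      (∀ p ∈ T, Q (g p.castSucc) (g p.succ)) ∧ ∀ p ∈ T, ∀ p' ∈ T, p.val + 1 ≠ p'.val := by
    intro g T hT
    unfold Mat at hT
    rw [Finset.mem_filter, Finset.mem_powerset] at hT
    refine ⟨fun p hp => ?_, hT.2⟩
    have h1 := hT.1 hp
    unfold adjs at h1
    rw [Finset.mem_filter] at h1
    exact h1.2
  set K : Finset (Σ _ : Equiv.Perm (Fin (N + 1)), Finset (Fin N)) := (LE Q).sigma fun g => Mat Q g with hK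
  let π : (Σ _ : Equiv.Perm (Fin (N + 1)), Finset (Fin N)) → Equiv.Perm (Fin (N + 1)) := fun k =>
    if h : ∀ p ∈ k.2, ∀ p' ∈ k.2, p.val + 1 ≠ p'.val then (sfp k.2 h).trans k.1 else k.1
  have hπ : ∀ (g : Equiv.Perm (Fin (N + 1))) (T : Finset (Fin N))
      (h : ∀ p ∈ T, ∀ p' ∈ T, p.val + 1 ≠ p'.val), π ⟨g, T⟩ = (sfp T h).trans g := fun g T h => dif_pos h
  -- the pattern is determined by the order
  have hTdet : ∀ k ∈ K, ∀ p, p ∈ k.2 ↔ Q (π k p.succ) (π k p.castSucc) := by
    rintro ⟨g, T⟩ hk p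
    rw [hK, Finset.mem_sigma] at hk
    obtain ⟨hg, hT⟩ := hk
    obtain ⟨hT1, hT2⟩ := hmat hT
    rw [hπ g T hT2]
    show p ∈ T ↔ Q (g (sfp T hT2 p.succ)) (g (sfp T hT2 p.castSucc))
    constructor
    · intro hp
      rw [sfp_succ hT2 hp, sfp_castSucc hT2 hp]
      exact hT1 p hp
    · intro hq
      have hg' : g ∈ LE Q := hg
      rw [mem_LE] at hg'
      obtain ⟨q, hq1, hq2, -⟩ := sfp_inv hT2 (Fin.castSucc_lt_succ (i := p)) (hg' _ _ hq)
      rw [Fin.castSucc_inj.mp hq2]
      exact hq1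
  have h1 : ENNReal.ofReal (∑ g ∈ LE Q, ∑ T ∈ Mat Q g, (1 - Real.exp (-v)) ^ T.card) * I0 N =
      ∑ k ∈ K, ∫⁻ x in OR (π k) v ∅ k.2, ENNReal.ofReal (Real.exp (-(mx x))) := by
    rw [← Finset.sum_sigma (s := LE Q) (t := fun g => Mat Q g)
      (f := fun k => (1 - Real.exp (-v)) ^ k.2.card),
      ENNReal.ofReal_sum_of_nonneg (fun k _ => by positivity), Finset.sum_mul]
    refine Finset.sum_congr rfl fun k _ => ?_
    rw [OR_int (π k) v hv ∅ k.2 (Finset.disjoint_empty_left _), Finset.card_empty, pow_zero, one_mul]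
  rw [h1, ← lintegral_biUnion_finset]
  · refine lintegral_mono_set ?_
    intro x hx
    rw [Set.mem_iUnion₂] at hx
    obtain ⟨⟨g, T⟩, hk, hx⟩ := hx
    have hx' : x ∈ OR (π ⟨g, T⟩) v ∅ T := hx
    rw [hK, Finset.mem_sigma] at hk
    obtain ⟨hg, hT⟩ := hk
    obtain ⟨hT1, hT2⟩ := hmat hT
    have hg' : g ∈ LE Q := hg
    rw [mem_LE] at hg'
    rw [hπ g T hT2] at hx'
    have hstr := OR_strict hx'
    refine ⟨fun a => (OR_pos hx' a).le, fun a b hab => ?_⟩
    set τ := (sfp T hT2).trans g with hτ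
    have ha : τ (τ.symm a) = a := Equiv.apply_symm_apply _ _
    have hb : τ (τ.symm b) = b := Equiv.apply_symm_apply _ _
    rcases lt_trichotomy (τ.symm a) (τ.symm b) with h2 | h2 | h2
    · have h3 := hstr h2
      simp only [ha, hb] at h3
      linarith
    · exfalso
      have h3 : a = b := τ.symm.injective h2
      rw [h3] at hab
      exact lt_irrefl _ (hn.mono _ _ hab)
    · have h3 : sfp T hT2 (τ.symm a) < sfp T hT2 (τ.symm b) := by
        apply hg'
        have e1 : g (sfp T hT2 (τ.symm a)) = a := ha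
        have e2 : g (sfp T hT2 (τ.symm b)) = b := hb
        rw [e1, e2]
        exact hab
      obtain ⟨p, hp, hp1, hp2⟩ := sfp_inv hT2 h2 h3
      have h4 := hx'.2.2.2 p hp
      rw [← hp1, ← hp2, ha, hb] at h4
      linarith
  · rintro ⟨g, T⟩ hk ⟨g', T'⟩ hk' hne
    rw [Function.onFun, Set.disjoint_left]
    intro x hx hx'
    apply hne
    have h2 : π ⟨g, T⟩ = π ⟨g', T'⟩ := OR_order hx hx'
    have h3 : T = T' := by
      ext p
      have e1 := hTdet _ hk p
      have e2 := hTdet _ hk' p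
      rw [h2] at e1
      exact e1.trans e2.symm
    subst h3
    rw [Finset.mem_coe, hK, Finset.mem_sigma] at hk
    obtain ⟨hT1, hT2⟩ := hmat hk.2
    rw [hπ g T hT2, hπ g' T hT2] at h2
    have h4 : g = g' := by
      apply Equiv.ext
      intro i
      have h5 := Equiv.congr_fun h2 ((sfp T hT2).symm i)
      simpa using h5
    rw [h4]
  · exact fun k _ => OR_meas _ _ _ _

end Pool.GE63
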