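import Pool.Agent.GE63.Mid
import Pool.Agent.GE63.Low
import Pool.Agent.GE63.Lim
import Pool.Agent.GE63.Har

set_option autoImplicit false

/-!
# GE63/LOS: proof of `LO` (helper76) and common facts on `z v = Z v / I0`
-/

namespace Pool.GE63

open Pool.HB45 Pool.SC45

/-- the real function `z v = (Z v / I0).toReal` -/
noncomputable def zL {N : ℕ} (Q : Rel (N + 1)) (v : ℝ) : ℝ := (Z Q v / I0 N).toReal

theorem zL_nonneg {N : ℕ} (Q : Rel (N + 1)) (v : ℝ) : 0 ≤ zL Q v := ENNReal.toReal_nonneg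

theorem zL_div_ne_top {N : ℕ} (Q : Rel (N + 1)) (v : ℝ) : Z Q v / I0 N ≠ ⊤ :=
  ENNReal.div_ne_top (Z_lt_top Q v).ne (I0_pos N).ne'

theorem zL_mid {N : ℕ} (Q : Rel (N + 1)) (v v' : ℝ) :
    zL Q v * zL Q v' ≤ zL Q ((v + v') / 2) ^ 2 := by
  unfold zL
  rw [← ENNReal.toReal_mul, ← ENNReal.toReal_pow]
  apply ENNReal.toReal_mono
  · exact ENNReal.pow_ne_top (zL_div_ne_top Q _)
  · have h1 := Z_mid Q v v'
    calc Z Q v / I0 N * (Z Q v' / I0 N) = (Z Q v * Z Q v') * ((I0 N)⁻¹ * (I0 N)⁻¹) := by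
          rw [div_eq_mul_inv, div_eq_mul_inv]
          ring
      _ ≤ (Z Q ((v + v') / 2) ^ 2) * ((I0 N)⁻¹ * (I0 N)⁻¹) := by gcongr
      _ = (Z Q ((v + v') / 2) / I0 N) ^ 2 := by
          rw [← sq, ← mul_pow, ← div_eq_mul_inv]

/-- a lower bound of `Z` gives a lower bound of `z` -/
theorem zL_ge {N : ℕ} {Q : Rel (N + 1)} {v x : ℝ} (h : ENNReal.ofReal x * I0 N ≤ Z Q v) :
    x ≤ zL Q v := by
  rcases le_total x 0 with hx | hx
  · exact hx.trans (zL_nonneg Q v)
  · unfold zL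
    rw [← ENNReal.ofReal_le_iff_le_toReal (zL_div_ne_top Q v)]
    rw [ENNReal.le_div_iff_mul_le (Or.inl (I0_pos N).ne') (Or.inl (I0_lt_top N).ne)]
    exact h

theorem zL_zero {N : ℕ} {Q : Rel (N + 1)} {lab : Fin (N + 1) → ℕ} (hn : Nat' Q lab) :
    zL Q 0 = (LE Q).card := by
  unfold zL
  rw [Z_zero hn, ENNReal.mul_div_cancel_right (I0_pos N).ne' (I0_lt_top N).ne, ENNReal.toReal_natCast]

theorem zL_zero_pos {N : ℕ} {Q : Rel (N + 1)} {lab : Fin (N + 1) → ℕ} (hn : Nat' Q lab)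
    (hne : (LE Q).Nonempty) : 0 < zL Q 0 := by
  rw [zL_zero hn]
  exact_mod_cast Finset.card_pos.2 hne

theorem card_mul_GG {N : ℕ} (Q : Rel (N + 1)) (hne : (LE Q).Nonempty) :
    ((LE Q).card : ℝ) * GG Q = ∑ g ∈ LE Q, (adj Q g : ℝ) := by
  unfold GG
  have : ((LE Q).card : ℝ) ≠ 0 := by
    exact_mod_cast (Finset.card_pos.2 hne).ne'
  field_simp

theorem GG_nonneg' {N : ℕ} (Q : Rel (N + 1)) : 0 ≤ GG Q := by
  unfold GG
  positivity

open Classical in
theorem mat_ge {N : ℕ} (Q : Rel (N + 1)) (g : Equiv.Perm (Fin (N + 1))) (q : ℝ) (hq : 0 ≤ q) :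
    1 + (adj Q g : ℝ) * q ≤ ∑ T ∈ Mat Q g, q ^ T.card := by
  have hsub : insert ∅ ((adjs Q g).image fun p => ({p} : Finset (Fin N))) ⊆ Mat Q g := by
    intro T hT
    rw [Finset.mem_insert, Finset.mem_image] at hT
    unfold Mat
    rw [Finset.mem_filter, Finset.mem_powerset]
    rcases hT with rfl | ⟨p, hp, rfl⟩
    · exact ⟨Finset.empty_subset _, fun p hp => absurd hp (Finset.notMem_empty _)⟩
    · refine ⟨Finset.singleton_subset_iff.2 hp, fun a ha b hb => ?_⟩
      rw [Finset.mem_singleton] at ha hb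
      subst ha; subst hb
      omega
  refine le_trans ?_ (Finset.sum_le_sum_of_subset_of_nonneg hsub fun _ _ _ => by positivity)
  rw [Finset.sum_insert, Finset.sum_image]
  · simp only [Finset.card_empty, pow_zero, Finset.card_singleton, pow_one, Finset.sum_const,
      nsmul_eq_mul]
    unfold adj
    exact le_rfl
  · intro a _ b _ hab
    exact Finset.singleton_injective hab
  · rw [Finset.mem_image]
    rintro ⟨p, _, hp⟩
    exact absurd hp (Finset.singleton_ne_empty p)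

/-- first order on the negative side -/
theorem zL_neg_ge {N : ℕ} {Q : Rel (N + 1)} {lab : Fin (N + 1) → ℕ} (hn : Nat' Q lab)
    (hne : (LE Q).Nonempty) (t : ℝ) (ht : 0 ≤ t) :
    zL Q 0 * (1 + GG Q * (1 - Real.exp (-t))) ≤ zL Q (-t) := by
  have hq : 0 ≤ 1 - Real.exp (-t) := by
    have : Real.exp (-t) ≤ 1 := by rw [Real.exp_le_one_iff]; linarith
    linarith
  refine le_trans ?_ (zL_ge (Z_neg hn t ht))
  rw [zL_zero hn]
  calc ((LE Q).card : ℝ) * (1 + GG Q * (1 - Real.exp (-t)))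
      = (LE Q).card + ((LE Q).card * GG Q) * (1 - Real.exp (-t)) := by ring
    _ = ∑ g ∈ LE Q, (1 + (adj Q g : ℝ) * (1 - Real.exp (-t))) := by
        rw [card_mul_GG Q hne, Finset.sum_add_distrib, Finset.sum_const, nsmul_eq_mul, mul_one,
          Finset.sum_mul]
    _ ≤ _ := Finset.sum_le_sum fun g _ => mat_ge Q g _ hq

/-- `z v ≤ #LE e^(-vG)` -/
theorem zL_pos_le {N : ℕ} {Q : Rel (N + 1)} {lab : Fin (N + 1) → ℕ} (hn : Nat' Q lab)
    (hne : (LE Q).Nonempty) (v : ℝ) (hv : 0 ≤ v) :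
    zL Q v ≤ (LE Q).card * Real.exp (-(v * GG Q)) := by
  have h := lim_pos (zL Q) (zL_nonneg Q) (zL_zero_pos hn hne) (zL_mid Q) (GG Q) (GG_nonneg' Q)
    (fun t ht => zL_neg_ge hn hne t ht) v hv
  rwa [zL_zero hn] at h

theorem exp_le_one_sub {x : ℝ} (hx0 : 0 ≤ x) (hx1 : x ≤ 1 / 2) : Real.exp (-(x + x ^ 2)) ≤ 1 - x := by
  have h1 := Real.quadratic_le_exp_of_nonneg (show 0 ≤ x + x ^ 2 by positivity)
  rw [Real.exp_neg, inv_le_comm₀ (Real.exp_pos _) (by linarith)]
  refine le_trans ?_ h1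
  rw [inv_le_iff_one_le_mul₀ (by linarith)]
  have h2 : 0 ≤ 1 - x - x ^ 2 - x ^ 3 := by
    have h3 : x ^ 2 ≤ 1 / 4 := by nlinarith
    have h4 : x ^ 3 ≤ 1 / 8 := by
      calc x ^ 3 = x ^ 2 * x := by ring
        _ ≤ 1 / 4 * (1 / 2) := by gcongr
        _ = 1 / 8 := by norm_num
    linarith
  have h5 : (1 + (x + x ^ 2) + (x + x ^ 2) ^ 2 / 2) * (1 - x) =
      1 + x ^ 2 * (1 - x - x ^ 2 - x ^ 3) / 2 := by ring
  rw [h5]
  have : 0 ≤ x ^ 2 * (1 - x - x ^ 2 - x ^ 3) := mul_nonneg (sq_nonneg x) h2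
  linarith

theorem LO_S {N : ℕ} {Q : Rel (N + 1)} {lab : Fin (N + 1) → ℕ} (hn : Nat' Q lab) (q : ℝ)
    (hq0 : 0 ≤ q) (hq1 : q ≤ 1 / 4) :
    ∑ g ∈ LE Q, Real.exp (-((q + q ^ 2) * adj Q g) - 2 * ∑ d ∈ Finset.Icc 2 N, q ^ d * AA Q d g) ≤
      (LE Q).card * Real.exp (-(q * GG Q)) := by
  classical
  rcases (LE Q).eq_empty_or_nonempty with hemp | hne
  · rw [hemp]
    simp
  have h1q : 0 < 1 - q := by linarith
  obtain ⟨v, hv⟩ : ∃ v, v = -Real.log (1 - q) := ⟨_, rfl⟩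
  have hev : Real.exp (-v) = 1 - q := by
    rw [hv, neg_neg, Real.exp_log h1q]
  have hqv : q ≤ v := by
    have h1 := Real.log_le_sub_one_of_pos h1q
    rw [hv]
    linarith
  have hv0 : 0 ≤ v := hq0.trans hqv
  have hup := zL_pos_le hn hne v hv0
  have hlow := zL_ge (Z_pos hn v hv0)
  have hq' : 1 - Real.exp (-v) = q := by rw [hev]; ring
  rw [hev] at hlow
  have hqq : 1 - (1 - q) = q := by ring
  rw [hqq] at hlow
  calc ∑ g ∈ LE Q, Real.exp (-((q + q ^ 2) * adj Q g) - 2 * ∑ d ∈ Finset.Icc 2 N, q ^ d * AA Q d g)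
      ≤ ∑ g ∈ LE Q, (1 - q) ^ adj Q g * ∏ d ∈ Finset.Icc 2 N, (1 - q ^ d) ^ AA Q d g := by
        apply Finset.sum_le_sum
        intro g _
        rw [sub_eq_add_neg, Real.exp_add]
        apply mul_le_mul _ _ (Real.exp_pos _).le (by positivity)
        · have h1 : Real.exp (-((q + q ^ 2) * adj Q g)) = Real.exp (-(q + q ^ 2)) ^ adj Q g := by
            rw [← Real.exp_nat_mul]
            congr 1
            ring
          rw [h1]
          exact pow_le_pow_left₀ (Real.exp_pos _).le (exp_le_one_sub hq0 (by linarith)) _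
        · have h1 : Real.exp (-(2 * ∑ d ∈ Finset.Icc 2 N, q ^ d * AA Q d g)) =
              ∏ d ∈ Finset.Icc 2 N, Real.exp (-(2 * q ^ d)) ^ AA Q d g := by
            rw [Finset.mul_sum, ← Finset.sum_neg_distrib, Real.exp_sum]
            apply Finset.prod_congr rfl
            intro d _
            rw [← Real.exp_nat_mul]
            congr 1
            ring
          rw [h1]
          apply Finset.prod_le_prod
          · intro d _
            positivity
          · intro d hd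
            have hd2 : 2 ≤ d := (Finset.mem_Icc.1 hd).1
            have h2 : q ^ d ≤ q ^ 2 := pow_le_pow_of_le_one hq0 (by linarith) hd2
            have h3 : q ^ 2 ≤ 1 / 16 := by nlinarith
            have h4 : 0 ≤ q ^ d := by positivity
            apply pow_le_pow_left₀ (Real.exp_pos _).le
            refine le_trans ?_ (exp_le_one_sub h4 (by linarith))
            apply Real.exp_le_exp.2
            nlinarith
    _ ≤ ∑ g ∈ LE Q, ∑ S ∈ (Finset.univ : Finset (Finset (Fin N))).filter (Good Q g),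
          (1 - q) ^ S.card * q ^ (N - S.card) :=
        Finset.sum_le_sum fun g hg => good_ge hn g hg q hq0 (by linarith)
    _ ≤ zL Q v := by
        refine le_trans (le_of_eq ?_) hlow
        rfl
    _ ≤ (LE Q).card * Real.exp (-(v * GG Q)) := hup
    _ ≤ (LE Q).card * Real.exp (-(q * GG Q)) := by
        apply mul_le_mul_of_nonneg_left _ (Nat.cast_nonneg _)
        apply Real.exp_le_exp.2
        have := mul_le_mul_of_nonneg_right hqv (GG_nonneg' Q)
        linarith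

end Pool.GE63
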