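import Pool.Agent.GE51.Layer

set_option autoImplicit false

/-!
# GE63/Mid: midpoint log-concavity of `Z`

`Z Q v = ∫ e^(-τ) vol (DD Q v ∩ {x ≤ τ}) dτ` (layer cake, `GE51/Layer`), `PT57.bm` for the compact slices and
the one dimensional Prekopa-Leindler inequality (`GE51/PL`).
-/

open MeasureTheory

namespace Pool.GE63

open Pool.HB45 Pool.SC45

theorem Z_lt_top {N : ℕ} (Q : Rel (N + 1)) (v : ℝ) : Z Q v < ⊤ := Pool.GE51.Z_lt_top' Q v

/-- MIDPOINT LOG-CONCAVITY -/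
theorem Z_mid {N : ℕ} (Q : Rel (N + 1)) (v v' : ℝ) : Z Q v * Z Q v' ≤ Z Q ((v + v') / 2) ^ 2 :=
  Pool.GE51.Z_mid' Q v v'

end Pool.GE63
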