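import Pool.Agent.GE63.Defs

set_option autoImplicit false

/-!
# GE63/OrIntS: independence of the spacings from permutation, translation and finiteness
-/

open MeasureTheory

namespace Pool.GE63

open Pool.HB45 Pool.SC45

theorem OR_empty {N : ℕ} (g : Equiv.Perm (Fin (N + 1))) (v w : ℝ) : OR g v ∅ ∅ = OR g w ∅ ∅ := by
  ext x
  simp [OR]

theorem OR_inter {N : ℕ} (g : Equiv.Perm (Fin (N + 1))) (v : ℝ) (S T : Finset (Fin N))
    (p : Fin N) :
    OR g v S T ∩ {x | v < x (g p.succ) - x (g p.castSucc)} = OR g v (insert p S) T := by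
  ext x
  constructor
  · rintro ⟨⟨h1, h2, h3, h4⟩, h5⟩
    refine ⟨h1, h2, fun q hq => ?_, h4⟩
    rcases Finset.mem_insert.1 hq with rfl | hq
    · exact h5
    · exact h3 q hq
  · rintro ⟨h1, h2, h3, h4⟩
    exact ⟨⟨h1, h2, fun q hq => h3 q (Finset.mem_insert_of_mem hq), h4⟩,
      h3 p (Finset.mem_insert_self p S)⟩

theorem OR_diff {N : ℕ} (g : Equiv.Perm (Fin (N + 1))) (v : ℝ) (S T : Finset (Fin N))
    (p : Fin N) :
    OR g v S T \ {x | v < x (g p.succ) - x (g p.castSucc)} = OR g v S (insert p T) := by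
  ext x
  constructor
  · rintro ⟨⟨h1, h2, h3, h4⟩, h5⟩
    refine ⟨h1, h2, h3, fun q hq => ?_⟩
    rcases Finset.mem_insert.1 hq with rfl | hq
    · exact not_lt.1 h5
    · exact h4 q hq
  · rintro ⟨h1, h2, h3, h4⟩
    exact ⟨⟨h1, h2, h3, fun q hq => h4 q (Finset.mem_insert_of_mem hq)⟩,
      not_lt.2 (h4 p (Finset.mem_insert_self p T))⟩

theorem measurableSet_gap {N : ℕ} (g : Equiv.Perm (Fin (N + 1))) (v : ℝ) (p : Fin N) :
    MeasurableSet {x : Fin (N + 1) → ℝ | v < x (g p.succ) - x (g p.castSucc)} := by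
  apply measurableSet_lt measurable_const
  exact (measurable_pi_apply _).sub (measurable_pi_apply _)

theorem OR_int_of {N : ℕ} (v : ℝ) (hv : 0 ≤ v)
    (hperm : ∀ (g : Equiv.Perm (Fin (N + 1))) (S T : Finset (Fin N)),
      ∫⁻ x in OR g v S T, ENNReal.ofReal (Real.exp (-(mx x))) =
        ∫⁻ x in OR 1 v S T, ENNReal.ofReal (Real.exp (-(mx x))))
    (hshift : ∀ (S T : Finset (Fin N)) (p : Fin N), p ∉ S → p ∉ T →
      ∫⁻ x in OR 1 v (insert p S) T, ENNReal.ofReal (Real.exp (-(mx x))) =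
        ENNReal.ofReal (Real.exp (-v)) *
          ∫⁻ x in OR 1 v S T, ENNReal.ofReal (Real.exp (-(mx x))))
    (hfin : I0 N < ⊤) (g : Equiv.Perm (Fin (N + 1))) (S T : Finset (Fin N))
    (hST : Disjoint S T) :
    ∫⁻ x in OR g v S T, ENNReal.ofReal (Real.exp (-(mx x))) =
      ENNReal.ofReal (Real.exp (-v) ^ S.card * (1 - Real.exp (-v)) ^ T.card) * I0 N := by
  have ha0 : 0 ≤ Real.exp (-v) := (Real.exp_pos _).le
  have hb0 : 0 ≤ 1 - Real.exp (-v) := by
    have := Real.exp_le_one_iff.2 (by linarith : -v ≤ 0)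
    linarith
  rw [hperm]
  clear g
  -- the case `T = ∅`
  have h0 : ∀ S : Finset (Fin N),
      ∫⁻ x in OR (1 : Equiv.Perm (Fin (N + 1))) v S ∅, ENNReal.ofReal (Real.exp (-(mx x))) =
      ENNReal.ofReal (Real.exp (-v) ^ S.card) * I0 N := by
    intro S
    induction S using Finset.induction_on with
    | empty =>
      rw [OR_empty 1 v 0]
      simp [I0]
    | insert p S hp ih =>
      rw [hshift S ∅ p hp (by simp), ih, Finset.card_insert_of_notMem hp, ← mul_assoc,
        ← ENNReal.ofReal_mul ha0, pow_succ']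
  induction T using Finset.induction_on generalizing S with
  | empty =>
    rw [h0]
    simp
  | insert p T hp ih =>
    rw [Finset.disjoint_insert_right] at hST
    obtain ⟨hpS, hST⟩ := hST
    have h1 := ih S hST
    have h2 := ih (insert p S) (by
      rw [Finset.disjoint_insert_left]
      exact ⟨hp, hST⟩)
    have h3 := lintegral_inter_add_sdiff (μ := volume)
      (fun x : Fin (N + 1) → ℝ => ENNReal.ofReal (Real.exp (-(mx x))))
      (OR (1 : Equiv.Perm (Fin (N + 1))) v S T) (measurableSet_gap 1 v p)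
    rw [OR_inter, OR_diff, h1, h2, Finset.card_insert_of_notMem hpS] at h3
    rw [Finset.card_insert_of_notMem hp]
    have hP1 : 0 ≤ Real.exp (-v) ^ (S.card + 1) * (1 - Real.exp (-v)) ^ T.card := by positivity
    have hP2 : 0 ≤ Real.exp (-v) ^ S.card * (1 - Real.exp (-v)) ^ (T.card + 1) := by positivity
    have h4 : ENNReal.ofReal (Real.exp (-v) ^ S.card * (1 - Real.exp (-v)) ^ T.card) * I0 N =
        ENNReal.ofReal (Real.exp (-v) ^ (S.card + 1) * (1 - Real.exp (-v)) ^ T.card) * I0 N +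
        ENNReal.ofReal (Real.exp (-v) ^ S.card * (1 - Real.exp (-v)) ^ (T.card + 1)) * I0 N := by
      rw [← add_mul, ← ENNReal.ofReal_add hP1 hP2]
      congr 2
      ring
    rw [h4] at h3
    have h5 : ENNReal.ofReal (Real.exp (-v) ^ (S.card + 1) * (1 - Real.exp (-v)) ^ T.card) *
        I0 N ≠ ⊤ := ENNReal.mul_ne_top ENNReal.ofReal_ne_top hfin.ne
    exact (ENNReal.add_right_inj h5).1 h3

end Pool.GE63
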