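import Pool.Agent.GE63.Defs

set_option autoImplicit false

/-!
# GE63/OrdShiftS: the translation of all coordinates behind `p` by `v`
-/

open MeasureTheory

namespace Pool.GE63

open Pool.HB45 Pool.SC45

theorem measurableSet_OR_S {N : ℕ} (g : Equiv.Perm (Fin (N + 1))) (v : ℝ) (S T : Finset (Fin N)) :
    MeasurableSet (OR g v S T) := by
  have h1 : MeasurableSet {x : Fin (N + 1) → ℝ | 0 < x (g 0)} :=
    measurableSet_lt measurable_const (measurable_pi_apply _)
  have h2 : MeasurableSet {x : Fin (N + 1) → ℝ |
      ∀ p : Fin N, x (g p.castSucc) < x (g p.succ)} := by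
    have : {x : Fin (N + 1) → ℝ | ∀ p : Fin N, x (g p.castSucc) < x (g p.succ)} =
        ⋂ p : Fin N, {x | x (g p.castSucc) < x (g p.succ)} := by
      ext x; simp
    rw [this]
    exact MeasurableSet.iInter fun p =>
      measurableSet_lt (measurable_pi_apply _) (measurable_pi_apply _)
  have h3 : MeasurableSet {x : Fin (N + 1) → ℝ |
      ∀ p ∈ S, v < x (g p.succ) - x (g p.castSucc)} := by
    have : {x : Fin (N + 1) → ℝ | ∀ p ∈ S, v < x (g p.succ) - x (g p.castSucc)} =
        ⋂ p : Fin N, ⋂ _ : p ∈ S, {x | v < x (g p.succ) - x (g p.castSucc)} := by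
      ext x; simp
    rw [this]
    exact MeasurableSet.iInter fun p => MeasurableSet.iInter fun _ =>
      measurableSet_lt measurable_const
        (Measurable.sub (measurable_pi_apply (g p.succ)) (measurable_pi_apply (g p.castSucc)))
  have h4 : MeasurableSet {x : Fin (N + 1) → ℝ |
      ∀ p ∈ T, x (g p.succ) - x (g p.castSucc) ≤ v} := by
    have : {x : Fin (N + 1) → ℝ | ∀ p ∈ T, x (g p.succ) - x (g p.castSucc) ≤ v} =
        ⋂ p : Fin N, ⋂ _ : p ∈ T, {x | x (g p.succ) - x (g p.castSucc) ≤ v} := by
      ext x; simp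
    rw [this]
    exact MeasurableSet.iInter fun p => MeasurableSet.iInter fun _ =>
      measurableSet_le
        (Measurable.sub (measurable_pi_apply (g p.succ)) (measurable_pi_apply (g p.castSucc)))
        measurable_const
  exact h1.inter (h2.inter (h3.inter h4))

theorem mx_OR_S {N : ℕ} {x : Fin (N + 1) → ℝ} (hx : ∀ p : Fin N, x p.castSucc < x p.succ) :
    mx x = x (Fin.last N) := by
  have hmono : StrictMono x := Fin.strictMono_iff_lt_succ.mpr hx
  apply le_antisymm
  · exact Finset.sup'_le _ _ fun a _ => hmono.monotone (Fin.le_last a)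
  · exact Finset.le_sup' _ (Finset.mem_univ _)

/-- the translation vector -/
noncomputable def trS {N : ℕ} (v : ℝ) (p : Fin N) : Fin (N + 1) → ℝ :=
  fun a => if a.val ≤ p.val then 0 else v

theorem trS_zero {N : ℕ} (v : ℝ) (p : Fin N) : trS v p 0 = 0 := by
  simp [trS]

theorem trS_last {N : ℕ} (v : ℝ) (p : Fin N) : trS v p (Fin.last N) = v := by
  have := p.isLt
  simp only [trS, Fin.val_last]
  rw [if_neg (by omega)]

theorem trS_self {N : ℕ} (v : ℝ) (p : Fin N) :
    trS v p p.succ - trS v p p.castSucc = v := by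
  simp [trS]

theorem trS_ne {N : ℕ} (v : ℝ) (p q : Fin N) (h : q ≠ p) :
    trS v p q.succ - trS v p q.castSucc = 0 := by
  have h' : q.val ≠ p.val := fun e => h (Fin.ext e)
  simp only [trS, Fin.val_succ, Fin.val_castSucc]
  rcases Nat.lt_or_gt_of_ne h' with h1 | h1
  · rw [if_pos (by omega), if_pos (by omega)]; simp
  · rw [if_neg (by omega), if_neg (by omega)]; simp

theorem mem_trS {N : ℕ} (v : ℝ) (hv : 0 ≤ v) (S T : Finset (Fin N)) (p : Fin N) (hS : p ∉ S)
    (hT : p ∉ T) (x : Fin (N + 1) → ℝ) :
    x + trS v p ∈ OR 1 v (insert p S) T ↔ x ∈ OR 1 v S T := by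
  have key : ∀ q : Fin N, (x + trS v p) q.succ - (x + trS v p) q.castSucc =
      (x q.succ - x q.castSucc) + (trS v p q.succ - trS v p q.castSucc) := by
    intro q; simp only [Pi.add_apply]; ring
  simp only [OR, Set.mem_ofPred_eq, Equiv.Perm.coe_one, id_eq]
  constructor
  · rintro ⟨h0, h1, h2, h3⟩
    refine ⟨?_, ?_, ?_, ?_⟩
    · have : (x + trS v p) 0 = x 0 := by simp [trS_zero]
      rwa [this] at h0
    · intro q
      by_cases hq : q = p
      · subst hq
        have := h2 q (Finset.mem_insert_self _ _)
        rw [key, trS_self] at this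
        linarith
      · have := h1 q
        have h5 := key q
        rw [trS_ne v p q hq] at h5
        linarith
    · intro q hqS
      have hq : q ≠ p := fun e => hS (e ▸ hqS)
      have := h2 q (Finset.mem_insert_of_mem hqS)
      rw [key, trS_ne v p q hq] at this
      linarith
    · intro q hqT
      have hq : q ≠ p := fun e => hT (e ▸ hqT)
      have := h3 q hqT
      rw [key, trS_ne v p q hq] at this
      linarith
  · rintro ⟨h0, h1, h2, h3⟩
    refine ⟨?_, ?_, ?_, ?_⟩
    · have : (x + trS v p) 0 = x 0 := by simp [trS_zero]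
      rwa [this]
    · intro q
      have h4 := h1 q
      have h5 := key q
      by_cases hq : q = p
      · subst hq
        rw [trS_self] at h5
        linarith
      · rw [trS_ne v p q hq] at h5
        linarith
    · intro q hq
      rw [key]
      rcases Finset.mem_insert.mp hq with hq | hq
      · subst hq
        rw [trS_self]
        have := h1 q
        linarith
      · have hq' : q ≠ p := fun e => hS (e ▸ hq)
        rw [trS_ne v p q hq']
        have := h2 q hq
        linarith
    · intro q hqT
      have hq : q ≠ p := fun e => hT (e ▸ hqT)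
      rw [key, trS_ne v p q hq]
      have := h3 q hqT
      linarith

theorem OR_shift_S {N : ℕ} (v : ℝ) (hv : 0 ≤ v) (S T : Finset (Fin N)) (p : Fin N) (hS : p ∉ S)
    (hT : p ∉ T) :
    ∫⁻ x in OR 1 v (insert p S) T, ENNReal.ofReal (Real.exp (-(mx x))) =
      ENNReal.ofReal (Real.exp (-v)) * ∫⁻ x in OR 1 v S T, ENNReal.ofReal (Real.exp (-(mx x))) := by
  have hA := measurableSet_OR_S (1 : Equiv.Perm (Fin (N + 1))) v (insert p S) T
  have hB := measurableSet_OR_S (1 : Equiv.Perm (Fin (N + 1))) v S T
  rw [← lintegral_indicator hA, ← lintegral_add_right_eq_self _ (trS v p),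
    ← lintegral_const_mul' _ _ ENNReal.ofReal_ne_top, ← lintegral_indicator hB]
  apply lintegral_congr
  intro x
  by_cases hx : x ∈ OR 1 v S T
  · rw [Set.indicator_of_mem ((mem_trS v hv S T p hS hT x).mpr hx), Set.indicator_of_mem hx]
    have h1 : mx x = x (Fin.last N) := mx_OR_S (by simpa using hx.2.1)
    have h2 : mx (x + trS v p) = (x + trS v p) (Fin.last N) := by
      apply mx_OR_S
      have := ((mem_trS v hv S T p hS hT x).mpr hx).2.1
      simpa using this
    rw [h1, h2, Pi.add_apply, trS_last, ← ENNReal.ofReal_mul (Real.exp_pos _).le,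
      ← Real.exp_add]
    congr 2
    ring
  · rw [Set.indicator_of_notMem (fun h => hx ((mem_trS v hv S T p hS hT x).mp h)),
      Set.indicator_of_notMem hx]

end Pool.GE63
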