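import Pool.Agent.GE63.Defs

set_option autoImplicit false

/-!
# GE63/PermS: permutation of the coordinates
-/

open MeasureTheory

namespace Pool.GE63

open Pool.HB45 Pool.SC45

theorem mx_permS {N : ℕ} (g : Equiv.Perm (Fin (N + 1))) (x : Fin (N + 1) → ℝ) :
    mx (fun p => x (g p)) = mx x := by
  unfold mx
  apply le_antisymm
  · exact Finset.sup'_le _ _ fun p _ => Finset.le_sup' x (Finset.mem_univ (g p))
  · refine Finset.sup'_le _ _ fun p _ => ?_
    have h := Finset.le_sup' (fun p => x (g p)) (Finset.mem_univ (g.symm p))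
    simpa using h

theorem OR_permS {N : ℕ} (g : Equiv.Perm (Fin (N + 1))) (v : ℝ) (S T : Finset (Fin N)) :
    ∫⁻ x in OR g v S T, ENNReal.ofReal (Real.exp (-(mx x))) =
      ∫⁻ x in OR 1 v S T, ENNReal.ofReal (Real.exp (-(mx x))) := by
  set e := MeasurableEquiv.piCongrLeft (fun _ : Fin (N + 1) => ℝ) g.symm with he
  have hmp : MeasurePreserving e volume volume :=
    volume_measurePreserving_piCongrLeft (fun _ : Fin (N + 1) => ℝ) g.symm
  have happ : ∀ x : Fin (N + 1) → ℝ, e x = fun p => x (g p) := by
    intro x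
    funext p
    have h := MeasurableEquiv.piCongrLeft_apply_apply (β := fun _ : Fin (N + 1) => ℝ)
      (e := g.symm) (x := x) (i := g p)
    rw [Equiv.symm_apply_apply] at h
    exact h
  have hpre : OR g v S T = e ⁻¹' OR 1 v S T := by
    ext x
    rw [Set.mem_preimage, happ]
    unfold OR
    simp only [Set.mem_setOf_eq, Equiv.Perm.one_apply]
  have h := hmp.setLIntegral_comp_preimage_emb e.measurableEmbedding
    (fun x => ENNReal.ofReal (Real.exp (-(mx x)))) (OR 1 v S T)
  rw [← h, hpre]
  refine lintegral_congr fun x => ?_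
  rw [happ, mx_permS]

end Pool.GE63
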