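import Pool.Agent.GE63.Defs

set_option autoImplicit false

/-!
# GE63/TiesS: equal coordinates have measure 0, the integral over one order is positive and finite
-/

open MeasureTheory

namespace Pool.GE63

open Pool.HB45 Pool.SC45

theorem ties_nullS (N : ℕ) :
    volume {x : Fin (N + 1) → ℝ | (∃ a, x a = 0) ∨ ∃ a b, a ≠ b ∧ x a = x b} = 0 := by
  classical
  have h1 : ∀ a : Fin (N + 1), volume {x : Fin (N + 1) → ℝ | x a = 0} = 0 := by
    intro a
    have h := Measure.addHaar_submodule (volume : Measure (Fin (N + 1) → ℝ))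
      (LinearMap.ker (LinearMap.proj a : (Fin (N + 1) → ℝ) →ₗ[ℝ] ℝ)) (by
        intro ht
        have hm : (fun _ => (1 : ℝ)) ∈
            LinearMap.ker (LinearMap.proj a : (Fin (N + 1) → ℝ) →ₗ[ℝ] ℝ) := by
          rw [ht]; trivial
        rw [LinearMap.mem_ker] at hm
        simp at hm)
    have he : {x : Fin (N + 1) → ℝ | x a = 0} =
        ((LinearMap.ker (LinearMap.proj a : (Fin (N + 1) → ℝ) →ₗ[ℝ] ℝ)) :
          Set (Fin (N + 1) → ℝ)) := by
      ext x
      simp [LinearMap.mem_ker]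
    rw [he]; exact h
  have h2 : ∀ a b : Fin (N + 1), a ≠ b →
      volume {x : Fin (N + 1) → ℝ | x a = x b} = 0 := by
    intro a b hab
    have h := Measure.addHaar_submodule (volume : Measure (Fin (N + 1) → ℝ))
      (LinearMap.ker ((LinearMap.proj a : (Fin (N + 1) → ℝ) →ₗ[ℝ] ℝ) -
        (LinearMap.proj b : (Fin (N + 1) → ℝ) →ₗ[ℝ] ℝ))) (by
        intro ht
        have hm : (Pi.single a (1 : ℝ) : Fin (N + 1) → ℝ) ∈
            LinearMap.ker ((LinearMap.proj a : (Fin (N + 1) → ℝ) →ₗ[ℝ] ℝ) -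
              (LinearMap.proj b : (Fin (N + 1) → ℝ) →ₗ[ℝ] ℝ)) := by
          rw [ht]; trivial
        rw [LinearMap.mem_ker] at hm
        simp [Pi.single_eq_of_ne' hab] at hm)
    have he : {x : Fin (N + 1) → ℝ | x a = x b} =
        ((LinearMap.ker ((LinearMap.proj a : (Fin (N + 1) → ℝ) →ₗ[ℝ] ℝ) -
        (LinearMap.proj b : (Fin (N + 1) → ℝ) →ₗ[ℝ] ℝ))) : Set (Fin (N + 1) → ℝ)) := by
      ext x
      simp [LinearMap.mem_ker, sub_eq_zero]
    rw [he]; exact h
  have hsub : {x : Fin (N + 1) → ℝ | (∃ a, x a = 0) ∨ ∃ a b, a ≠ b ∧ x a = x b} ⊆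
      (⋃ a, {x : Fin (N + 1) → ℝ | x a = 0}) ∪
      ⋃ p : {p : Fin (N + 1) × Fin (N + 1) // p.1 ≠ p.2},
        {x : Fin (N + 1) → ℝ | x p.1.1 = x p.1.2} := by
    rintro x (⟨a, ha⟩ | ⟨a, b, hab, h⟩)
    · exact Or.inl (Set.mem_iUnion.2 ⟨a, ha⟩)
    · exact Or.inr (Set.mem_iUnion.2 ⟨⟨(a, b), hab⟩, h⟩)
  refine measure_mono_null hsub (measure_union_null ?_ ?_)
  · exact measure_iUnion_null h1
  · exact measure_iUnion_null fun p => h2 _ _ p.2

theorem mx_contS (N : ℕ) : Continuous (fun x : Fin (N + 1) → ℝ => mx x) := by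
  unfold mx
  exact Continuous.finset_sup'_apply _ fun i _ => continuous_apply i

theorem I0_posS (N : ℕ) : 0 < I0 N := by
  unfold I0
  have hm : Measurable fun x : Fin (N + 1) → ℝ => ENNReal.ofReal (Real.exp (-(mx x))) :=
    ENNReal.measurable_ofReal.comp ((Real.continuous_exp.comp (mx_contS N).neg).measurable)
  rw [setLIntegral_pos_iff hm]
  have hsupp : Function.support (fun x : Fin (N + 1) → ℝ =>
      ENNReal.ofReal (Real.exp (-(mx x)))) = Set.univ := by
    ext x
    simp only [Function.mem_support, Set.mem_univ, iff_true]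
    exact (ENNReal.ofReal_pos.2 (Real.exp_pos _)).ne'
  rw [hsupp, Set.univ_inter]
  set U : Set (Fin (N + 1) → ℝ) :=
    {x | 0 < x 0} ∩ ⋂ p : Fin N, {x | x p.castSucc < x p.succ} with hU
  have hUo : IsOpen U := by
    refine IsOpen.inter (isOpen_lt continuous_const (continuous_apply 0)) ?_
    exact isOpen_iInter_of_finite fun p =>
      isOpen_lt (continuous_apply _) (continuous_apply _)
  have hUn : U.Nonempty := by
    refine ⟨fun i => (i.val : ℝ) + 1, ?_, ?_⟩
    · simp
    · rw [Set.mem_iInter]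
      intro p
      simp
  refine lt_of_lt_of_le (hUo.measure_pos volume hUn) (measure_mono ?_)
  rintro x ⟨hx0, hx⟩
  rw [Set.mem_iInter] at hx
  exact ⟨hx0, fun p => hx p, fun p hp => absurd hp (Finset.notMem_empty p),
    fun p hp => absurd hp (Finset.notMem_empty p)⟩

theorem OR_posS {N : ℕ} {x : Fin (N + 1) → ℝ} {v : ℝ} {S T : Finset (Fin N)}
    (hx : x ∈ OR (1 : Equiv.Perm (Fin (N + 1))) v S T) (i : Fin (N + 1)) : 0 < x i := by
  obtain ⟨h0, h1, -, -⟩ := hx
  induction i using Fin.induction with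
  | zero => exact h0
  | succ p ih => exact lt_trans ih (h1 p)

theorem I0_lt_topS (N : ℕ) : I0 N < ⊤ := by
  unfold I0
  set c : ℝ := 1 / ((N : ℝ) + 1) with hc
  have hcpos : 0 < c := by rw [hc]; positivity
  set f : ℝ → ℝ := Set.indicator (Set.Ioi 0) (fun t => Real.exp (-c * t)) with hf
  have hfi : Integrable f := by
    rw [hf, integrable_indicator_iff measurableSet_Ioi]
    exact integrableOn_exp_mul_Ioi (by linarith) 0
  have hprod : Integrable (fun x : Fin (N + 1) → ℝ => ∏ i, f (x i)) :=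
    Integrable.fintype_prod (fun _ => hfi)
  have hle : ∫⁻ x in OR (1 : Equiv.Perm (Fin (N + 1))) 0 ∅ ∅, ENNReal.ofReal (Real.exp (-(mx x)))
      ≤ ∫⁻ x : Fin (N + 1) → ℝ, ENNReal.ofReal (∏ i, f (x i)) := by
    refine le_trans (setLIntegral_mono_ae' ?_ ?_)
      (setLIntegral_le_lintegral (OR (1 : Equiv.Perm (Fin (N + 1))) 0 ∅ ∅)
        (fun x => ENNReal.ofReal (∏ i, f (x i))))
    · have : OR (1 : Equiv.Perm (Fin (N + 1))) 0 ∅ ∅ =
          {x | 0 < x 0} ∩ ⋂ p : Fin N, {x | x p.castSucc < x p.succ} := by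
        ext x
        simp [OR]
      rw [this]
      exact (measurableSet_lt measurable_const (measurable_pi_apply 0)).inter
        (MeasurableSet.iInter fun p =>
          measurableSet_lt (measurable_pi_apply _) (measurable_pi_apply _))
    · refine Filter.Eventually.of_forall fun x hx => ENNReal.ofReal_le_ofReal ?_
      have hpos : ∀ i, 0 < x i := OR_posS hx
      have h1 : ∀ i, f (x i) = Real.exp (-c * x i) := by
        intro i
        rw [hf, Set.indicator_of_mem (Set.mem_Ioi.2 (hpos i))]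
      rw [Finset.prod_congr rfl fun i _ => h1 i, ← Real.exp_sum, ← Finset.mul_sum]
      rw [Real.exp_le_exp, neg_mul, neg_le_neg_iff]
      have h2 : ∑ i, x i ≤ ((N : ℝ) + 1) * mx x := by
        have h3 : ∀ i ∈ (Finset.univ : Finset (Fin (N + 1))), x i ≤ mx x := fun i hi =>
          Finset.le_sup' x hi
        have h4 := Finset.sum_le_card_nsmul _ _ _ h3
        simpa using h4
      calc c * ∑ i, x i ≤ c * (((N : ℝ) + 1) * mx x) :=
            mul_le_mul_of_nonneg_left h2 hcpos.le
        _ = mx x := by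
          rw [hc]; field_simp
  refine lt_of_le_of_lt hle ?_
  have h := hprod.lintegral_lt_top
  exact h

end Pool.GE63
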