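import Pool.Agent.GE63.Defs
import Pool.Agent.GE63.OrIntS
import Pool.Agent.GE63.OrdShiftS
import Pool.Agent.GE63.PermS
import Pool.Agent.GE63.TiesS

set_option autoImplicit false

/-!
# GE63/Ord: the spacings are independent exponential variables (STUB)
-/

open MeasureTheory

namespace Pool.GE63

open Pool.HB45 Pool.SC45

/-- two equal coordinates: measure 0 (proper subspaces, `Measure.addHaar_submodule`) -/
theorem ties_null (N : ℕ) : volume {x : Fin (N + 1) → ℝ | (∃ a, x a = 0) ∨ ∃ a b, a ≠ b ∧ x a = x b} = 0 :=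
  ties_nullS N

/-- PERMUTATION of the coordinates (`volume_measurePreserving_piCongrLeft`) -/
theorem OR_perm {N : ℕ} (g : Equiv.Perm (Fin (N + 1))) (v : ℝ) (S T : Finset (Fin N)) :
    ∫⁻ x in OR g v S T, ENNReal.ofReal (Real.exp (-(mx x))) =
      ∫⁻ x in OR 1 v S T, ENNReal.ofReal (Real.exp (-(mx x))) :=
  OR_permS g v S T

/-- TRANSLATION of all coordinates behind `p` by `v`: `y_p > 0` becomes `y_p > v`, the largest coordinate
grows by `v` -/
theorem OR_shift {N : ℕ} (v : ℝ) (hv : 0 ≤ v) (S T : Finset (Fin N)) (p : Fin N) (hS : p ∉ S) (hT : p ∉ T) :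
    ∫⁻ x in OR 1 v (insert p S) T, ENNReal.ofReal (Real.exp (-(mx x))) =
      ENNReal.ofReal (Real.exp (-v)) * ∫⁻ x in OR 1 v S T, ENNReal.ofReal (Real.exp (-(mx x))) :=
  OR_shift_S v hv S T p hS hT

theorem I0_pos (N : ℕ) : 0 < I0 N :=
  I0_posS N

/-- `e^(-mx x) ≤ e^(-(∑ x)/(N+1))` for `x ≥ 0`: product of one-dimensional integrals -/
theorem I0_lt_top (N : ℕ) : I0 N < ⊤ :=
  I0_lt_topS N

/-- INDEPENDENCE. Induction on `S` (`OR_shift`), then on `T` (`OR v S T` is the disjoint union of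
`OR v S (insert p T)` and `OR v (insert p S) T`). -/
theorem OR_int {N : ℕ} (g : Equiv.Perm (Fin (N + 1))) (v : ℝ) (hv : 0 ≤ v) (S T : Finset (Fin N))
    (hST : Disjoint S T) :
    ∫⁻ x in OR g v S T, ENNReal.ofReal (Real.exp (-(mx x))) =
      ENNReal.ofReal (Real.exp (-v) ^ S.card * (1 - Real.exp (-v)) ^ T.card) * I0 N :=
  OR_int_of v hv (fun g S T => OR_perm g v S T) (fun S T p hS hT => OR_shift v hv S T p hS hT)
    (I0_lt_top N) g S T hST

end Pool.GE63
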