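import Pool.Agent.GE63.Defs

set_option autoImplicit false

/-!
# GE63/ShiftS: translation of the coordinates behind `p`
-/

open MeasureTheory

namespace Pool.GE63

open Pool.HB45 Pool.SC45

theorem OR_measS {N : ℕ} (g : Equiv.Perm (Fin (N + 1))) (v : ℝ) (S T : Finset (Fin N)) :
    MeasurableSet (OR g v S T) := by
  have h : OR g v S T = {x : Fin (N + 1) → ℝ | 0 < x (g 0)} ∩
      ((⋂ p : Fin N, {x | x (g p.castSucc) < x (g p.succ)}) ∩
        ((⋂ p ∈ S, {x | v < x (g p.succ) - x (g p.castSucc)}) ∩
          ⋂ p ∈ T, {x | x (g p.succ) - x (g p.castSucc) ≤ v})) := by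
    ext x
    simp [OR]
  rw [h]
  have hm : ∀ i : Fin (N + 1), Measurable fun x : Fin (N + 1) → ℝ => x i :=
    fun i => measurable_pi_apply i
  refine (measurableSet_lt measurable_const (hm _)).inter ?_
  refine (MeasurableSet.iInter fun p => measurableSet_lt (hm _) (hm _)).inter ?_
  refine (Finset.measurableSet_biInter _ fun p _ =>
    measurableSet_lt measurable_const ((hm _).sub (hm _))).inter ?_
  exact Finset.measurableSet_biInter _ fun p _ =>
    measurableSet_le ((hm _).sub (hm _)) measurable_const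

/-- the translation vector -/
def shv {N : ℕ} (v : ℝ) (p : Fin N) : Fin (N + 1) → ℝ := fun i => if p.castSucc < i then v else 0

theorem shv_castSucc {N : ℕ} (v : ℝ) (p q : Fin N) :
    shv v p q.castSucc = if p < q then v else 0 := by
  unfold shv
  simp only [Fin.castSucc_lt_castSucc_iff]

theorem shv_succ {N : ℕ} (v : ℝ) (p q : Fin N) :
    shv v p q.succ = if p ≤ q then v else 0 := by
  unfold shv
  simp only [Fin.castSucc_lt_succ_iff]

theorem lt_lastS {N : ℕ} {v : ℝ} {S T : Finset (Fin N)} {x : Fin (N + 1) → ℝ}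
    (hx : x ∈ OR 1 v S T) : StrictMono x := by
  refine Fin.strictMono_iff_lt_succ.2 fun p => ?_
  simpa using hx.2.1 p

theorem mx_lastS {N : ℕ} {v : ℝ} {S T : Finset (Fin N)} {x : Fin (N + 1) → ℝ}
    (hx : x ∈ OR 1 v S T) : mx x = x (Fin.last N) := by
  apply le_antisymm
  · exact Finset.sup'_le _ _ fun p _ => (lt_lastS hx).monotone (Fin.le_last p)
  · exact Finset.le_sup' x (Finset.mem_univ (Fin.last N))

theorem shift_memS {N : ℕ} (v : ℝ) (hv : 0 ≤ v) (S T : Finset (Fin N)) (p : Fin N) (hS : p ∉ S)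
    (hT : p ∉ T) (x : Fin (N + 1) → ℝ) :
    x + shv v p ∈ OR 1 v (insert p S) T ↔ x ∈ OR 1 v S T := by
  have hdiff : ∀ q : Fin N, (x + shv v p) q.succ - (x + shv v p) q.castSucc =
      x q.succ - x q.castSucc + if q = p then v else 0 := by
    intro q
    rw [Pi.add_apply, Pi.add_apply, shv_succ, shv_castSucc]
    rcases lt_trichotomy p q with h | h | h
    · rw [if_pos h.le, if_pos h, if_neg h.ne']
      ring
    · subst h
      rw [if_pos le_rfl, if_neg (lt_irrefl _), if_pos rfl]
      ring
    · rw [if_neg (not_le.2 h), if_neg (not_lt.2 h.le), if_neg h.ne]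
      ring
  have h0 : (x + shv v p) 0 = x 0 := by
    rw [Pi.add_apply, shv, if_neg (Fin.not_lt_zero _), add_zero]
  unfold OR
  simp only [Set.mem_setOf_eq, Equiv.Perm.one_apply, h0, Finset.mem_insert, hdiff]
  constructor
  · rintro ⟨h1, h2, h3, h4⟩
    refine ⟨h1, fun q => ?_, fun q hq => ?_, fun q hq => ?_⟩
    · have h5 := sub_pos.2 (h2 q)
      rw [hdiff] at h5
      by_cases hqp : q = p
      · have h6 := h3 q (Or.inl hqp)
        rw [if_pos hqp] at h6
        linarith
      · rw [if_neg hqp] at h5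
        linarith
    · have h6 := h3 q (Or.inr hq)
      have hqp : q ≠ p := fun h => hS (h ▸ hq)
      rw [if_neg hqp] at h6
      linarith
    · have h6 := h4 q hq
      have hqp : q ≠ p := fun h => hT (h ▸ hq)
      rw [if_neg hqp] at h6
      linarith
  · rintro ⟨h1, h2, h3, h4⟩
    refine ⟨h1, fun q => ?_, fun q hq => ?_, fun q hq => ?_⟩
    · have h5 := h2 q
      have h6 := hdiff q
      have h7 : (0 : ℝ) ≤ if q = p then v else 0 := by
        split_ifs
        · exact hv
        · exact le_rfl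
      linarith
    · by_cases hqp : q = p
      · rw [if_pos hqp]
        have := h2 q
        linarith
      · rw [if_neg hqp]
        have := h3 q (hq.resolve_left hqp)
        linarith
    · have hqp : q ≠ p := fun h => hT (h ▸ hq)
      rw [if_neg hqp]
      have := h4 q hq
      linarith

theorem OR_shiftS {N : ℕ} (v : ℝ) (hv : 0 ≤ v) (S T : Finset (Fin N)) (p : Fin N) (hS : p ∉ S)
    (hT : p ∉ T) :
    ∫⁻ x in OR 1 v (insert p S) T, ENNReal.ofReal (Real.exp (-(mx x))) =
      ENNReal.ofReal (Real.exp (-v)) * ∫⁻ x in OR 1 v S T, ENNReal.ofReal (Real.exp (-(mx x))) := by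
  have hmp : MeasurePreserving (fun x : Fin (N + 1) → ℝ => x + shv v p) volume volume :=
    measurePreserving_add_right volume (shv v p)
  have hemb : MeasurableEmbedding (fun x : Fin (N + 1) → ℝ => x + shv v p) :=
    measurableEmbedding_addRight (shv v p)
  have h := hmp.setLIntegral_comp_preimage_emb hemb
    (fun x => ENNReal.ofReal (Real.exp (-(mx x)))) (OR 1 v (insert p S) T)
  have hpre : (fun x : Fin (N + 1) → ℝ => x + shv v p) ⁻¹' OR 1 v (insert p S) T =
      OR 1 v S T := by
    ext x
    exact shift_memS v hv S T p hS hT x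
  rw [hpre] at h
  rw [← h, ← lintegral_const_mul' _ _ ENNReal.ofReal_ne_top]
  refine setLIntegral_congr_fun (OR_measS 1 v S T) fun x hx => ?_
  have h1 := mx_lastS hx
  have h2 := mx_lastS ((shift_memS v hv S T p hS hT x).2 hx)
  have h3 : shv v p (Fin.last N) = v := by
    rw [shv, if_pos (Fin.castSucc_lt_last p)]
  rw [h1, h2, Pi.add_apply, h3, ← ENNReal.ofReal_mul (Real.exp_pos _).le, ← Real.exp_add]
  congr 2
  ring

end Pool.GE63
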