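import Pool.Agent.GE63.SubGS

set_option autoImplicit false

/-!
# GE63/SubG: the weak exponential moment bound in both signs, for heights `≤ c N`
-/

namespace Pool.GE63

open Pool.HB45 Pool.SC45

/-- PROOF. `v ≥ 0`: `UP` with `q = v + 4 v²` (so `q - 2q² ≥ v`), `(q + q²) GG ≤ v GG + 6 v² GG`, `GG ≤ h ≤ c N`.
`v < 0`: `LO` with `q + q² = |v|` (or `q = |v|`): on the words with `#Bf f ≤ ε' N` one has
`2 ∑_(d≥2) q^d AA d ≤ 2 (q² f #Bf f + q^(f+1) N/(1-q)) ≤ ε v² N` (`AA d g ≤ #Bf f` for `d ≤ f`, `AA d g ≤ N`); the others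
have share `≤ e^(-N)` (`NL25.rare_zero`), and `e^(-N) ≤ e^(v GG)`. -/
theorem subG (ε : ℝ) (hε : 0 < ε) : ∃ v0 : ℝ, 0 < v0 ∧ ∃ c : ℝ, 0 < c ∧ ∃ N0 : ℕ, ∀ N ≥ N0, ∀ h : ℕ,
    1 ≤ h → (h : ℝ) ≤ c * N → ∀ (Q : Rel (N + 1)) (κ lab : Fin (N + 1) → ℕ),
    Lev h Q κ → Nat' Q lab → Tr Q → NL25.SubG Q ε v0 :=
  subG' ε hε

end Pool.GE63
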