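import Pool.Agent.GE63.UpLo
import Pool.Agent.NL25.Rare

set_option autoImplicit false

/-!
# GE63/SubGS: the weak exponential moment bound in both signs, for heights `≤ c N`
-/

namespace Pool.GE63

open Pool.HB45 Pool.SC45

theorem sg_adj_le_Bf {N : ℕ} (f : ℕ) (hf : 1 ≤ f) (Q : Rel (N + 1))
    (g : Equiv.Perm (Fin (N + 1))) : adj Q g ≤ (Bf f Q g).card := by
  classical
  unfold adj adjs Bf
  apply Finset.card_le_card_of_injOn (fun p : Fin N => p.succ)
  · intro p hp
    rw [Finset.mem_coe, Finset.mem_filter] at hp ⊢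
    refine ⟨Finset.mem_univ _, p.castSucc, Fin.castSucc_lt_succ, ?_, hp.2⟩
    simp only [Fin.val_succ, Fin.val_castSucc]
    omega
  · intro p _ p' _ h
    exact Fin.succ_injective _ h

theorem sg_AA_le_Bf {N : ℕ} (d f : ℕ) (hd : 1 ≤ d) (hdf : d ≤ f) (Q : Rel (N + 1))
    (g : Equiv.Perm (Fin (N + 1))) : AA Q d g ≤ (Bf f Q g).card := by
  classical
  unfold AA Bf
  apply Finset.card_le_card_of_injOn
    (fun i : Fin (N + 1) => if h : i.val + d < N + 1 then (⟨i.val + d, h⟩ : Fin (N + 1)) else i)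
  · intro i hi
    rw [Finset.mem_coe, Finset.mem_filter] at hi ⊢
    obtain ⟨-, h, hQ, -⟩ := hi
    refine ⟨Finset.mem_univ _, i, ?_⟩
    simp only [dif_pos h]
    refine ⟨?_, ?_, hQ⟩
    · rw [Fin.lt_def]
      simp only
      omega
    · show i.val + d ≤ i.val + f
      omega
  · intro i hi i' hi' h
    rw [Finset.mem_coe, Finset.mem_filter] at hi hi'
    obtain ⟨-, h1, -⟩ := hi
    obtain ⟨-, h2, -⟩ := hi'
    simp only [dif_pos h1, dif_pos h2] at h
    have h3 := congrArg Fin.val h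
    simp only at h3
    exact Fin.ext (by omega)

theorem sg_AA_le {N : ℕ} (d : ℕ) (Q : Rel (N + 1)) (g : Equiv.Perm (Fin (N + 1))) :
    AA Q d g ≤ N + 1 := by
  classical
  unfold AA
  exact (Finset.card_le_univ _).trans (by rw [Fintype.card_fin])

/-- geometric tail -/
theorem sg_geom {u : ℝ} (hu0 : 0 ≤ u) (hu1 : u ≤ 1 / 2) (N : ℕ) :
    ∑ d ∈ Finset.Icc 3 N, u ^ d ≤ 2 * u ^ 3 := by
  have h : ∀ M : ℕ, ∑ d ∈ Finset.Ico 3 (3 + M), u ^ d ≤ 2 * u ^ 3 - 2 * u ^ (3 + M) := by
    intro M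
    induction M with
    | zero => simp
    | succ M ih =>
      rw [← add_assoc, Finset.sum_Ico_succ_top (by omega)]
      have h1 : u ^ (3 + M + 1) ≤ u ^ (3 + M) / 2 := by
        rw [pow_succ]
        have := mul_le_mul_of_nonneg_left hu1 (pow_nonneg hu0 (3 + M))
        linarith
      linarith
  by_cases hN : 3 ≤ N + 1
  · obtain ⟨M, hM⟩ := Nat.exists_eq_add_of_le hN
    have e : Finset.Icc 3 N = Finset.Ico 3 (3 + M) := by
      ext d
      simp only [Finset.mem_Icc, Finset.mem_Ico]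
      omega
    rw [e]
    have := h M
    have h2 : 0 ≤ u ^ (3 + M) := pow_nonneg hu0 _
    linarith
  · have e : Finset.Icc 3 N = ∅ := by
      ext d
      simp only [Finset.mem_Icc, Finset.notMem_empty, iff_false]
      omega
    rw [e, Finset.sum_empty]
    positivity

/-- the sum over the distances, on a word with few near comparable letters -/
theorem sg_sum {N : ℕ} (Q : Rel (N + 1)) (g : Equiv.Perm (Fin (N + 1))) {u B : ℝ} (hu0 : 0 ≤ u)
    (hu1 : u ≤ 1 / 2) (hB : ((Bf 2 Q g).card : ℝ) ≤ B) :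
    ∑ d ∈ Finset.Icc 2 N, u ^ d * AA Q d g ≤ u ^ 2 * B + 2 * u ^ 3 * (N + 1) := by
  have hB0 : 0 ≤ B := le_trans (Nat.cast_nonneg _) hB
  by_cases hN : 2 ≤ N
  · have e : Finset.Icc 2 N = insert 2 (Finset.Icc 3 N) := by
      ext d
      simp only [Finset.mem_Icc, Finset.mem_insert]
      omega
    rw [e, Finset.sum_insert (by simp)]
    have h1 : (AA Q 2 g : ℝ) ≤ B :=
      le_trans (by exact_mod_cast sg_AA_le_Bf 2 2 (by norm_num) le_rfl Q g) hB
    have h2 : ∑ d ∈ Finset.Icc 3 N, u ^ d * (AA Q d g : ℝ) ≤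
        (∑ d ∈ Finset.Icc 3 N, u ^ d) * (N + 1) := by
      rw [Finset.sum_mul]
      refine Finset.sum_le_sum fun d _ => ?_
      have : (AA Q d g : ℝ) ≤ (N : ℝ) + 1 := by exact_mod_cast sg_AA_le d Q g
      exact mul_le_mul_of_nonneg_left this (pow_nonneg hu0 _)
    have h3 := mul_le_mul_of_nonneg_right (sg_geom hu0 hu1 N)
      (by positivity : (0 : ℝ) ≤ (N : ℝ) + 1)
    have h4 := mul_le_mul_of_nonneg_left h1 (sq_nonneg u)
    linarith
  · have e : Finset.Icc 2 N = ∅ := by
      ext d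
      simp only [Finset.mem_Icc, Finset.notMem_empty, iff_false]
      omega
    rw [e, Finset.sum_empty]
    positivity

theorem subG' (ε : ℝ) (hε : 0 < ε) : ∃ v0 : ℝ, 0 < v0 ∧ ∃ c : ℝ, 0 < c ∧ ∃ N0 : ℕ, ∀ N ≥ N0, ∀ h : ℕ,
    1 ≤ h → (h : ℝ) ≤ c * N → ∀ (Q : Rel (N + 1)) (κ lab : Fin (N + 1) → ℕ),
    Lev h Q κ → Nat' Q lab → Tr Q → NL25.SubG Q ε v0 := by
  classical
  obtain ⟨c1, hc1, N1, hN1⟩ := NL25.rare_zero 2 (ε / 6) (by positivity)
  refine ⟨min (1 / 10) (ε / 16), lt_min (by norm_num) (by positivity),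
    min c1 (min 1 (ε / 6)), lt_min hc1 (lt_min one_pos (by positivity)), max N1 1, ?_⟩
  intro N hN h hh hhc Q κ lab hκ hn hQ v hv
  have hNN1 : N1 ≤ N := (le_max_left _ _).trans hN
  have hN1' : 1 ≤ N := (le_max_right _ _).trans hN
  have hNR : (1 : ℝ) ≤ N := by exact_mod_cast hN1'
  have hc1' : (h : ℝ) ≤ c1 * N :=
    hhc.trans (mul_le_mul_of_nonneg_right (min_le_left _ _) (by linarith))
  have hc2 : (h : ℝ) ≤ 1 * N :=
    hhc.trans (mul_le_mul_of_nonneg_right ((min_le_right _ _).trans (min_le_left _ _))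
      (by linarith))
  have hc3 : (h : ℝ) ≤ ε / 6 * N :=
    hhc.trans (mul_le_mul_of_nonneg_right ((min_le_right _ _).trans (min_le_right _ _))
      (by linarith))
  have hG0 := NL25.GG_nonneg Q
  have hGh := NL25.GG_le hκ hn
  have hv1 : |v| ≤ 1 / 10 := hv.trans (min_le_left _ _)
  have hv2 : |v| ≤ ε / 16 := hv.trans (min_le_right _ _)
  have hcard : (0 : ℝ) < (LE Q).card := NL25.card_pos hn
  rcases le_total 0 v with hv0 | hv0
  · -- `v ≥ 0`
    rw [abs_of_nonneg hv0] at hv1 hv2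
    obtain ⟨q, hq⟩ : ∃ q : ℝ, q = v + 4 * v ^ 2 := ⟨_, rfl⟩
    have hvv : v ^ 2 ≤ v / 10 := by nlinarith
    have hq0 : 0 ≤ q := by rw [hq]; positivity
    have hq1 : q ≤ 1 / 4 := by rw [hq]; linarith
    have hqv : v ≤ q - 2 * q ^ 2 := by
      have h1 : q ≤ 7 / 5 * v := by rw [hq]; linarith
      have h2 : q ^ 2 ≤ (7 / 5 * v) ^ 2 := pow_le_pow_left₀ hq0 h1 2
      have h3 : (7 / 5 * v) ^ 2 = 49 / 25 * v ^ 2 := by ring
      rw [h3] at h2
      have h4 : 0 ≤ v ^ 2 := sq_nonneg v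
      linarith
    have hqq : q + q ^ 2 ≤ v + 6 * v ^ 2 := by
      have h1 : q ≤ 7 / 5 * v := by rw [hq]; linarith
      have h2 : q ^ 2 ≤ (7 / 5 * v) ^ 2 := pow_le_pow_left₀ hq0 h1 2
      have h3 : (7 / 5 * v) ^ 2 = 49 / 25 * v ^ 2 := by ring
      rw [h3] at h2
      have h4 : 0 ≤ v ^ 2 := sq_nonneg v
      linarith
    have hUP := UP hn q hq0 hq1
    have e : (GG Q : ℝ) = NL25.GG Q := rfl
    rw [e] at hUP
    calc ∑ g ∈ LE Q, Real.exp (v * adj Q g)
        ≤ ∑ g ∈ LE Q, Real.exp ((q - 2 * q ^ 2) * adj Q g) :=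
          Finset.sum_le_sum fun g _ => Real.exp_le_exp.2
            (mul_le_mul_of_nonneg_right hqv (Nat.cast_nonneg _))
      _ ≤ (LE Q).card * Real.exp ((q + q ^ 2) * NL25.GG Q) := hUP
      _ ≤ (LE Q).card * Real.exp (v * NL25.GG Q + ε * v ^ 2 * N + 1) := by
          apply mul_le_mul_of_nonneg_left _ hcard.le
          apply Real.exp_le_exp.2
          have h1 := mul_le_mul_of_nonneg_right hqq hG0
          have h2 : 6 * v ^ 2 * NL25.GG Q ≤ ε * v ^ 2 * N := by
            have h3 : NL25.GG Q ≤ ε / 6 * N := hGh.trans hc3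
            have h4 := mul_le_mul_of_nonneg_left h3 (by positivity : 0 ≤ 6 * v ^ 2)
            linarith
          linarith
  · -- `v ≤ 0`
    obtain ⟨u, hu⟩ : ∃ u : ℝ, u = -v := ⟨_, rfl⟩
    have hvu : v = -u := by rw [hu]; ring
    have hu0 : 0 ≤ u := by rw [hu]; linarith
    rw [abs_of_nonpos hv0, ← hu] at hv1 hv2
    rw [hvu]
    have hLO := LO hn u hu0 (by linarith)
    have e : (GG Q : ℝ) = NL25.GG Q := rfl
    rw [e] at hLO
    have hrare := hN1 N hNN1 h Q κ lab hh hc1' hκ hn hQ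
    rw [← Finset.sum_filter_add_sum_filter_not (LE Q)
      (fun g => ε / 6 * N ≤ ((Bf 2 Q g).card : ℝ))]
    have h1 : ∑ g ∈ (LE Q).filter (fun g => ε / 6 * N ≤ ((Bf 2 Q g).card : ℝ)),
        Real.exp (-u * adj Q g) ≤ (LE Q).card * Real.exp (-(u * NL25.GG Q)) := by
      calc ∑ g ∈ (LE Q).filter (fun g => ε / 6 * N ≤ ((Bf 2 Q g).card : ℝ)),
            Real.exp (-u * adj Q g)
          ≤ ∑ _g ∈ (LE Q).filter (fun g => ε / 6 * N ≤ ((Bf 2 Q g).card : ℝ)), (1 : ℝ) := by
            refine Finset.sum_le_sum fun g _ => ?_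
            rw [Real.exp_le_one_iff]
            have : (0 : ℝ) ≤ adj Q g := Nat.cast_nonneg _
            nlinarith
        _ = (((LE Q).filter (fun g => ε / 6 * N ≤ ((Bf 2 Q g).card : ℝ))).card : ℝ) := by
            rw [Finset.sum_const, nsmul_eq_mul, mul_one]
        _ ≤ Real.exp (-N) * (LE Q).card := hrare
        _ ≤ (LE Q).card * Real.exp (-(u * NL25.GG Q)) := by
            rw [mul_comm]
            apply mul_le_mul_of_nonneg_left _ hcard.le
            apply Real.exp_le_exp.2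
            have h2 : NL25.GG Q ≤ N := by linarith
            have h3 : u * NL25.GG Q ≤ 1 * N :=
              mul_le_mul (by linarith) h2 hG0 (by norm_num)
            linarith
    have h2 : ∑ g ∈ (LE Q).filter (fun g => ¬ ε / 6 * N ≤ ((Bf 2 Q g).card : ℝ)),
        Real.exp (-u * adj Q g) ≤
          Real.exp (ε * u ^ 2 * N) * ((LE Q).card * Real.exp (-(u * NL25.GG Q))) := by
      calc ∑ g ∈ (LE Q).filter (fun g => ¬ ε / 6 * N ≤ ((Bf 2 Q g).card : ℝ)),
            Real.exp (-u * adj Q g)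
          ≤ ∑ g ∈ (LE Q).filter (fun g => ¬ ε / 6 * N ≤ ((Bf 2 Q g).card : ℝ)),
            Real.exp (ε * u ^ 2 * N) * Real.exp (-((u + u ^ 2) * adj Q g) -
              2 * ∑ d ∈ Finset.Icc 2 N, u ^ d * AA Q d g) := by
            refine Finset.sum_le_sum fun g hg => ?_
            have h3 := (Finset.mem_filter.1 hg).2
            push Not at h3
            rw [← Real.exp_add]
            apply Real.exp_le_exp.2
            have h4 := sg_sum Q g hu0 (by linarith) h3.le
            have h5 : (adj Q g : ℝ) ≤ ε / 6 * N :=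
              le_trans (by exact_mod_cast sg_adj_le_Bf 2 (by norm_num) Q g) h3.le
            have h6 := mul_le_mul_of_nonneg_left h5 (sq_nonneg u)
            have h7 : u ^ 3 * (N + 1) ≤ u ^ 2 * (ε / 8) * N := by
              have h8 : u ^ 3 = u ^ 2 * u := by ring
              have h9 : u * ((N : ℝ) + 1) ≤ ε / 16 * (2 * N) :=
                mul_le_mul hv2 (by linarith) (by linarith) (by positivity)
              have h10 := mul_le_mul_of_nonneg_left h9 (sq_nonneg u)
              rw [h8]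
              linarith
            have h11 : 0 ≤ u ^ 2 * (ε * N) := by positivity
            linarith
        _ ≤ ∑ g ∈ LE Q, Real.exp (ε * u ^ 2 * N) * Real.exp (-((u + u ^ 2) * adj Q g) -
              2 * ∑ d ∈ Finset.Icc 2 N, u ^ d * AA Q d g) :=
            Finset.sum_le_sum_of_subset_of_nonneg (Finset.filter_subset _ _)
              fun _ _ _ => by positivity
        _ ≤ _ := by
            rw [← Finset.mul_sum]
            exact mul_le_mul_of_nonneg_left hLO (Real.exp_pos _).le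
    have hE : 1 ≤ Real.exp (ε * u ^ 2 * N) :=
      Real.one_le_exp (mul_nonneg (mul_nonneg hε.le (sq_nonneg u)) (Nat.cast_nonneg N))
    have he : (2 : ℝ) ≤ Real.exp 1 := by
      have := Real.add_one_le_exp (1 : ℝ)
      linarith
    have hX : 0 ≤ (LE Q).card * Real.exp (-(u * NL25.GG Q)) :=
      mul_nonneg hcard.le (Real.exp_pos _).le
    calc _ ≤ (LE Q).card * Real.exp (-(u * NL25.GG Q)) +
          Real.exp (ε * u ^ 2 * N) * ((LE Q).card * Real.exp (-(u * NL25.GG Q))) :=
          add_le_add h1 h2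
      _ ≤ Real.exp (ε * u ^ 2 * N) * ((LE Q).card * Real.exp (-(u * NL25.GG Q))) +
          Real.exp (ε * u ^ 2 * N) * ((LE Q).card * Real.exp (-(u * NL25.GG Q))) := by
          have := mul_le_mul_of_nonneg_right hE hX
          linarith
      _ ≤ Real.exp 1 * (Real.exp (ε * u ^ 2 * N) *
          ((LE Q).card * Real.exp (-(u * NL25.GG Q)))) := by
          have : 0 ≤ Real.exp (ε * u ^ 2 * N) * ((LE Q).card * Real.exp (-(u * NL25.GG Q))) :=
            mul_nonneg (Real.exp_pos _).le hX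
          have := mul_le_mul_of_nonneg_right he this
          linarith
      _ = (LE Q).card * Real.exp (-u * NL25.GG Q + ε * (-u) ^ 2 * N + 1) := by
          rw [Real.exp_add, Real.exp_add]
          have e1 : Real.exp (-(u * NL25.GG Q)) = Real.exp (-u * NL25.GG Q) := by
            congr 1
            ring
          rw [e1, neg_sq]
          ring

end Pool.GE63
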