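import Pool.Agent.GE63.LOS

set_option autoImplicit false

/-!
# GE63/UPS: proof of `UP` (helper47)
-/

namespace Pool.GE63

open Pool.HB45 Pool.SC45

theorem AA_le {N : ℕ} (Q : Rel (N + 1)) (d : ℕ) (g : Equiv.Perm (Fin (N + 1))) :
    AA Q d g ≤ N + 1 := by
  classical
  unfold AA
  refine (Finset.card_le_univ _).trans ?_
  rw [Fintype.card_fin]

open Classical in
/-- first order lower bound for one word -/
theorem good_ge_first {N : ℕ} {Q : Rel (N + 1)} {lab : Fin (N + 1) → ℕ} (hn : Nat' Q lab)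
    (g : Equiv.Perm (Fin (N + 1))) (hg : g ∈ LE Q) (q : ℝ) (hq0 : 0 ≤ q) (hq1 : q ≤ 1) :
    1 - adj Q g * q - ((N + 1) * N : ℝ) * q ^ 2 ≤
      ∑ S ∈ (Finset.univ : Finset (Finset (Fin N))).filter (Good Q g),
        (1 - q) ^ S.card * q ^ (N - S.card) := by
  refine le_trans ?_ (good_ge hn g hg q hq0 hq1)
  have hq2 : q ^ 2 ≤ 1 := pow_le_one₀ hq0 hq1
  have h1 : (1 - q ^ 2) ^ ((N + 1) * N) ≤ ∏ d ∈ Finset.Icc 2 N, (1 - q ^ d) ^ AA Q d g := by
    calc (1 - q ^ 2) ^ ((N + 1) * N) ≤ (1 - q ^ 2) ^ ((N + 1) * (Finset.Icc 2 N).card) := by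
          refine pow_le_pow_of_le_one (by linarith) (by nlinarith) (Nat.mul_le_mul_left _ ?_)
          rw [Nat.card_Icc]
          omega
      _ = ∏ _d ∈ Finset.Icc 2 N, (1 - q ^ 2) ^ (N + 1) := by
          rw [Finset.prod_const, pow_mul]
      _ ≤ _ := by
          refine Finset.prod_le_prod (fun d _ => pow_nonneg (by linarith) _) fun d hd => ?_
          have hd2 : 2 ≤ d := (Finset.mem_Icc.1 hd).1
          have h2 : q ^ d ≤ q ^ 2 := pow_le_pow_of_le_one hq0 hq1 hd2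
          have h3 : 0 ≤ q ^ d := by positivity
          calc (1 - q ^ 2) ^ (N + 1) ≤ (1 - q ^ d) ^ (N + 1) :=
                pow_le_pow_left₀ (by linarith) (by linarith) _
            _ ≤ (1 - q ^ d) ^ AA Q d g :=
                pow_le_pow_of_le_one (by linarith) (by linarith) (AA_le Q d g)
  have h2 : 1 - adj Q g * q ≤ (1 - q) ^ adj Q g := by
    have := one_add_mul_le_pow (show (-2 : ℝ) ≤ -q by linarith) (adj Q g)
    calc 1 - adj Q g * q = 1 + adj Q g * (-q) := by ring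
      _ ≤ (1 + -q) ^ adj Q g := this
      _ = _ := by ring
  have h3 : 1 - ((N + 1) * N : ℝ) * q ^ 2 ≤ (1 - q ^ 2) ^ ((N + 1) * N) := by
    have := one_add_mul_le_pow (show (-2 : ℝ) ≤ -q ^ 2 by linarith) ((N + 1) * N)
    push_cast at this
    calc 1 - ((N + 1) * N : ℝ) * q ^ 2 = 1 + ((N : ℝ) + 1) * N * (-q ^ 2) := by ring
      _ ≤ (1 + -q ^ 2) ^ ((N + 1) * N) := this
      _ = _ := by ring
  have h4 : 0 ≤ (1 - q) ^ adj Q g := pow_nonneg (by linarith) _
  have h5 : 0 ≤ (1 - q ^ 2) ^ ((N + 1) * N) := pow_nonneg (by linarith) _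
  have hx : 0 ≤ (adj Q g : ℝ) * q := by positivity
  have hy : 0 ≤ ((N + 1) * N : ℝ) * q ^ 2 := by positivity
  refine le_trans ?_ (mul_le_mul_of_nonneg_left h1 h4)
  set x := (adj Q g : ℝ) * q
  set y := ((N + 1) * N : ℝ) * q ^ 2
  set a := (1 - q) ^ adj Q g
  set b := (1 - q ^ 2) ^ ((N + 1) * N)
  by_cases hx1 : x ≤ 1
  · by_cases hy1 : y ≤ 1
    · calc 1 - x - y ≤ (1 - x) * (1 - y) := by nlinarith
        _ ≤ a * b := mul_le_mul h2 h3 (by linarith) h4
    · have : 0 ≤ a * b := mul_nonneg h4 h5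
      linarith
  · have : 0 ≤ a * b := mul_nonneg h4 h5
    linarith

/-- first order on the positive side -/
theorem zL_pos_ge {N : ℕ} {Q : Rel (N + 1)} {lab : Fin (N + 1) → ℕ} (hn : Nat' Q lab)
    (hne : (LE Q).Nonempty) (t : ℝ) (ht : 0 ≤ t) :
    zL Q 0 * (1 - GG Q * (1 - Real.exp (-t)) - ((N + 1) * N : ℝ) * (1 - Real.exp (-t)) ^ 2) ≤
      zL Q t := by
  classical
  have he : Real.exp (-t) ≤ 1 := by rw [Real.exp_le_one_iff]; linarith
  have he0 := Real.exp_pos (-t)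
  refine le_trans ?_ (zL_ge (Z_pos hn t ht))
  rw [zL_zero hn]
  set q := 1 - Real.exp (-t) with hq
  have hq' : Real.exp (-t) = 1 - q := by rw [hq]; ring
  calc ((LE Q).card : ℝ) * (1 - GG Q * q - ((N + 1) * N : ℝ) * q ^ 2)
      = (LE Q).card * (1 - ((N + 1) * N : ℝ) * q ^ 2) - ((LE Q).card * GG Q) * q := by ring
    _ = ∑ g ∈ LE Q, (1 - adj Q g * q - ((N + 1) * N : ℝ) * q ^ 2) := by
        rw [card_mul_GG Q hne, Finset.sum_mul, ← nsmul_eq_mul, ← Finset.sum_const,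
          ← Finset.sum_sub_distrib]
        refine Finset.sum_congr rfl fun g _ => by ring
    _ ≤ _ := Finset.sum_le_sum fun g hg => by
        rw [hq']
        exact good_ge_first hn g hg q (by linarith) (by linarith)

/-- `z (-v) ≤ #LE e^(vG)` -/
theorem zL_neg_le {N : ℕ} {Q : Rel (N + 1)} {lab : Fin (N + 1) → ℕ} (hn : Nat' Q lab)
    (hne : (LE Q).Nonempty) (v : ℝ) (hv : 0 ≤ v) :
    zL Q (-v) ≤ (LE Q).card * Real.exp (v * GG Q) := by
  have h := lim_neg (zL Q) (zL_nonneg Q) (zL_zero_pos hn hne) (zL_mid Q) (GG Q)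
    ((N + 1) * N : ℝ) (GG_nonneg' Q) (by positivity)
    (fun t ht => zL_pos_ge hn hne t ht) v hv
  rwa [zL_zero hn] at h

theorem UP_S {N : ℕ} {Q : Rel (N + 1)} {lab : Fin (N + 1) → ℕ} (hn : Nat' Q lab) (q : ℝ)
    (hq0 : 0 ≤ q) (hq1 : q ≤ 1 / 4) :
    ∑ g ∈ LE Q, Real.exp ((q - 2 * q ^ 2) * adj Q g) ≤
      (LE Q).card * Real.exp ((q + q ^ 2) * GG Q) := by
  classical
  rcases (LE Q).eq_empty_or_nonempty with hemp | hne
  · rw [hemp]
    simp
  have h1q : 0 < 1 - q := by linarith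
  obtain ⟨v, hv⟩ : ∃ v, v = -Real.log (1 - q) := ⟨_, rfl⟩
  have hev : Real.exp (-v) = 1 - q := by
    rw [hv, neg_neg, Real.exp_log h1q]
  have hqv : q ≤ v := by
    have h1 := Real.log_le_sub_one_of_pos h1q
    rw [hv]
    linarith
  have hv0 : 0 ≤ v := hq0.trans hqv
  have hvq : v ≤ q + q ^ 2 := by
    have h1 := exp_le_one_sub hq0 (by linarith : q ≤ 1 / 2)
    rw [← hev] at h1
    have := Real.exp_le_exp.1 h1
    linarith
  have hup := zL_neg_le hn hne v hv0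
  have hlow := zL_ge (Z_neg hn v hv0)
  have hq' : 1 - Real.exp (-v) = q := by rw [hev]; ring
  rw [hq'] at hlow
  have hkey : Real.exp (q - 2 * q ^ 2) ≤ (1 + q) * (1 - q ^ 2) := by
    have hx0 : 0 ≤ q - 2 * q ^ 2 := by nlinarith
    have hx1 : q - 2 * q ^ 2 < 1 := by nlinarith
    refine (Real.exp_bound_div_one_sub_of_interval hx0 hx1).trans ?_
    rw [div_le_iff₀ (by linarith)]
    have h1 : (1 + q) * (1 - q ^ 2) * (1 - (q - 2 * q ^ 2)) =
        1 + q ^ 3 * (2 - q - 2 * q ^ 2) := by ring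
    rw [h1]
    have h2 : 0 ≤ q ^ 3 * (2 - q - 2 * q ^ 2) := mul_nonneg (by positivity) (by nlinarith)
    linarith
  calc ∑ g ∈ LE Q, Real.exp ((q - 2 * q ^ 2) * adj Q g)
      ≤ ∑ g ∈ LE Q, ((1 + q) * (1 - q ^ 2)) ^ adj Q g := by
        refine Finset.sum_le_sum fun g _ => ?_
        rw [mul_comm, Real.exp_nat_mul]
        exact pow_le_pow_left₀ (Real.exp_pos _).le hkey _
    _ ≤ ∑ g ∈ LE Q, ∑ T ∈ Mat Q g, q ^ T.card := by
        refine Finset.sum_le_sum fun g _ => ?_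
        have h := path_ge (adjs Q g) q hq0 (by linarith)
        unfold adj
        refine h.trans (le_of_eq ?_)
        unfold Mat
        congr
    _ ≤ zL Q (-v) := hlow
    _ ≤ (LE Q).card * Real.exp (v * GG Q) := hup
    _ ≤ (LE Q).card * Real.exp ((q + q ^ 2) * GG Q) := by
        apply mul_le_mul_of_nonneg_left _ (Nat.cast_nonneg _)
        exact Real.exp_le_exp.2 (mul_le_mul_of_nonneg_right hvq (GG_nonneg' Q))

end Pool.GE63
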