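import Pool.Agent.GE63.Mid
import Pool.Agent.GE63.Low
import Pool.Agent.GE63.Lim
import Pool.Agent.GE63.Har
import Pool.Agent.GE63.LOS
import Pool.Agent.GE63.UPS

set_option autoImplicit false

/-!
# GE63/UpLo: exponential moments of the number of comparable neighbours (STUB)
-/

namespace Pool.GE63

open Pool.HB45 Pool.SC45

/-- the real function `z v = (Z v / I0).toReal` -/
noncomputable def zz' {N : ℕ} (Q : Rel (N + 1)) (v : ℝ) : ℝ := (Z Q v / I0 N).toReal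

/-- PROOF. `z = zz' Q`: `Z_mid`, `Z_zero`, `Z_neg` (first order: `T = ∅` and `T = {p}`, `p ∈ adjs Q g`; `z (-t) ≥ e (1 + G q)`),
`lim_pos`; `z v ≥ ∑_g (…)` by `Z_pos`, `good_ge` with `q = 1 - e^(-v)`. Result with `q`:
`∑_g (1-q)^adj ∏_d (1-q^d)^(A d) ≤ e (1-q)^G`; then `1 - q ≥ e^(-q-q^2)`, `1 - q^d ≥ e^(-2 q^d)` (`q ≤ 1/4`),
`(1-q)^G ≤ e^(-qG)`. -/
theorem LO {N : ℕ} {Q : Rel (N + 1)} {lab : Fin (N + 1) → ℕ} (hn : Nat' Q lab) (q : ℝ)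
    (hq0 : 0 ≤ q) (hq1 : q ≤ 1 / 4) :
    ∑ g ∈ LE Q, Real.exp (-((q + q ^ 2) * adj Q g) - 2 * ∑ d ∈ Finset.Icc 2 N, q ^ d * AA Q d g) ≤
      (LE Q).card * Real.exp (-(q * GG Q)) := by
  exact LO_S hn q hq0 hq1

/-- PROOF. The same with `lim_neg`: first order `z t ≥ e (1 - G q - N^2 q^2)` from `Z_pos`: for one word
`∑_(S good) ≥ 1 - adj q - N^2 q^2` (union bound: all of `Fin N` minus `S` missing a comparable neighbour or two
neighbouring positions: a non-good `S` misses a position of `adjs Q g` or two neighbouring positions).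
`z (-v) ≥ ∑_g ∑_(T ∈ Mat) q^|T| ≥ ∑_g ((1+q)(1-q^2))^adj` (`path_ge`); `log ((1+q)(1-q^2)) ≥ q - 2q^2`,
`-log (1-q) ≤ q + q^2`. -/
theorem UP {N : ℕ} {Q : Rel (N + 1)} {lab : Fin (N + 1) → ℕ} (hn : Nat' Q lab) (q : ℝ)
    (hq0 : 0 ≤ q) (hq1 : q ≤ 1 / 4) :
    ∑ g ∈ LE Q, Real.exp ((q - 2 * q ^ 2) * adj Q g) ≤
      (LE Q).card * Real.exp ((q + q ^ 2) * GG Q) := by
  exact UP_S hn q hq0 hq1

end Pool.GE63
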