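import Pool.Agent.GE63.Ord

set_option autoImplicit false

/-!
# GE63/ZnegS: lower bound for `Z (-v)`
-/

open MeasureTheory

namespace Pool.GE63

open Pool.HB45 Pool.SC45

open Classical in
/-- exchange the positions `p`, `p + 1` for all `p ∈ T` (as a map) -/
noncomputable def swF {N : ℕ} (T : Finset (Fin N)) (i : Fin (N + 1)) : Fin (N + 1) :=
  if h : ∃ p : Fin N, p ∈ T ∧ p.castSucc = i then h.choose.succ
  else if h : ∃ p : Fin N, p ∈ T ∧ p.succ = i then h.choose.castSucc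
  else i

lemma swF_cast {N : ℕ} {T : Finset (Fin N)} {p : Fin N} (hp : p ∈ T) :
    swF T p.castSucc = p.succ := by
  have h : ∃ q : Fin N, q ∈ T ∧ q.castSucc = p.castSucc := ⟨p, hp, rfl⟩
  unfold swF
  rw [dif_pos h]
  have := h.choose_spec.2
  rw [Fin.castSucc_inj] at this
  rw [this]

lemma swF_succ {N : ℕ} {T : Finset (Fin N)} (hT : ∀ p ∈ T, ∀ p' ∈ T, p.val + 1 ≠ p'.val)
    {p : Fin N} (hp : p ∈ T) : swF T p.succ = p.castSucc := by
  have h0 : ¬ ∃ q : Fin N, q ∈ T ∧ q.castSucc = p.succ := by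
    rintro ⟨q, hq, hqp⟩
    have := congrArg Fin.val hqp
    rw [Fin.val_castSucc, Fin.val_succ] at this
    exact hT p hp q hq this.symm
  have h : ∃ q : Fin N, q ∈ T ∧ q.succ = p.succ := ⟨p, hp, rfl⟩
  unfold swF
  rw [dif_neg h0, dif_pos h]
  have := h.choose_spec.2
  rw [Fin.succ_inj] at this
  rw [this]

lemma swF_cases {N : ℕ} {T : Finset (Fin N)} (hT : ∀ p ∈ T, ∀ p' ∈ T, p.val + 1 ≠ p'.val)
    (i : Fin (N + 1)) : (∃ p ∈ T, p.castSucc = i ∧ swF T i = p.succ) ∨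
      (∃ p ∈ T, p.succ = i ∧ swF T i = p.castSucc) ∨ swF T i = i := by
  by_cases h0 : ∃ p : Fin N, p ∈ T ∧ p.castSucc = i
  · obtain ⟨p, hp, rfl⟩ := h0
    exact Or.inl ⟨p, hp, rfl, swF_cast hp⟩
  · by_cases h1 : ∃ p : Fin N, p ∈ T ∧ p.succ = i
    · obtain ⟨p, hp, rfl⟩ := h1
      exact Or.inr (Or.inl ⟨p, hp, rfl, swF_succ hT hp⟩)
    · right; right
      unfold swF
      rw [dif_neg h0, dif_neg h1]

lemma swF_invol {N : ℕ} {T : Finset (Fin N)} (hT : ∀ p ∈ T, ∀ p' ∈ T, p.val + 1 ≠ p'.val) :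
    Function.Involutive (swF T) := by
  intro i
  rcases swF_cases hT i with ⟨p, hp, rfl, h⟩ | ⟨p, hp, rfl, h⟩ | h
  · rw [h, swF_succ hT hp]
  · rw [h, swF_cast hp]
  · rw [h, h]

lemma swF_lt {N : ℕ} {T : Finset (Fin N)} (hT : ∀ p ∈ T, ∀ p' ∈ T, p.val + 1 ≠ p'.val)
    {i j : Fin (N + 1)} (h1 : swF T i < swF T j) (h2 : j < i) :
    ∃ p ∈ T, p.castSucc = j ∧ p.succ = i := by
  rw [Fin.lt_def] at h1 h2
  rcases swF_cases hT i with ⟨p, hp, hpi, h⟩ | ⟨p, hp, hpi, h⟩ | h <;>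
  rcases swF_cases hT j with ⟨p', hp', hpj, h'⟩ | ⟨p', hp', hpj, h'⟩ | h' <;>
  rw [h, h'] at h1
  · exfalso
    rw [← hpi, ← hpj] at h2
    simp only [Fin.val_castSucc, Fin.val_succ] at h1 h2
    omega
  · exfalso
    rw [← hpi, ← hpj] at h2
    simp only [Fin.val_castSucc, Fin.val_succ] at h1 h2
    omega
  · exfalso
    rw [← hpi] at h2
    simp only [Fin.val_castSucc, Fin.val_succ] at h1 h2
    omega
  · have hpp : p = p' := by
      rw [← hpi, ← hpj] at h2
      simp only [Fin.val_castSucc, Fin.val_succ] at h1 h2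
      apply Fin.ext
      omega
    subst hpp
    exact ⟨p, hp, hpj, hpi⟩
  · exfalso
    rw [← hpi, ← hpj] at h2
    simp only [Fin.val_castSucc, Fin.val_succ] at h1 h2
    omega
  · exfalso
    rw [← hpi] at h2
    simp only [Fin.val_castSucc, Fin.val_succ] at h1 h2
    omega
  · exfalso
    rw [← hpj] at h2
    simp only [Fin.val_castSucc, Fin.val_succ] at h1 h2
    omega
  · exfalso
    rw [← hpj] at h2
    simp only [Fin.val_castSucc, Fin.val_succ] at h1 h2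
    omega
  · exfalso
    omega

lemma mem_Mat' {N : ℕ} {Q : Rel (N + 1)} {g : Equiv.Perm (Fin (N + 1))} {T : Finset (Fin N)} :
    T ∈ Mat Q g ↔ (∀ p ∈ T, Q (g p.castSucc) (g p.succ)) ∧
      ∀ p ∈ T, ∀ p' ∈ T, p.val + 1 ≠ p'.val := by
  classical
  unfold Mat
  rw [Finset.mem_filter, Finset.mem_powerset]
  constructor
  · rintro ⟨h1, h2⟩
    refine ⟨fun p hp => ?_, h2⟩
    have h3 := h1 hp
    unfold adjs at h3
    rw [Finset.mem_filter] at h3
    exact h3.2
  · rintro ⟨h1, h2⟩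
    refine ⟨fun p hp => ?_, h2⟩
    unfold adjs
    rw [Finset.mem_filter]
    exact ⟨Finset.mem_univ _, h1 p hp⟩

open Classical in
/-- the order `g` with the positions of `T` exchanged -/
noncomputable def swP {N : ℕ} (T : Finset (Fin N)) (g : Equiv.Perm (Fin (N + 1))) :
    Equiv.Perm (Fin (N + 1)) :=
  if hT : ∀ p ∈ T, ∀ p' ∈ T, p.val + 1 ≠ p'.val then
    (Function.Involutive.toPerm (swF T) (swF_invol hT)).trans g
  else g

lemma swP_apply {N : ℕ} {T : Finset (Fin N)} (hT : ∀ p ∈ T, ∀ p' ∈ T, p.val + 1 ≠ p'.val)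
    (g : Equiv.Perm (Fin (N + 1))) (i : Fin (N + 1)) : swP T g i = g (swF T i) := by
  unfold swP
  rw [dif_pos hT]
  rfl

lemma swP_mem {N : ℕ} {Q : Rel (N + 1)} {g : Equiv.Perm (Fin (N + 1))} {T : Finset (Fin N)}
    (hg : g ∈ LE Q) (hT : T ∈ Mat Q g) (p : Fin N) :
    p ∈ T ↔ Q (swP T g p.succ) (swP T g p.castSucc) := by
  obtain ⟨h1, h2⟩ := mem_Mat'.1 hT
  rw [swP_apply h2, swP_apply h2]
  constructor
  · intro hp
    rw [swF_cast hp, swF_succ h2 hp]
    exact h1 p hp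
  · intro h
    have h3 := mem_LE.1 hg _ _ h
    obtain ⟨q, hq, hq1, -⟩ := swF_lt h2 h3 (Fin.castSucc_lt_succ)
    rw [Fin.castSucc_inj] at hq1
    rwa [← hq1]

lemma swP_inj {N : ℕ} {Q : Rel (N + 1)} {g g' : Equiv.Perm (Fin (N + 1))} {T T' : Finset (Fin N)}
    (hg : g ∈ LE Q) (hT : T ∈ Mat Q g) (hg' : g' ∈ LE Q) (hT' : T' ∈ Mat Q g')
    (h : swP T g = swP T' g') : g = g' ∧ T = T' := by
  have hTT : T = T' := by
    ext p
    rw [swP_mem hg hT, swP_mem hg' hT', h]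
  subst hTT
  refine ⟨?_, rfl⟩
  obtain ⟨-, h2⟩ := mem_Mat'.1 hT
  ext i
  have h3 := DFunLike.congr_fun h (swF T i)
  rw [swP_apply h2, swP_apply h2, swF_invol h2] at h3
  rw [h3]

lemma OR_strict {N : ℕ} {g : Equiv.Perm (Fin (N + 1))} {v : ℝ} {S T : Finset (Fin N)}
    {x : Fin (N + 1) → ℝ} (hx : x ∈ OR g v S T) : StrictMono (fun i => x (g i)) :=
  Fin.strictMono_iff_lt_succ.2 hx.2.1

lemma OR_disj {N : ℕ} {g g' : Equiv.Perm (Fin (N + 1))} {v v' : ℝ} {S T S' T' : Finset (Fin N)}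
    (hgg : g ≠ g') : Disjoint (OR g v S T) (OR g' v' S' T') := by
  rw [Set.disjoint_left]
  intro x hx hx'
  apply hgg
  have h1 := OR_strict hx
  have h2 := OR_strict hx'
  have key : ∀ (a b : Equiv.Perm (Fin (N + 1))), StrictMono (fun i => x (a i)) →
      StrictMono (fun i => x (b i)) → ∀ i, i ≤ a.symm (b i) := by
    intro a b ha hb
    have hsm : StrictMono (fun i => a.symm (b i)) := by
      intro i j hij
      have h3 : x (b i) < x (b j) := hb hij
      have h4 : (fun i => x (a i)) (a.symm (b i)) < (fun i => x (a i)) (a.symm (b j)) := by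
        show x (a (a.symm (b i))) < x (a (a.symm (b j)))
        rw [a.apply_symm_apply, a.apply_symm_apply]
        exact h3
      exact ha.lt_iff_lt.1 h4
    intro i
    exact hsm.le_apply
  ext i
  have h3 := key g g' h1 h2 (g'.symm (g i))
  have h4 := key g' g h2 h1 i
  rw [g'.apply_symm_apply, g.symm_apply_apply] at h3
  have h5 : g'.symm (g i) = i := le_antisymm h3 h4
  rw [← h5, g'.apply_symm_apply, h5]

lemma OR_meas {N : ℕ} (g : Equiv.Perm (Fin (N + 1))) (v : ℝ) (S T : Finset (Fin N)) :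
    MeasurableSet (OR g v S T) := by
  have hc : ∀ i : Fin (N + 1), Measurable (fun x : Fin (N + 1) → ℝ => x i) :=
    fun i => measurable_pi_apply i
  have e : OR g v S T = {x | 0 < x (g 0)} ∩ ((⋂ p : Fin N, {x | x (g p.castSucc) < x (g p.succ)}) ∩
      ((⋂ p ∈ S, {x | v < x (g p.succ) - x (g p.castSucc)}) ∩
        ⋂ p ∈ T, {x | x (g p.succ) - x (g p.castSucc) ≤ v})) := by
    ext x
    simp only [OR, Set.mem_ofPred_eq, Set.mem_inter_iff, Set.mem_iInter]
  rw [e]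
  refine (measurableSet_lt measurable_const (hc _)).inter ((MeasurableSet.iInter fun p =>
    measurableSet_lt (hc _) (hc _)).inter ((Finset.measurableSet_biInter _ fun p _ =>
    measurableSet_lt measurable_const ((hc _).sub (hc _))).inter
    (Finset.measurableSet_biInter _ fun p _ =>
    measurableSet_le ((hc _).sub (hc _)) measurable_const)))

lemma OR_sub {N : ℕ} {Q : Rel (N + 1)} {g : Equiv.Perm (Fin (N + 1))} {T : Finset (Fin N)}
    (hg : g ∈ LE Q) (hT : T ∈ Mat Q g) {v : ℝ} (hv : 0 ≤ v) :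
    OR (swP T g) v ∅ T ⊆ DD Q (-v) := by
  intro x hx
  obtain ⟨h1, h2⟩ := mem_Mat'.1 hT
  have hsm := OR_strict hx
  obtain ⟨h0, -, -, hxT⟩ := hx
  constructor
  · intro a
    have h3 : (fun i => x (swP T g i)) 0 ≤ (fun i => x (swP T g i)) ((swP T g).symm a) :=
      hsm.monotone (Fin.zero_le _)
    have h4 : x (swP T g 0) ≤ x (swP T g ((swP T g).symm a)) := h3
    rw [Equiv.apply_symm_apply] at h4
    linarith
  · intro a b hab
    obtain ⟨i, rfl⟩ := (swP T g).surjective a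
    obtain ⟨j, rfl⟩ := (swP T g).surjective b
    have h3 : swF T i < swF T j := by
      rw [swP_apply h2, swP_apply h2] at hab
      exact mem_LE.1 hg _ _ hab
    rcases lt_trichotomy i j with h4 | h4 | h4
    · have h5 : x (swP T g i) < x (swP T g j) := hsm h4
      linarith
    · rw [h4] at h3
      exact absurd h3 (lt_irrefl _)
    · obtain ⟨p, hp, rfl, rfl⟩ := swF_lt h2 h3 h4
      have h5 := hxT p hp
      linarith

open Classical in
theorem Z_negS {N : ℕ} {Q : Rel (N + 1)} {lab : Fin (N + 1) → ℕ} (_hn : Nat' Q lab) (v : ℝ)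
    (hv : 0 ≤ v) :
    ENNReal.ofReal (∑ g ∈ LE Q, ∑ T ∈ Mat Q g, (1 - Real.exp (-v)) ^ T.card) * I0 N ≤
      Z Q (-v) := by
  have hq : 0 ≤ 1 - Real.exp (-v) := by
    have : Real.exp (-v) ≤ 1 := Real.exp_le_one_iff.2 (by linarith)
    linarith
  let s : Finset (Equiv.Perm (Fin (N + 1)) × Finset (Fin N)) :=
    (LE Q ×ˢ Finset.univ).filter fun z => z.2 ∈ Mat Q z.1
  have hs : ∀ z, z ∈ s ↔ z.1 ∈ LE Q ∧ z.2 ∈ Mat Q z.1 := by
    intro z
    simp only [s, Finset.mem_filter, Finset.mem_product, Finset.mem_univ, and_true]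
  have hsum : ∑ g ∈ LE Q, ∑ T ∈ Mat Q g, (1 - Real.exp (-v)) ^ T.card =
      ∑ z ∈ s, (1 - Real.exp (-v)) ^ z.2.card := by
    rw [Finset.sum_filter, Finset.sum_product]
    apply Finset.sum_congr rfl
    intro g _
    rw [← Finset.sum_filter]
    apply Finset.sum_congr _ (fun _ _ => rfl)
    ext T
    simp
  have hle : ∫⁻ x in ⋃ z ∈ s, OR (swP z.2 z.1) v ∅ z.2, ENNReal.ofReal (Real.exp (-(mx x))) ≤
      Z Q (-v) := by
    unfold Z
    apply lintegral_mono_set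
    intro x hx
    rw [Set.mem_iUnion₂] at hx
    obtain ⟨z, hz, hxz⟩ := hx
    obtain ⟨hz1, hz2⟩ := (hs z).1 hz
    exact OR_sub hz1 hz2 hv hxz
  refine le_trans ?_ hle
  rw [lintegral_biUnion_finset ?_ (fun z _ => OR_meas _ _ _ _), hsum,
    ENNReal.ofReal_sum_of_nonneg (fun z _ => pow_nonneg hq _), Finset.sum_mul]
  · apply le_of_eq
    apply Finset.sum_congr rfl
    intro z _
    rw [OR_int _ v hv ∅ z.2 (Finset.disjoint_empty_left _), Finset.card_empty, pow_zero, one_mul]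
  · intro z hz z' hz' hzz
    apply OR_disj
    intro h
    apply hzz
    obtain ⟨hz1, hz2⟩ := (hs z).1 hz
    obtain ⟨hz1', hz2'⟩ := (hs z').1 hz'
    obtain ⟨e1, e2⟩ := swP_inj hz1 hz2 hz1' hz2' h
    exact Prod.ext e1 e2

end Pool.GE63
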